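import Pool.Agent.LLW.Defs
import Pool.Agent.REC.ModTot
import Pool.Agent.Helper52.PrimeSums

/-! # LLW/Bas: basic facts used in UpC, Vd, Main -/

set_option autoImplicit false

open Finset Pool.Agent.REC

namespace Pool.Agent.LLW

theorem pmod_le4 (z : ℕ) : pmod z ≤ 4 ^ z := by
  have h1 : pmod z ∣ primorial z := by
    unfold pmod primorial
    refine Finset.prod_dvd_prod_of_subset _ _ _ fun p hp => ?_
    have h2 := mem_prs.1 hp
    rw [mem_filter, mem_range]
    exact ⟨by omega, h2.1⟩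
  exact (Nat.le_of_dvd (primorial_pos z) h1).trans (primorial_le_four_pow z)

/-- the product of the primes `≤ z` is a small power of `H` -/
theorem pmod_small {H z : ℕ} (hH : 1 ≤ H) (hz : (z : ℝ) ≤ 1 / 400 * Real.log H) :
    pmod z ^ 200 ≤ H := by
  have h1 : pmod z ^ 200 ≤ (4 ^ z) ^ 200 := Nat.pow_le_pow_left (pmod_le4 z) 200
  refine h1.trans ?_
  have hH0 : (0 : ℝ) < H := by exact_mod_cast hH
  have hl : 0 ≤ Real.log H := Real.log_natCast_nonneg H
  have h2 : (((4 ^ z) ^ 200 : ℕ) : ℝ) ≤ (H : ℝ) := by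
    rw [← Real.log_le_log_iff (by positivity) hH0]
    push_cast
    rw [← pow_mul, Real.log_pow]
    have h4 : Real.log 4 < 2 := by
      have : Real.log 4 = 2 * Real.log 2 := by
        rw [show (4 : ℝ) = 2 ^ 2 by norm_num, Real.log_pow]; norm_num
      have := Real.log_two_lt_d9
      linarith
    have h5 : 0 < Real.log 4 := Real.log_pos (by norm_num)
    push_cast
    have hz0 : (0 : ℝ) ≤ z := Nat.cast_nonneg z
    nlinarith
  exact_mod_cast h2

private theorem Iv_count (y H b : ℕ) {Q : ℕ} (hQ : 0 < Q) :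
    (H : ℝ) / Q - 1 ≤ (Iv y H Q b).card ∧ ((Iv y H Q b).card : ℝ) ≤ (H : ℝ) / Q + 1 := by
  have h := Nat.Ioc_filter_modEq_card y (y + H) hQ b
  have hc : (((Iv y H Q b).card : ℤ) : ℚ) =
      ((max (⌊(((y + H : ℕ) : ℚ) - b) / (Q : ℚ)⌋ - ⌊((y : ℚ) - b) / (Q : ℚ)⌋) 0 : ℤ) : ℚ) := by
    have h2 : ((Iv y H Q b).card : ℤ) =
      max (⌊(((y + H : ℕ) : ℚ) - b) / (Q : ℚ)⌋ - ⌊((y : ℚ) - b) / (Q : ℚ)⌋) 0 := h
    rw [h2]
  have hQ0 : (0 : ℚ) < Q := by exact_mod_cast hQ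
  have e : (((y + H : ℕ) : ℚ) - b) / (Q : ℚ) = ((y : ℚ) - b) / (Q : ℚ) + (H : ℚ) / Q := by
    push_cast
    ring
  have f1 := Int.floor_le ((((y + H : ℕ) : ℚ) - b) / (Q : ℚ))
  have f2 := Int.lt_floor_add_one ((((y + H : ℕ) : ℚ) - b) / (Q : ℚ))
  have f3 := Int.floor_le (((y : ℚ) - b) / (Q : ℚ))
  have f4 := Int.lt_floor_add_one (((y : ℚ) - b) / (Q : ℚ))
  rw [e] at f1 f2 hc
  have hnn : (0 : ℚ) ≤ (H : ℚ) / Q := by positivity
  have h3 : (H : ℚ) / Q - 1 ≤ (((Iv y H Q b).card : ℤ) : ℚ) ∧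
      (((Iv y H Q b).card : ℤ) : ℚ) ≤ (H : ℚ) / Q + 1 := by
    rw [hc]
    push_cast
    constructor
    · refine le_trans ?_ (le_max_left _ _)
      linarith
    · refine max_le ?_ ?_
      · linarith
      · linarith
  have h4 : (((Iv y H Q b).card : ℤ) : ℚ) = ((Iv y H Q b).card : ℚ) := by push_cast; rfl
  rw [h4] at h3
  constructor
  · have := (Rat.cast_le (K := ℝ)).2 h3.1
    push_cast at this
    exact this
  · have := (Rat.cast_le (K := ℝ)).2 h3.2
    push_cast at this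
    exact this

theorem Iv_ge (y H b : ℕ) {Q : ℕ} (hQ : 0 < Q) : (H : ℝ) / Q - 1 ≤ (Iv y H Q b).card :=
  (Iv_count y H b hQ).1

theorem Iv_le (y H b : ℕ) {Q : ℕ} (hQ : 0 < Q) : ((Iv y H Q b).card : ℝ) ≤ (H : ℝ) / Q + 1 :=
  (Iv_count y H b hQ).2

theorem tot_pmod : ∃ c : ℝ, 0 < c ∧ ∀ z : ℕ, 2 ≤ z →
    c * (pmod z : ℝ) ≤ Real.log z * (Nat.totient (pmod z) : ℝ) := by
  refine ⟨Real.exp (-9) / 4, by positivity, fun z hz => ?_⟩
  have hpf : (pmod z).primeFactors = prs z := by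
    unfold pmod
    exact Nat.primeFactors_prod fun p hp => (mem_prs.1 hp).1
  have h1 : (Nat.totient (pmod z) : ℝ) = (pmod z : ℝ) *
      ∏ q ∈ prs z, (1 - 1 / (q : ℝ)) := by
    have h := Nat.totient_eq_mul_prod_factors (pmod z)
    rw [hpf] at h
    have h' := congrArg (fun z : ℚ => (z : ℝ)) h
    push_cast at h'
    rw [h']
    simp only [one_div]
  have h01 : ∀ q : ℕ, q.Prime → 0 ≤ 1 / (q : ℝ) ∧ 1 / (q : ℝ) ≤ 1 := by
    intro q hq
    have hq2 : (2 : ℝ) ≤ (q : ℝ) := by exact_mod_cast hq.two_le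
    refine ⟨by positivity, ?_⟩
    rw [div_le_one (by linarith)]
    linarith
  obtain ⟨a, ha⟩ : ∃ a : ℕ, a = Nat.log 2 z + 1 := ⟨_, rfl⟩
  have hza : z ≤ 2 ^ a := by
    rw [ha]
    exact (Nat.lt_pow_succ_log_self (by norm_num) z).le
  have hza2 : 2 ^ a ≤ 2 * z := by
    rw [ha, pow_succ, mul_comm]
    exact Nat.mul_le_mul_left 2 (Nat.pow_log_le_self 2 (by omega))
  have ha1 : 1 ≤ a := by omega
  have h2 := Pool.Agent.Helper52.prod_lower ha1
  have hsub : prs z ⊆ Pool.Agent.Helper52.pr 0 (2 ^ a) := by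
    intro q hq
    rw [Pool.Agent.Helper52.mem_pr]
    have := mem_prs.1 hq
    exact ⟨this.1.pos, this.2.trans hza, this.1⟩
  have h6 : ∏ q ∈ Pool.Agent.Helper52.pr 0 (2 ^ a), (1 - 1 / (q : ℝ)) ≤
      ∏ q ∈ prs z, (1 - 1 / (q : ℝ)) := by
    rw [← prod_sdiff hsub]
    refine mul_le_of_le_one_left (prod_nonneg fun q hq => ?_) ?_
    · have := (h01 q (mem_prs.1 hq).1).2
      linarith
    · refine prod_le_one (fun q hq => ?_) fun q hq => ?_
      · have := (h01 q ((Pool.Agent.Helper52.mem_pr.1 (sdiff_subset hq)).2.2)).2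
        linarith
      · have := (h01 q ((Pool.Agent.Helper52.mem_pr.1 (sdiff_subset hq)).2.2)).1
        linarith
  have hz2 : (2 : ℝ) ≤ z := by exact_mod_cast hz
  have hlz : Real.log 2 ≤ Real.log z := Real.log_le_log (by norm_num) hz2
  have hl2 := Real.log_two_gt_d9
  have ha0 : (0 : ℝ) < a := by exact_mod_cast ha1
  have hal : (a : ℝ) * Real.log 2 ≤ 2 * Real.log z := by
    have h7 : ((2 ^ a : ℕ) : ℝ) ≤ ((2 * z : ℕ) : ℝ) := by exact_mod_cast hza2
    push_cast at h7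
    have h8 := Real.log_le_log (by positivity) h7
    rw [Real.log_pow, Real.log_mul (by norm_num) (by linarith)] at h8
    linarith
  have h9 : Real.exp (-9) / 4 ≤ Real.log z * ∏ q ∈ prs z, (1 - 1 / (q : ℝ)) := by
    have h10 : Real.exp (-9) / a ≤ ∏ q ∈ prs z, (1 - 1 / (q : ℝ)) := h2.trans h6
    have h11 : (a : ℝ) ≤ 4 * Real.log z := by nlinarith
    have h12 : 0 < Real.log z := by linarith
    calc Real.exp (-9) / 4 = a / 4 * (Real.exp (-9) / a) := by field_simp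
      _ ≤ Real.log z * (Real.exp (-9) / a) := by
          apply mul_le_mul_of_nonneg_right _ (by positivity)
          linarith
      _ ≤ _ := mul_le_mul_of_nonneg_left h10 h12.le
  rw [h1]
  have hp0 : (0 : ℝ) ≤ pmod z := Nat.cast_nonneg _
  calc Real.exp (-9) / 4 * (pmod z : ℝ) ≤
      (Real.log z * ∏ q ∈ prs z, (1 - 1 / (q : ℝ))) * (pmod z : ℝ) :=
        mul_le_mul_of_nonneg_right h9 hp0
    _ = _ := by ring

theorem prs_card : ∃ C : ℝ, 0 < C ∧ ∀ z : ℕ, 2 ≤ z →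
    ((prs z).card : ℝ) ≤ C * z / Real.log z := by
  have hcheb := (tendsto_natCast_atTop_atTop (R := ℝ)).eventually
    (Chebyshev.eventually_primeCounting_le (ε := 0.1) (by norm_num))
  obtain ⟨x0, hx0⟩ := Filter.eventually_atTop.1 hcheb
  have hcard : ∀ z : ℕ, (prs z).card = Nat.primeCounting z := by
    intro z
    rw [Nat.primeCounting, Nat.primeCounting', Nat.count_eq_card_filter_range]
    congr 1
    ext q
    rw [mem_prs, mem_filter, mem_range]
    constructor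
    · rintro ⟨h1, h2⟩; exact ⟨by omega, h1⟩
    · rintro ⟨h1, h2⟩; exact ⟨h2, by omega⟩
  refine ⟨3 + (x0 : ℝ), by positivity, fun z hz => ?_⟩
  have hz2 : (2 : ℝ) ≤ z := by exact_mod_cast hz
  have hlz : 0 < Real.log z := Real.log_pos (by linarith)
  have h1 : 1 ≤ (z : ℝ) / Real.log z := by
    rw [le_div_iff₀ hlz, one_mul]
    have := Real.log_le_sub_one_of_pos (x := (z : ℝ)) (by linarith)
    linarith
  have h0 : (0 : ℝ) ≤ x0 := Nat.cast_nonneg _
  have hx : 0 ≤ (z : ℝ) / Real.log z := by positivity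
  rw [mul_div_assoc]
  by_cases hxx : x0 ≤ z
  · have h2 := hx0 z hxx
    rw [Nat.floor_natCast] at h2
    rw [hcard]
    refine h2.trans ?_
    have hlog4 : Real.log 4 < 1.3863 := by
      have : Real.log 4 = 2 * Real.log 2 := by
        rw [show (4 : ℝ) = 2 ^ 2 by norm_num, Real.log_pow]; norm_num
      rw [this]
      have := Real.log_two_lt_d9
      linarith
    rw [mul_div_assoc]
    apply mul_le_mul_of_nonneg_right _ hx
    linarith
  · push Not at hxx
    have h2 : (prs z).card ≤ x0 := by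
      refine (card_filter_le _ _).trans ?_
      rw [Nat.card_Icc]
      omega
    have h3 : ((prs z).card : ℝ) ≤ x0 := by exact_mod_cast h2
    nlinarith

theorem dvd_pmod_of_mem {z p : ℕ} (hp : p.Prime) (hz : p ≤ z) : p ∣ pmod z :=
  Finset.dvd_prod_of_mem _ (mem_prs.2 ⟨hp, hz⟩)

/-- the prime factors of `pmod z` are `≤ z` -/
theorem le_of_dvd_pmod {z p : ℕ} (hp : p.Prime) (h : p ∣ pmod z) : p ≤ z := by
  obtain ⟨q, hq, hd⟩ := (hp.prime.dvd_finsetProd_iff _).1 h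
  rw [(Nat.prime_dvd_prime_iff_eq hp (mem_prs.1 hq).1).1 hd]
  exact (mem_prs.1 hq).2

end Pool.Agent.LLW
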