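import Pool.Agent.LLW.Up
import Pool.Agent.LLW.Bas

/-!
# LLW/UpC: the upper bound (1) of LL81.md, from `bt_int`

Plan.  `P := pmod z`, `c = 1/400`.  (a) `z ≥ L^ε ≥ 2`, so `2 ∣ P`; `P ^ 200 ≤ H` (`pmod_small`).
(b) a term `a` of `Ws g z A n`, `n ≡ b`: the prime `p = g n - a > z` is prime to `P`, so `a ∈ Vs g A P b` (the gcd
only depends on `n` modulo `P`).  So the sum is `≤ ∑_{a ∈ Vs g A P b} #{n ∈ Iv : g n - a is a prime > z}`.
(c) `q := g P`, `n ↦ g n - a` is injective into the primes `p ∈ Ioc u (u + g H)`, `u = g y - a` (naturals), `p ≡ r [MOD q]` with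
`r := (g b + a (q - 1))` or any natural representative of `g b - a` modulo `q`; `r` is prime to `q` (for `g = 2`: `2 ∣ P`).
(d) `bt_int` with `X = g H`: `≤ C g H / (φ(q) log (g H))`, `φ(q) ≥ g φ(P) / ...`: for `g = 2`, `φ(2P) = 2 φ(P)` since `2 ∣ P`;
`φ(P)/P ≥ c / log z ≥ c / log log H` (`tot_pmod`).
(e) `#Iv ≥ H/P - 1 ≥ H/(2P)` (`Iv_ge`).
-/

set_option autoImplicit false

open Finset Pool.Agent.REC

namespace Pool.Agent.LLW

/-- the prime of a term is prime to `pmod z` -/
private theorem mem_Vs_of {g z b n a p : ℕ} {A : Finset ℕ} (ha : a ∈ A) (hn : n ≡ b [MOD pmod z])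
    (hp : p.Prime) (hz : z < p) (he : a + p = g * n) : a ∈ Vs g A (pmod z) b := by
  rw [Vs, mem_filter]
  refine ⟨ha, ?_⟩
  have h1 : Nat.Coprime p (pmod z) := by
    rw [Nat.Prime.coprime_iff_not_dvd hp]
    intro hd
    have := le_of_dvd_pmod hp hd
    omega
  have h2 : (b : ℤ) ≡ n [ZMOD (pmod z : ℕ)] := (Int.natCast_modEq_iff.2 hn).symm
  obtain ⟨k, hk⟩ := h2.dvd
  have h3 : (g : ℤ) * b - a = p + (-(g * k)) * (pmod z : ℕ) := by
    have h4 : (a : ℤ) + p = g * n := by exact_mod_cast he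
    have h5 : (n : ℤ) = b + (pmod z : ℕ) * k := by linarith
    rw [h5] at h4
    linarith
  rw [h3, Int.gcd_add_mul_right_left]
  exact_mod_cast h1

private theorem cop_r {g P b a : ℕ} (hg : g = 1 ∨ g = 2) (h2 : 2 ∣ P) (hP : 0 < P)
    (h : Int.gcd ((g : ℤ) * b - a) P = 1) : Nat.Coprime (g * P) (g * b + a * (g * P - 1)) := by
  have hq : 1 ≤ g * P := Nat.mul_pos (by omega) hP
  have h1 : Nat.Coprime P (g * b + a * (g * P - 1)) := by
    rw [Nat.coprime_comm]
    have e : ((g * b + a * (g * P - 1) : ℕ) : ℤ) = ((g : ℤ) * b - a) + (a * g) * (P : ℤ) := by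
      push_cast [Nat.cast_sub hq]
      ring
    have h3 : Int.gcd ((g * b + a * (g * P - 1) : ℕ) : ℤ) (P : ℕ) = 1 := by
      rw [e, Int.gcd_add_mul_right_left]
      exact h
    exact_mod_cast h3
  rcases hg with rfl | rfl
  · rw [one_mul P]
    rw [one_mul P] at h1
    exact h1
  · exact Nat.Coprime.mul_left (Nat.Coprime.coprime_dvd_left h2 h1) h1

open Classical in
private theorem count_a {g P y H b a z : ℕ} (hg : g = 1 ∨ g = 2) (hP : 0 < P) :
    ((Iv y H P b).filter (fun n => ∃ p : ℕ, p.Prime ∧ z < p ∧ a + p = g * n)).card ≤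
      ((Ioc (g * y - a) (g * y - a + g * H)).filter
        (fun p => p.Prime ∧ p ≡ g * b + a * (g * P - 1) [MOD g * P])).card := by
  have hg0 : 0 < g := by omega
  refine card_le_card_of_injOn (fun n => g * n - a) ?_ ?_
  · intro n hn
    rw [mem_coe, mem_filter, Iv, mem_filter, mem_Ioc] at hn
    obtain ⟨⟨⟨h1, h2⟩, h3⟩, p, hp, hz, he⟩ := hn
    have hpe : g * n - a = p := by omega
    rw [mem_coe, mem_filter, mem_Ioc]
    simp only
    rw [hpe]
    have h4 : g * y < g * n := Nat.mul_lt_mul_of_pos_left h1 hg0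
    have h5 : g * n ≤ g * y + g * H := by
      rw [← Nat.mul_add]
      exact Nat.mul_le_mul_left g h2
    have hp0 := hp.pos
    refine ⟨⟨by omega, by omega⟩, hp, ?_⟩
    have h6 : g * n ≡ g * b [MOD g * P] := Nat.ModEq.mul_left' g h3
    have h7 : a + p ≡ a + (g * b + a * (g * P - 1)) [MOD g * P] := by
      rw [he]
      refine h6.trans ?_
      have hq : 1 ≤ g * P := Nat.mul_pos hg0 hP
      have e : a + (g * b + a * (g * P - 1)) = g * b + a * (g * P) := by
        obtain ⟨m, hm⟩ := Nat.exists_eq_add_of_le hq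
        rw [hm]
        have : 1 + m - 1 = m := by omega
        rw [this]
        ring
      rw [e]
      exact (Nat.modEq_iff_dvd' (Nat.le_add_right _ _)).2 (by
        rw [Nat.add_sub_cancel_left]
        exact dvd_mul_left _ _)
    exact Nat.ModEq.add_left_cancel' a h7
  · intro n hn m hm hnm
    rw [mem_coe, mem_filter] at hn hm
    obtain ⟨_, p, hp, hz, he⟩ := hn
    obtain ⟨_, p', hp', hz', he'⟩ := hm
    have h1 : g * n - a = g * m - a := hnm
    have h2 : g * n = g * m := by omega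
    exact Nat.eq_of_mul_eq_mul_left hg0 h2

private theorem tot_g {g P : ℕ} (hg : g = 1 ∨ g = 2) (h2 : 2 ∣ P) :
    Nat.totient (g * P) = g * Nat.totient P := by
  rcases hg with rfl | rfl
  · rw [one_mul, one_mul]
  · exact Nat.totient_mul_of_prime_of_dvd Nat.prime_two h2

open Classical in
private theorem sum_Ws {g z y H b : ℕ} (A : Finset ℕ) :
    ∑ n ∈ Iv y H (pmod z) b, ((Ws g z A n).card : ℝ) ≤
      ∑ a ∈ Vs g A (pmod z) b,
        (((Iv y H (pmod z) b).filter
          (fun n => ∃ p : ℕ, p.Prime ∧ z < p ∧ a + p = g * n)).card : ℝ) := by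
  have h1 : ∀ n ∈ Iv y H (pmod z) b, ((Ws g z A n).card : ℝ) =
      ∑ a ∈ Vs g A (pmod z) b,
        if (∃ p : ℕ, p.Prime ∧ z < p ∧ a + p = g * n) then (1 : ℝ) else 0 := by
    intro n hn
    rw [Iv, mem_filter] at hn
    rw [← sum_filter, sum_const, nsmul_eq_mul, mul_one]
    congr 2
    ext a
    rw [Ws, mem_filter, mem_filter]
    constructor
    · rintro ⟨ha, p, hp, hz, he⟩
      exact ⟨mem_Vs_of ha hn.2 hp hz he, p, hp, hz, he⟩
    · rintro ⟨ha, h⟩
      rw [Vs, mem_filter] at ha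
      exact ⟨ha.1, h⟩
  rw [sum_congr rfl h1, sum_comm]
  refine sum_le_sum fun a _ => ?_
  rw [← sum_filter, sum_const, nsmul_eq_mul, mul_one]

theorem upper (ε : ℝ) (hε : 0 < ε) : ∃ c C : ℝ, 0 < c ∧ 0 < C ∧ ∃ H0 : ℕ, ∀ H : ℕ, H0 ≤ H →
    ∀ (g y z b : ℕ) (A : Finset ℕ), (g = 1 ∨ g = 2) → Real.log H ^ ε ≤ z →
    (z : ℝ) ≤ c * Real.log H →
    ∑ n ∈ Iv y H (pmod z) b, ((Ws g z A n).card : ℝ) ≤
      C * lm H (Vs g A (pmod z) b).card * (Iv y H (pmod z) b).card := by
  classical
  obtain ⟨C1, hC1, X0, hX⟩ := bt_int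
  obtain ⟨c2, hc2, htot⟩ := tot_pmod
  have t1 : Filter.Tendsto (fun H : ℕ => Real.log H ^ ε) Filter.atTop Filter.atTop :=
    (tendsto_rpow_atTop hε).comp (Real.tendsto_log_atTop.comp tendsto_natCast_atTop_atTop)
  obtain ⟨H1, hH1⟩ := Filter.eventually_atTop.1 (t1.eventually_ge_atTop 2)
  refine ⟨1 / 400, 2 * (C1 / c2), by norm_num, by positivity, max (max H1 X0) 3,
    fun H hH g y z b A hg hz1 hz2 => ?_⟩
  have hHH1 : H1 ≤ H := (le_max_left _ _).trans ((le_max_left _ _).trans hH)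
  have hHX0 : X0 ≤ H := (le_max_right _ _).trans ((le_max_left _ _).trans hH)
  have hH3 : 3 ≤ H := (le_max_right _ _).trans hH
  have hz : 2 ≤ z := by
    have := (hH1 H hHH1).trans hz1
    exact_mod_cast this
  have hH3r : (3 : ℝ) ≤ H := by exact_mod_cast hH3
  have hL1 : 1 ≤ Real.log H := by
    rw [Real.le_log_iff_exp_le (by linarith)]
    have := Real.exp_one_lt_d9
    linarith
  have hL0 : 0 < Real.log H := by linarith
  have hz2r : (2 : ℝ) ≤ z := by exact_mod_cast hz
  have hlz : Real.log z ≤ Real.log (Real.log H) := by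
    refine Real.log_le_log (by linarith) (hz2.trans ?_)
    linarith
  have hlz0 : 0 < Real.log z := Real.log_pos (by linarith)
  set P := pmod z with hPdef
  have h2P : 2 ∣ P := dvd_pmod_of_mem Nat.prime_two hz
  have hPH : P ^ 200 ≤ H := pmod_small (by omega) hz2
  have hP0 : 0 < P := by
    rw [hPdef]
    unfold pmod
    exact prod_pos fun p hp => (mem_prs.1 hp).1.pos
  have hP2 : 2 ≤ P := Nat.le_of_dvd hP0 h2P
  have hP0r : (0 : ℝ) < P := by exact_mod_cast hP0
  have hg0 : 0 < g := by omega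
  have hg2 : g ≤ P := by omega
  have hgr : (0 : ℝ) < g := by exact_mod_cast hg0
  have hq4 : (g * P) ^ 4 ≤ g * H := by
    calc (g * P) ^ 4 ≤ (P * P) ^ 4 := Nat.pow_le_pow_left (Nat.mul_le_mul_right P hg2) 4
      _ = P ^ 8 := by ring
      _ ≤ P ^ 200 := Nat.pow_le_pow_right hP0 (by norm_num)
      _ ≤ H := hPH
      _ ≤ g * H := Nat.le_mul_of_pos_left H hg0
  have hφ0 : (0 : ℝ) < Nat.totient P := by exact_mod_cast Nat.totient_pos.2 hP0
  have hI : (H : ℝ) / P ≤ 2 * (Iv y H P b).card := by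
    have h1 := Iv_ge y H b hP0
    have h2 : (2 : ℝ) ≤ (H : ℝ) / P := by
      rw [le_div_iff₀ hP0r]
      have h3 : 2 * P ≤ H := by
        calc 2 * P ≤ P * P := Nat.mul_le_mul_right P hP2
          _ = P ^ 2 := by ring
          _ ≤ P ^ 200 := Nat.pow_le_pow_right hP0 (by norm_num)
          _ ≤ H := hPH
      exact_mod_cast h3
    linarith
  have hbound : ∀ a ∈ Vs g A P b,
      (((Iv y H P b).filter
          (fun n => ∃ p : ℕ, p.Prime ∧ z < p ∧ a + p = g * n)).card : ℝ) ≤
        (C1 / c2) * ((H : ℝ) / P) * (Real.log (Real.log H) / Real.log H) := by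
    intro a ha
    rw [Vs, mem_filter] at ha
    have h1 : (((Iv y H P b).filter
          (fun n => ∃ p : ℕ, p.Prime ∧ z < p ∧ a + p = g * n)).card : ℝ) ≤
          (((Ioc (g * y - a) (g * y - a + g * H)).filter
        (fun p => p.Prime ∧ p ≡ g * b + a * (g * P - 1) [MOD g * P])).card : ℝ) := by
      exact_mod_cast count_a hg hP0
    have h2 := hX (g * H) (hHX0.trans (Nat.le_mul_of_pos_left H hg0)) (g * P)
      (g * b + a * (g * P - 1)) (g * y - a) (Nat.mul_pos hg0 hP0) hq4 (cop_r hg h2P hP0 ha.2)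
    refine h1.trans (h2.trans ?_)
    rw [tot_g hg h2P]
    push_cast
    have hlogX : Real.log H ≤ Real.log ((g : ℝ) * H) := by
      refine Real.log_le_log (by linarith) ?_
      have : (1 : ℝ) ≤ g := by exact_mod_cast hg0
      nlinarith
    have h3 : C1 * ((g : ℝ) * H) / ((g : ℝ) * Nat.totient P * Real.log ((g : ℝ) * H)) ≤
        C1 * ((g : ℝ) * H) / ((g : ℝ) * Nat.totient P * Real.log H) := by
      apply div_le_div_of_nonneg_left (by positivity) (by positivity)
      exact mul_le_mul_of_nonneg_left hlogX (by positivity)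
    refine h3.trans ?_
    have h4 : C1 * ((g : ℝ) * H) / ((g : ℝ) * Nat.totient P * Real.log H) =
        C1 * H * (1 / Nat.totient P) / Real.log H := by
      field_simp
    rw [h4]
    have h5 : 1 / (Nat.totient P : ℝ) ≤ Real.log (Real.log H) / (c2 * P) := by
      rw [div_le_div_iff₀ hφ0 (by positivity), one_mul]
      refine (htot z hz).trans ?_
      exact mul_le_mul_of_nonneg_right hlz hφ0.le
    have h6 : C1 * H * (1 / Nat.totient P) / Real.log H ≤
        C1 * H * (Real.log (Real.log H) / (c2 * P)) / Real.log H := by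
      apply div_le_div_of_nonneg_right _ hL0.le
      exact mul_le_mul_of_nonneg_left h5 (by positivity)
    refine h6.trans (le_of_eq ?_)
    field_simp
  have hll0 : 0 ≤ Real.log (Real.log H) := Real.log_nonneg hL1
  refine (sum_Ws A).trans ((sum_le_sum hbound).trans ?_)
  rw [sum_const, nsmul_eq_mul, lm]
  have hk0 : (0 : ℝ) ≤ (Vs g A P b).card := Nat.cast_nonneg _
  calc ((Vs g A P b).card : ℝ) *
        ((C1 / c2) * ((H : ℝ) / P) * (Real.log (Real.log H) / Real.log H))
      ≤ ((Vs g A P b).card : ℝ) *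
        ((C1 / c2) * (2 * (Iv y H P b).card) * (Real.log (Real.log H) / Real.log H)) := by
        refine mul_le_mul_of_nonneg_left ?_ hk0
        refine mul_le_mul_of_nonneg_right ?_ (by positivity)
        exact mul_le_mul_of_nonneg_left hI (by positivity)
    _ = _ := by ring

end Pool.Agent.LLW
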