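import Pool.Agent.LLW.Main
import Pool.Agent.LLW.UpC

/-!
# LLW/Both: the two-sided statement (3) of LL81.md, from `low` and `upper` (3d)

Plan.  `S := ∑_{n ∈ Icc 1 H} min 1 (lm n)`, `lm n := lm H (Vs g A (pmod z) n).card` depends only on `n` modulo `pmod z`.
`upper` with `y = 0` for each class `b < pmod z` (`Ioc 0 H = Icc 1 H`): dividing by `max 1 (lm b)` (`lm = min 1 lm * max 1 lm`) and summing over
`b`: `∑_{n ∈ Icc 1 H} |Ws n| / max 1 (lm n) ≤ C1 S`.  So at most `(C1 / K) S` of the `n` have `|Ws n| > K max 1 (lm n)`.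
`low` gives `≥ c0 S` of the `n` with `|Ws n| ≥ max 1 (c0 lm n) ≥ min 1 c0 * max 1 (lm n)`; `K = 2 C1 / c0` and `c = min (c0/2) ...`, `C = K`.
-/

set_option autoImplicit false

open Finset Pool.Agent.REC

namespace Pool.Agent.LLW

private theorem Vs_congr_both (g : ℕ) (A : Finset ℕ) (Q n b : ℕ) (h : n ≡ b [MOD Q]) :
    Vs g A Q n = Vs g A Q b := by
  unfold Vs
  refine Finset.filter_congr fun a _ => ?_
  have hz : ((g : ℤ) * n - a) ≡ ((g : ℤ) * b - a) [ZMOD (Q : ℤ)] :=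
    Int.ModEq.sub (Int.ModEq.mul_left _ (Int.natCast_modEq_iff.2 h)) rfl
  have h2 : Int.gcd ((g : ℤ) * n - a) Q = Int.gcd ((g : ℤ) * b - a) Q := by
    rw [← Int.gcd_emod ((g : ℤ) * n - a) Q, ← Int.gcd_emod ((g : ℤ) * b - a) Q]
    rw [hz]
  rw [h2]

private theorem lm_nn_both {H : ℕ} (hH : 3 ≤ H) (k : ℕ) : 0 ≤ lm H k := by
  unfold lm
  have h1 : (1 : ℝ) ≤ Real.log H := by
    have h3 : (3 : ℝ) ≤ H := by exact_mod_cast hH
    rw [Real.le_log_iff_exp_le (by linarith)]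
    linarith [Real.exp_one_lt_d9]
  have h2 : 0 ≤ Real.log (Real.log H) := Real.log_nonneg h1
  positivity

/-- the weighted upper bound, summed over all classes -/
private theorem sum_up_both (ε : ℝ) (hε : 0 < ε) : ∃ c C : ℝ, 0 < c ∧ 0 < C ∧ ∃ H0 : ℕ, ∀ H : ℕ, H0 ≤ H →
    ∀ (g z : ℕ) (A : Finset ℕ), (g = 1 ∨ g = 2) → Real.log H ^ ε ≤ z →
    (z : ℝ) ≤ c * Real.log H →
    ∑ n ∈ Icc 1 H, ((Ws g z A n).card : ℝ) / max 1 (lm H (Vs g A (pmod z) n).card) ≤
      C * ∑ n ∈ Icc 1 H, min 1 (lm H (Vs g A (pmod z) n).card) := by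
  obtain ⟨c, C, hc, hC, H0, h0⟩ := upper ε hε
  refine ⟨c, C, hc, hC, max H0 3, fun H hH g z A hg hz1 hz2 => ?_⟩
  have hH0 : H0 ≤ H := le_trans (le_max_left _ _) hH
  have hIcc : Icc 1 H = Ioc 0 (0 + H) := by
    ext x
    simp only [mem_Icc, mem_Ioc]
    omega
  have hP : 0 < pmod z := pmod_pos z
  have hmaps : ∀ n ∈ Icc 1 H, n % pmod z ∈ range (pmod z) := fun n _ =>
    mem_range.2 (Nat.mod_lt _ hP)
  have hfib : ∀ b ∈ range (pmod z),
      (Icc 1 H).filter (fun n => n % pmod z = b) = Iv 0 H (pmod z) b := by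
    intro b hb
    rw [hIcc]
    unfold Iv
    refine Finset.filter_congr fun n _ => ?_
    rw [Nat.ModEq, Nat.mod_eq_of_lt (mem_range.1 hb)]
  rw [← Finset.sum_fiberwise_of_maps_to hmaps, ← Finset.sum_fiberwise_of_maps_to hmaps,
    Finset.mul_sum]
  refine Finset.sum_le_sum fun b hb => ?_
  rw [hfib b hb]
  have hV : ∀ n ∈ Iv 0 H (pmod z) b, Vs g A (pmod z) n = Vs g A (pmod z) b := by
    intro n hn
    exact Vs_congr_both g A (pmod z) n b (Finset.mem_filter.1 hn).2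
  have h1 := h0 H hH0 g 0 z b A hg hz1 hz2
  have hM : 0 < max 1 (lm H (Vs g A (pmod z) b).card) := lt_of_lt_of_le one_pos (le_max_left _ _)
  have e1 : ∑ n ∈ Iv 0 H (pmod z) b, ((Ws g z A n).card : ℝ) /
        max 1 (lm H (Vs g A (pmod z) n).card) =
      (∑ n ∈ Iv 0 H (pmod z) b, ((Ws g z A n).card : ℝ)) /
        max 1 (lm H (Vs g A (pmod z) b).card) := by
    rw [Finset.sum_div]
    refine Finset.sum_congr rfl fun n hn => ?_
    rw [hV n hn]
  have e2 : ∑ n ∈ Iv 0 H (pmod z) b, min 1 (lm H (Vs g A (pmod z) n).card) =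
      ((Iv 0 H (pmod z) b).card : ℝ) * min 1 (lm H (Vs g A (pmod z) b).card) := by
    rw [← nsmul_eq_mul, ← Finset.sum_const]
    refine Finset.sum_congr rfl fun n hn => ?_
    rw [hV n hn]
  rw [e1, e2, div_le_iff₀ hM]
  have e3 : lm H (Vs g A (pmod z) b).card =
      min 1 (lm H (Vs g A (pmod z) b).card) * max 1 (lm H (Vs g A (pmod z) b).card) := by
    rw [min_mul_max, one_mul]
  calc (∑ n ∈ Iv 0 H (pmod z) b, ((Ws g z A n).card : ℝ))
      ≤ C * lm H (Vs g A (pmod z) b).card * (Iv 0 H (pmod z) b).card := h1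
    _ = C * (min 1 (lm H (Vs g A (pmod z) b).card) *
          max 1 (lm H (Vs g A (pmod z) b).card)) * (Iv 0 H (pmod z) b).card := by rw [← e3]
    _ = C * (((Iv 0 H (pmod z) b).card : ℝ) * min 1 (lm H (Vs g A (pmod z) b).card)) *
          max 1 (lm H (Vs g A (pmod z) b).card) := by ring

theorem both (ε : ℝ) (hε : 0 < ε) : ∃ c C : ℝ, 0 < c ∧ 0 < C ∧ ∃ H0 : ℕ, ∀ H : ℕ, H0 ≤ H →
    ∀ (g z : ℕ) (A : Finset ℕ), (g = 1 ∨ g = 2) → Real.log H ^ ε ≤ z →
    (z : ℝ) ≤ c * Real.log H → (∀ a ∈ A, 2 * a ≤ (2 * g - 1) * H) → (g = 2 → ∀ a ∈ A, Odd a) →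
    c * ∑ n ∈ Icc 1 H, min 1 (lm H (Vs g A (pmod z) n).card) ≤
      (((Icc 1 H).filter (fun n =>
        c * max 1 (lm H (Vs g A (pmod z) n).card) ≤ ((Ws g z A n).card : ℝ) ∧
        ((Ws g z A n).card : ℝ) ≤ C * max 1 (lm H (Vs g A (pmod z) n).card))).card : ℝ) := by
  obtain ⟨c1, C1, hc1, hC1, H1, h1⟩ := sum_up_both ε hε
  obtain ⟨c0, hc0, H2, h2⟩ := low ε hε
  set c : ℝ := min (min (c0 / 2) 1) c1 with hc
  have hcpos : 0 < c := lt_min (lt_min (by positivity) one_pos) hc1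
  have hcc0 : c ≤ c0 / 2 := (min_le_left _ _).trans (min_le_left _ _)
  have hc1' : c ≤ 1 := (min_le_left _ _).trans (min_le_right _ _)
  have hcc1 : c ≤ c1 := min_le_right _ _
  refine ⟨c, 2 * C1 / c0, hcpos, by positivity, max (max H1 H2) 3,
    fun H hH g z A hg hz1 hz2 hA hodd => ?_⟩
  have hH1 : H1 ≤ H := le_trans (le_trans (le_max_left _ _) (le_max_left _ _)) hH
  have hH2 : H2 ≤ H := le_trans (le_trans (le_max_right _ _) (le_max_left _ _)) hH
  have hH3 : 3 ≤ H := le_trans (le_max_right _ _) hH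
  have hL : 0 ≤ Real.log H := Real.log_natCast_nonneg H
  have u1 := h1 H hH1 g z A hg hz1 (hz2.trans (mul_le_mul_of_nonneg_right hcc1 hL))
  have u2 := h2 H hH2 g z A hg hz1 (hz2.trans (by nlinarith)) hA hodd
  set l : ℕ → ℝ := fun n => lm H (Vs g A (pmod z) n).card with hl
  set r : ℕ → ℝ := fun n => ((Ws g z A n).card : ℝ) with hr
  have hl0 : ∀ n, 0 ≤ l n := fun n => lm_nn_both hH3 _
  have hr0 : ∀ n, 0 ≤ r n := fun n => Nat.cast_nonneg _
  set S : ℝ := ∑ n ∈ Icc 1 H, min 1 (l n) with hS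
  have hS0 : 0 ≤ S := Finset.sum_nonneg fun n _ => le_min zero_le_one (hl0 n)
  set K : ℝ := 2 * C1 / c0 with hK
  have hKpos : 0 < K := by positivity
  -- the three sets
  set B : Finset ℕ := (Icc 1 H).filter (fun n => K * max 1 (l n) < r n) with hB
  have hBle : (B.card : ℝ) * K ≤ C1 * S := by
    have h3 : (B.card : ℝ) * K ≤ ∑ n ∈ Icc 1 H, r n / max 1 (l n) := by
      calc (B.card : ℝ) * K = ∑ n ∈ B, K := by rw [Finset.sum_const, nsmul_eq_mul]
        _ ≤ ∑ n ∈ B, r n / max 1 (l n) := by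
            refine Finset.sum_le_sum fun n hn => ?_
            have hM : 0 < max 1 (l n) := lt_of_lt_of_le one_pos (le_max_left _ _)
            rw [le_div_iff₀ hM]
            exact (Finset.mem_filter.1 hn).2.le
        _ ≤ ∑ n ∈ Icc 1 H, r n / max 1 (l n) := by
            refine Finset.sum_le_sum_of_subset_of_nonneg (Finset.filter_subset _ _)
              fun n _ _ => ?_
            have hM : 0 < max 1 (l n) := lt_of_lt_of_le one_pos (le_max_left _ _)
            exact div_nonneg (hr0 n) hM.le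
    exact h3.trans u1
  have hBle2 : (B.card : ℝ) ≤ c0 / 2 * S := by
    have h4 : (B.card : ℝ) * K ≤ (c0 / 2 * S) * K := by
      refine hBle.trans (le_of_eq ?_)
      rw [hK]
      field_simp
    exact le_of_mul_le_mul_right h4 hKpos
  have hsub : (Icc 1 H).filter (fun n => max 1 (c0 * l n) ≤ r n) ⊆
      (Icc 1 H).filter (fun n => c * max 1 (l n) ≤ r n ∧ r n ≤ K * max 1 (l n)) ∪ B := by
    intro n hn
    rw [Finset.mem_filter] at hn
    rw [Finset.mem_union, hB, Finset.mem_filter, Finset.mem_filter]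
    by_cases h5 : r n ≤ K * max 1 (l n)
    · left
      refine ⟨hn.1, ?_, h5⟩
      refine le_trans ?_ hn.2
      rw [mul_max_of_nonneg _ _ hcpos.le]
      refine max_le_max (by linarith) (mul_le_mul_of_nonneg_right ?_ (hl0 n))
      linarith
    · right
      exact ⟨hn.1, not_le.1 h5⟩
  have hcard := Finset.card_le_card hsub
  have hcard2 := hcard.trans (Finset.card_union_le _ _)
  have hcard3 : ((((Icc 1 H).filter (fun n => max 1 (c0 * l n) ≤ r n)).card : ℕ) : ℝ) ≤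
      ((((Icc 1 H).filter (fun n => c * max 1 (l n) ≤ r n ∧ r n ≤ K * max 1 (l n))).card : ℕ) : ℝ)
        + (B.card : ℝ) := by exact_mod_cast hcard2
  have h6 : c * S ≤ c0 / 2 * S := mul_le_mul_of_nonneg_right hcc0 hS0
  have u2' : c0 * S ≤ ((((Icc 1 H).filter (fun n => max 1 (c0 * l n) ≤ r n)).card : ℕ) : ℝ) := u2
  show c * S ≤ ((((Icc 1 H).filter
    (fun n => c * max 1 (l n) ≤ r n ∧ r n ≤ K * max 1 (l n))).card : ℕ) : ℝ)
  linarith

end Pool.Agent.LLW
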