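import Pool.Agent.LLW.Defs

/-!
# LLW/Cmp: transfer from the modulus `D` to `Q = D E` (3c of LL81.md): the count

Plan for `trn1`: exchange the sums; for `a ∈ Vs g A D b` and `β ≡ b [MOD D]`: `gcd (gβ - a, D E) = 1 ↔ gcd (gβ - a, E) = 1`
(`Int.gcd` with a product of coprime numbers), and for `a ∉ Vs g A D b` the term is `0`.  The number of `β < D E`,
`β ≡ b [MOD D]` with `gcd (g β - a, E) = 1` is `φ(E)`: `β ↦ β % E` is a bijection onto `range E` (`Nat.chineseRemainder`),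
and `x ↦ g x - a` permutes the classes modulo `E` (`Nat.Coprime g E`); compare `REC.count_one`.
-/

set_option autoImplicit false

open Finset Pool.Agent.REC

namespace Pool.Agent.LLW

private theorem cmp_gcd_congr {x y : ℤ} {Q : ℕ} (h : x ≡ y [ZMOD Q]) :
    Int.gcd x Q = Int.gcd y Q := by
  have h1 : x % (Q : ℤ) = y % (Q : ℤ) := h
  rw [← Int.gcd_emod x, h1, Int.gcd_emod]

private theorem cmp_lin_congr {g Q m n a : ℕ} (h : m ≡ n [MOD Q]) :
    ((g : ℤ) * m - a) ≡ ((g : ℤ) * n - a) [ZMOD Q] := by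
  have h2 : (m : ℤ) ≡ n [ZMOD Q] := (Int.natCast_modEq_iff).2 h
  exact (h2.mul_left g).sub_right a

private theorem cmp_gcd_mul (x : ℤ) (D E : ℕ) :
    Int.gcd x ((D * E : ℕ) : ℤ) = 1 ↔ Int.gcd x D = 1 ∧ Int.gcd x E = 1 := by
  have h : ∀ n : ℕ, Int.gcd x (n : ℤ) = Nat.gcd x.natAbs n := fun n => by
    simp [Int.gcd]
  rw [h, h, h]
  exact Nat.coprime_mul_iff_right

/-- `Vs` only depends on the class modulo `Q` -/
theorem Vs_congr {g Q m n : ℕ} (A : Finset ℕ) (h : m ≡ n [MOD Q]) : Vs g A Q m = Vs g A Q n := by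
  unfold Vs
  refine Finset.filter_congr fun a _ => ?_
  rw [cmp_gcd_congr (cmp_lin_congr h)]

theorem Vs_mul_subset {g D E n : ℕ} (A : Finset ℕ) : Vs g A (D * E) n ⊆ Vs g A D n := by
  intro a ha
  obtain ⟨h1, h2⟩ := mem_filter.1 ha
  exact mem_filter.2 ⟨h1, ((cmp_gcd_mul _ D E).1 h2).1⟩

private theorem cmp_lin_count {g E : ℕ} (hg : Nat.Coprime g E) (hE : 0 < E) (a : ℕ) :
    ((range E).filter (fun x : ℕ => Int.gcd ((g : ℤ) * x - a) E = 1)).card = E.totient := by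
  have hEz : (0 : ℤ) < (E : ℤ) := by exact_mod_cast hE
  set u : ℤ := Nat.gcdA g E with hu
  have hgu : (g : ℤ) * u ≡ 1 [ZMOD E] := by
    have h1 := Nat.gcd_eq_gcd_ab g E
    rw [hg] at h1
    have h2 : (g : ℤ) * u - 1 = (E : ℤ) * (-(Nat.gcdB g E)) := by
      rw [hu]
      push_cast at h1
      linarith
    have h3 : (1 : ℤ) ≡ (g : ℤ) * u [ZMOD E] := (Int.modEq_iff_dvd).2 ⟨_, h2⟩
    exact h3.symm
  have htn : ∀ z : ℤ, (((z % (E : ℤ)).toNat : ℕ) : ℤ) = z % (E : ℤ) := fun z =>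
    Int.toNat_of_nonneg (Int.emod_nonneg z hEz.ne')
  have hlt : ∀ z : ℤ, (z % (E : ℤ)).toNat < E := fun z => by
    have h1 := Int.emod_lt_of_pos z hEz
    have h2 := htn z
    omega
  have hmod : ∀ z : ℤ, (((z % (E : ℤ)).toNat : ℕ) : ℤ) ≡ z [ZMOD E] := fun z => by
    rw [htn z]
    exact Int.mod_modEq z _
  rw [Nat.totient_eq_card_coprime]
  refine Finset.card_bij' (fun x _ => (((g : ℤ) * x - a) % (E : ℤ)).toNat)
    (fun y _ => ((u * (y + a)) % (E : ℤ)).toNat) ?_ ?_ ?_ ?_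
  · intro x hx
    obtain ⟨-, h2⟩ := mem_filter.1 hx
    refine mem_filter.2 ⟨mem_range.2 (hlt _), ?_⟩
    have h3 := cmp_gcd_congr (hmod ((g : ℤ) * x - a))
    rw [h2] at h3
    have h4 : Int.gcd (((((g : ℤ) * x - a) % (E : ℤ)).toNat : ℕ) : ℤ) (E : ℤ) =
        Nat.gcd ((((g : ℤ) * x - a) % (E : ℤ)).toNat) E := Int.gcd_natCast_natCast _ _
    rw [h4] at h3
    exact (Nat.coprime_comm).1 h3
  · intro y hy
    obtain ⟨-, h2⟩ := mem_filter.1 hy
    refine mem_filter.2 ⟨mem_range.2 (hlt _), ?_⟩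
    have h3 : (g : ℤ) * (((u * (y + a)) % (E : ℤ)).toNat : ℕ) - a ≡ (y : ℤ) [ZMOD E] := by
      have h4 : (g : ℤ) * (((u * (y + a)) % (E : ℤ)).toNat : ℕ) - a ≡
          (g : ℤ) * (u * (y + a)) - a [ZMOD E] := ((hmod _).mul_left _).sub_right _
      have h5 : (g : ℤ) * (u * (y + a)) - a ≡ 1 * (y + a) - a [ZMOD E] := by
        have h6 := (hgu.mul_right ((y : ℤ) + a)).sub_right (a : ℤ)
        have h7 : (g : ℤ) * (u * (y + a)) = (g : ℤ) * u * (y + a) := by ring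
        rw [h7]
        exact h6
      have h8 : (1 : ℤ) * (y + a) - a = y := by ring
      rw [h8] at h5
      exact h4.trans h5
    rw [cmp_gcd_congr h3]
    have h4 : Int.gcd (y : ℤ) (E : ℤ) = Nat.gcd y E := Int.gcd_natCast_natCast _ _
    rw [h4]
    exact (Nat.coprime_comm).1 h2
  · intro x hx
    obtain ⟨h1, -⟩ := mem_filter.1 hx
    have h1' := mem_range.1 h1
    have h3 : u * ((((((g : ℤ) * x - a) % (E : ℤ)).toNat : ℕ) : ℤ) + a) ≡ (x : ℤ) [ZMOD E] := by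
      have h4 : u * ((((((g : ℤ) * x - a) % (E : ℤ)).toNat : ℕ) : ℤ) + a) ≡
          u * (((g : ℤ) * x - a) + a) [ZMOD E] := ((hmod _).add_right _).mul_left _
      have h5 : u * (((g : ℤ) * x - a) + a) = (g : ℤ) * u * x := by ring
      rw [h5] at h4
      have h6 := hgu.mul_right (x : ℤ)
      rw [one_mul] at h6
      exact h4.trans h6
    have h7 : (u * ((((((g : ℤ) * x - a) % (E : ℤ)).toNat : ℕ) : ℤ) + a)) % (E : ℤ) = (x : ℤ) := by
      have h8 : (u * ((((((g : ℤ) * x - a) % (E : ℤ)).toNat : ℕ) : ℤ) + a)) % (E : ℤ) =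
          (x : ℤ) % (E : ℤ) := h3
      rw [h8]
      exact Int.emod_eq_of_lt (by positivity) (by exact_mod_cast h1')
    show ((u * ((((((g : ℤ) * x - a) % (E : ℤ)).toNat : ℕ) : ℤ) + a)) % (E : ℤ)).toNat = x
    rw [h7]
    exact Int.toNat_natCast x
  · intro y hy
    obtain ⟨h1, -⟩ := mem_filter.1 hy
    have h1' := mem_range.1 h1
    have h3 : (g : ℤ) * ((((u * (y + a)) % (E : ℤ)).toNat : ℕ) : ℤ) - a ≡ (y : ℤ) [ZMOD E] := by
      have h4 : (g : ℤ) * ((((u * (y + a)) % (E : ℤ)).toNat : ℕ) : ℤ) - a ≡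
          (g : ℤ) * (u * (y + a)) - a [ZMOD E] := ((hmod _).mul_left _).sub_right _
      have h5 : (g : ℤ) * (u * (y + a)) - a ≡ 1 * (y + a) - a [ZMOD E] := by
        have h6 := (hgu.mul_right ((y : ℤ) + a)).sub_right (a : ℤ)
        have h7 : (g : ℤ) * (u * (y + a)) = (g : ℤ) * u * (y + a) := by ring
        rw [h7]
        exact h6
      have h8 : (1 : ℤ) * (y + a) - a = y := by ring
      rw [h8] at h5
      exact h4.trans h5
    have h7 : ((g : ℤ) * ((((u * (y + a)) % (E : ℤ)).toNat : ℕ) : ℤ) - a) % (E : ℤ) = (y : ℤ) := by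
      have h8 : ((g : ℤ) * ((((u * (y + a)) % (E : ℤ)).toNat : ℕ) : ℤ) - a) % (E : ℤ) =
          (y : ℤ) % (E : ℤ) := h3
      rw [h8]
      exact Int.emod_eq_of_lt (by positivity) (by exact_mod_cast h1')
    show (((g : ℤ) * ((((u * (y + a)) % (E : ℤ)).toNat : ℕ) : ℤ) - a) % (E : ℤ)).toNat = y
    rw [h7]
    exact Int.toNat_natCast y

private theorem cmp_crt_count {g D E : ℕ} (hg : Nat.Coprime g E) (hD : 0 < D) (hE : 0 < E)
    (hDE : Nat.Coprime D E) (a b : ℕ) :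
    (((range (D * E)).filter (fun β => β ≡ b [MOD D])).filter
      (fun β : ℕ => Int.gcd ((g : ℤ) * β - a) E = 1)).card = E.totient := by
  rw [← cmp_lin_count hg hE a]
  refine Finset.card_bij' (fun β _ => β % E) (fun x _ => (Nat.chineseRemainder hDE b x : ℕ))
    ?_ ?_ ?_ ?_
  · intro β hβ
    obtain ⟨-, h2⟩ := mem_filter.1 hβ
    refine mem_filter.2 ⟨mem_range.2 (Nat.mod_lt _ hE), ?_⟩
    have h3 : β % E ≡ β [MOD E] := Nat.mod_modEq β E
    rw [cmp_gcd_congr (cmp_lin_congr (g := g) (a := a) h3)]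
    exact h2
  · intro x hx
    obtain ⟨h1, h2⟩ := mem_filter.1 hx
    obtain ⟨h3, h4⟩ := (Nat.chineseRemainder hDE b x).2
    refine mem_filter.2 ⟨mem_filter.2 ⟨mem_range.2 ?_, h3⟩, ?_⟩
    · exact Nat.chineseRemainder_lt_mul hDE b x hD.ne' hE.ne'
    · rw [cmp_gcd_congr (cmp_lin_congr (g := g) (a := a) h4)]
      exact h2
  · intro β hβ
    obtain ⟨h1, -⟩ := mem_filter.1 hβ
    obtain ⟨h1, h2⟩ := mem_filter.1 h1
    obtain ⟨h3, h4⟩ := (Nat.chineseRemainder hDE b (β % E)).2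
    have h5 : (Nat.chineseRemainder hDE b (β % E) : ℕ) ≡ β [MOD D] := h3.trans h2.symm
    have h6 : (Nat.chineseRemainder hDE b (β % E) : ℕ) ≡ β [MOD E] :=
      h4.trans (Nat.mod_modEq β E)
    have h7 := (Nat.modEq_and_modEq_iff_modEq_mul hDE).1 ⟨h5, h6⟩
    exact h7.eq_of_lt_of_lt (Nat.chineseRemainder_lt_mul hDE b _ hD.ne' hE.ne')
      (mem_range.1 h1)
  · intro x hx
    obtain ⟨h1, -⟩ := mem_filter.1 hx
    obtain ⟨-, h4⟩ := (Nat.chineseRemainder hDE b x).2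
    have h5 : (Nat.chineseRemainder hDE b x : ℕ) % E = x % E := h4
    show (Nat.chineseRemainder hDE b x : ℕ) % E = x
    rw [h5]
    exact Nat.mod_eq_of_lt (mem_range.1 h1)

theorem trn1 {g D E : ℕ} (hg : Nat.Coprime g E) (hD : 0 < D) (hE : 0 < E)
    (hDE : Nat.Coprime D E) (A : Finset ℕ) (b : ℕ) :
    ∑ β ∈ (range (D * E)).filter (fun β => β ≡ b [MOD D]), (Vs g A (D * E) β).card =
      (Vs g A D b).card * E.totient := by
  have h1 : ∀ β ∈ (range (D * E)).filter (fun β => β ≡ b [MOD D]),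
      (Vs g A (D * E) β).card = ∑ a ∈ Vs g A D b,
        (if Int.gcd ((g : ℤ) * β - a) E = 1 then 1 else 0) := by
    intro β hβ
    have h2 := (mem_filter.1 hβ).2
    rw [← Finset.card_filter]
    congr 1
    ext a
    have h3 : Int.gcd ((g : ℤ) * β - a) D = Int.gcd ((g : ℤ) * b - a) D :=
      cmp_gcd_congr (cmp_lin_congr h2)
    unfold Vs
    simp only [mem_filter]
    rw [cmp_gcd_mul, h3]
    tauto
  rw [Finset.sum_congr rfl h1, Finset.sum_comm, Finset.card_eq_sum_ones, Finset.sum_mul]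
  refine Finset.sum_congr rfl fun a _ => ?_
  rw [← Finset.card_filter, cmp_crt_count hg hD hE hDE a b, one_mul]

end Pool.Agent.LLW
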