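import Pool.Agent.LLW.Cmp

/-!
# LLW/CmpB: transfer from the modulus `D` to `Q = D E` (3c of LL81.md), from `trn1`

Plan.
* `trn2`: reverse Markov: `k(β) := |Vs g A (D E) β| ≤ k° := |Vs g A D b|` (`Vs_mul_subset`, `Vs_congr`), so by `trn1`
  `ρ E k° ≤ φ(E) k° ≤ #{β : k(β) ≥ (ρ/2) k°} k° + E (ρ/2) k°`; there are `E` classes `β < D E`, `β ≡ b [MOD D]`.  (`k° = 0`: all `β` count.)
* `trn3`: the classes `β` modulo `D E` inside the class `b` modulo `D` are disjoint; sum `hcls` over the good `β`;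
  `min 1 (t k(β)) ≥ (ρ/2) min 1 (t k°)`, `max 1 (c (ρ/2) t k°) ≤ max 1 (c t k(β))`.  Then sum over `b < D`;
  `#{n ∈ Icc 1 N : n ≡ b [MOD D]} ≤ N/D + 1 ≤ C X/D` and `Vs g A D n = Vs g A D (n % D)`.
-/

set_option autoImplicit false

open Finset Pool.Agent.REC

namespace Pool.Agent.LLW

private theorem card_cls {D E : ℕ} (hD : 0 < D) (b : ℕ) :
    ((range (D * E)).filter (fun β => β ≡ b [MOD D])).card = E := by
  rw [← Nat.count_eq_card_filter_range, Nat.count_modEq_card _ hD, Nat.mul_div_cancel_left _ hD,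
    Nat.mul_mod_right]
  simp

private theorem card_cls_Icc {D : ℕ} (hD : 0 < D) (N b : ℕ) :
    (((Icc 1 N).filter (fun n => n ≡ b [MOD D])).card : ℝ) ≤ (N : ℝ) / D + 1 := by
  have h1 : ((Icc 1 N).filter (fun n => n ≡ b [MOD D])).card ≤ (range (N / D + 1)).card := by
    refine card_le_card_of_injOn (fun n => n / D) ?_ ?_
    · intro n hn
      have hn' := hn
      simp only [coe_filter, mem_Icc, Set.mem_ofPred_eq] at hn'
      simp only [coe_range, Set.mem_Iio]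
      exact Nat.lt_succ_of_le (Nat.div_le_div_right hn'.1.2)
    · intro x hx y hy hxy
      simp only [coe_filter, mem_Icc, Set.mem_ofPred_eq] at hx hy
      have h2 : x % D = y % D := hx.2.trans hy.2.symm
      have h3 : x / D = y / D := hxy
      rw [← Nat.div_add_mod x D, ← Nat.div_add_mod y D, h2, h3]
  rw [card_range] at h1
  have h2 : (((Icc 1 N).filter (fun n => n ≡ b [MOD D])).card : ℝ) ≤ ((N / D + 1 : ℕ) : ℝ) := by
    exact_mod_cast h1
  refine h2.trans ?_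
  push_cast
  have h3 : ((N / D : ℕ) : ℝ) ≤ (N : ℝ) / D := Nat.cast_div_le
  linarith

theorem trn2 {g D E : ℕ} {ρ : ℝ} (hρ : 0 < ρ) (hρ1 : ρ ≤ 1) (hφ : ρ * (E : ℝ) ≤ E.totient)
    (hg : Nat.Coprime g E) (hD : 0 < D) (hE : 0 < E)
    (hDE : Nat.Coprime D E) (A : Finset ℕ) (b : ℕ) :
    ρ / 2 * E ≤ (((range (D * E)).filter (fun β => β ≡ b [MOD D] ∧
      ρ / 2 * ((Vs g A D b).card : ℝ) ≤ (Vs g A (D * E) β).card)).card : ℝ) := by
  set F := (range (D * E)).filter (fun β => β ≡ b [MOD D]) with hF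
  set k := (Vs g A D b).card with hk
  have hsplit : (range (D * E)).filter (fun β => β ≡ b [MOD D] ∧
      ρ / 2 * (k : ℝ) ≤ (Vs g A (D * E) β).card) =
      F.filter (fun β => ρ / 2 * (k : ℝ) ≤ (Vs g A (D * E) β).card) := by
    rw [hF, filter_filter]
  rw [hsplit]
  have hFc : (F.card : ℝ) = E := by rw [hF, card_cls hD b]
  have hE' : (0 : ℝ) < E := by exact_mod_cast hE
  have hle : ∀ β ∈ F, (Vs g A (D * E) β).card ≤ k := by
    intro β hβ
    have h1 : β ≡ b [MOD D] := (mem_filter.mp hβ).2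
    rw [hk, ← Vs_congr A h1]
    exact card_le_card (Vs_mul_subset A)
  have hsum : ∑ β ∈ F, ((Vs g A (D * E) β).card : ℝ) = k * E.totient := by
    have h1 := trn1 hg hD hE hDE A b
    rw [← hF, ← hk] at h1
    exact_mod_cast h1
  rcases Nat.eq_zero_or_pos k with h0 | h0
  · have h1 : F.filter (fun β => ρ / 2 * (k : ℝ) ≤ (Vs g A (D * E) β).card) = F := by
      refine filter_true_of_mem fun β _ => ?_
      rw [h0]
      simp
    rw [h1, hFc]
    nlinarith
  · have hk' : (0 : ℝ) < k := by exact_mod_cast h0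
    have h1 := sum_filter_add_sum_filter_not F
      (fun β => ρ / 2 * (k : ℝ) ≤ (Vs g A (D * E) β).card)
      (fun β => ((Vs g A (D * E) β).card : ℝ))
    have h2 : ∑ β ∈ F.filter (fun β => ρ / 2 * (k : ℝ) ≤ (Vs g A (D * E) β).card),
        ((Vs g A (D * E) β).card : ℝ) ≤
        (F.filter (fun β => ρ / 2 * (k : ℝ) ≤ (Vs g A (D * E) β).card)).card * (k : ℝ) := by
      rw [← nsmul_eq_mul]
      refine sum_le_card_nsmul _ _ _ fun β hβ => ?_
      exact_mod_cast hle β (mem_filter.mp hβ).1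
    have h3 : ∑ β ∈ F.filter (fun β => ¬ρ / 2 * (k : ℝ) ≤ (Vs g A (D * E) β).card),
        ((Vs g A (D * E) β).card : ℝ) ≤ E * (ρ / 2 * (k : ℝ)) := by
      refine (sum_le_card_nsmul _ _ (ρ / 2 * (k : ℝ)) fun β hβ =>
        (not_le.mp (mem_filter.mp hβ).2).le).trans ?_
      rw [nsmul_eq_mul, ← hFc]
      refine mul_le_mul_of_nonneg_right ?_ (by positivity)
      exact_mod_cast card_le_card (filter_subset _ _)
    rw [hsum] at h1
    have h4 : ρ * (E : ℝ) * k ≤ k * E.totient := by nlinarith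
    have h5 : (ρ / 2 * E) * (k : ℝ) ≤
        ((F.filter (fun β => ρ / 2 * (k : ℝ) ≤ (Vs g A (D * E) β).card)).card : ℝ) * k := by
      nlinarith
    exact le_of_mul_le_mul_right h5 hk'

private theorem trn3a {g D E N : ℕ} {ρ c t X : ℝ} (hρ : 0 < ρ) (hρ1 : ρ ≤ 1)
    (hφ : ρ * (E : ℝ) ≤ E.totient) (hg : Nat.Coprime g E) (hD : 0 < D) (hE : 0 < E)
    (hDE : Nat.Coprime D E) (A : Finset ℕ) (r : ℕ → ℕ) (hc : 0 < c) (ht : 0 ≤ t) (hX : 0 < X)
    (hcls : ∀ β : ℕ, c * (X / (D * E)) * min 1 (t * (Vs g A (D * E) β).card) ≤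
      (((Icc 1 N).filter (fun n => n ≡ β [MOD D * E] ∧
        max 1 (c * (t * (Vs g A (D * E) β).card)) ≤ (r n : ℝ))).card : ℝ)) (b : ℕ) :
    c * (ρ / 2) ^ 2 * (X / D) * min 1 (t * ((Vs g A D b).card : ℝ)) ≤
      ((((Icc 1 N).filter (fun n =>
        max 1 (c * (ρ / 2) * (t * (Vs g A D n).card)) ≤ (r n : ℝ))).filter
          (fun n => n ≡ b [MOD D])).card : ℝ) := by
  have hD' : (0 : ℝ) < D := by exact_mod_cast hD
  have hE' : (0 : ℝ) < E := by exact_mod_cast hE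
  set k := (Vs g A D b).card with hk
  set G := (range (D * E)).filter (fun β => β ≡ b [MOD D] ∧
      ρ / 2 * ((Vs g A D b).card : ℝ) ≤ (Vs g A (D * E) β).card) with hG
  have hGc : ρ / 2 * E ≤ (G.card : ℝ) := trn2 hρ hρ1 hφ hg hD hE hDE A b
  set S := ((Icc 1 N).filter (fun n =>
        max 1 (c * (ρ / 2) * (t * (Vs g A D n).card)) ≤ (r n : ℝ))).filter
          (fun n => n ≡ b [MOD D]) with hS
  have hmin0 : 0 ≤ min 1 (t * (k : ℝ)) := le_min zero_le_one (by positivity)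
  -- the sets for the good classes
  have hmem : ∀ β ∈ G, ∀ n ∈ (Icc 1 N).filter (fun n => n ≡ β [MOD D * E] ∧
        max 1 (c * (t * (Vs g A (D * E) β).card)) ≤ (r n : ℝ)), n ∈ S ∧ n % (D * E) = β := by
    intro β hβ n hn
    rw [hG, mem_filter, mem_range] at hβ
    rw [mem_filter] at hn
    obtain ⟨hβ1, hβ2, hβ3⟩ := hβ
    obtain ⟨hn1, hn2, hn3⟩ := hn
    have h1 : n ≡ b [MOD D] := (hn2.of_mul_right E).trans hβ2
    have h2 : (Vs g A D n).card = k := by rw [Vs_congr A h1]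
    refine ⟨?_, ?_⟩
    · rw [hS, mem_filter, mem_filter]
      refine ⟨⟨hn1, ?_⟩, h1⟩
      refine le_trans ?_ hn3
      refine max_le_max le_rfl ?_
      rw [h2]
      have h3 : ρ / 2 * (t * (k : ℝ)) ≤ t * ((Vs g A (D * E) β).card : ℝ) := by nlinarith
      have h4 := mul_le_mul_of_nonneg_left h3 hc.le
      linarith [h4]
    · have h3 : n % (D * E) = β % (D * E) := hn2
      rw [h3, Nat.mod_eq_of_lt hβ1]
  have hdis : ∀ x ∈ G, ∀ y ∈ G, x ≠ y → Disjoint
      ((Icc 1 N).filter (fun n => n ≡ x [MOD D * E] ∧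
        max 1 (c * (t * (Vs g A (D * E) x).card)) ≤ (r n : ℝ)))
      ((Icc 1 N).filter (fun n => n ≡ y [MOD D * E] ∧
        max 1 (c * (t * (Vs g A (D * E) y).card)) ≤ (r n : ℝ))) := by
    intro x hx y hy hxy
    rw [disjoint_left]
    intro n hn hn'
    exact hxy ((hmem x hx n hn).2.symm.trans (hmem y hy n hn').2)
  have h1 : ∑ β ∈ G, (((Icc 1 N).filter (fun n => n ≡ β [MOD D * E] ∧
        max 1 (c * (t * (Vs g A (D * E) β).card)) ≤ (r n : ℝ))).card : ℝ) ≤ (S.card : ℝ) := by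
    rw [← Nat.cast_sum, ← card_biUnion hdis]
    exact_mod_cast card_le_card (fun n hn => by
      rw [mem_biUnion] at hn
      obtain ⟨β, hβ, hn⟩ := hn
      exact (hmem β hβ n hn).1)
  refine le_trans ?_ h1
  have h2 : ∀ β ∈ G, c * (X / (D * E)) * (ρ / 2 * min 1 (t * (k : ℝ))) ≤
      (((Icc 1 N).filter (fun n => n ≡ β [MOD D * E] ∧
        max 1 (c * (t * (Vs g A (D * E) β).card)) ≤ (r n : ℝ))).card : ℝ) := by
    intro β hβ
    refine le_trans ?_ (hcls β)
    rw [hG, mem_filter] at hβ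
    obtain ⟨-, -, hβ3⟩ := hβ
    refine mul_le_mul_of_nonneg_left ?_ (by positivity)
    refine le_min ?_ ?_
    · have h3 : min 1 (t * (k : ℝ)) ≤ 1 := min_le_left _ _
      nlinarith
    · have h3 : min 1 (t * (k : ℝ)) ≤ t * (k : ℝ) := min_le_right _ _
      have h4 : ρ / 2 * (t * (k : ℝ)) ≤ t * ((Vs g A (D * E) β).card : ℝ) := by nlinarith
      nlinarith
  have h3 := card_nsmul_le_sum G _ _ h2
  refine le_trans ?_ h3
  rw [nsmul_eq_mul]
  have h4 : c * (ρ / 2) ^ 2 * (X / D) * min 1 (t * (k : ℝ)) =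
      (ρ / 2 * E) * (c * (X / (D * E)) * (ρ / 2 * min 1 (t * (k : ℝ)))) := by
    field_simp
  rw [h4]
  exact mul_le_mul_of_nonneg_right hGc (by positivity)

theorem trn3 {g D E N : ℕ} {ρ c t X C : ℝ} (hρ : 0 < ρ) (hρ1 : ρ ≤ 1)
    (hφ : ρ * (E : ℝ) ≤ E.totient) (hg : Nat.Coprime g E) (hD : 0 < D) (hE : 0 < E)
    (hDE : Nat.Coprime D E) (A : Finset ℕ) (r : ℕ → ℕ) (hc : 0 < c) (ht : 0 ≤ t) (hX : 0 < X)
    (hC : 0 < C)
    (hcls : ∀ β : ℕ, c * (X / (D * E)) * min 1 (t * (Vs g A (D * E) β).card) ≤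
      (((Icc 1 N).filter (fun n => n ≡ β [MOD D * E] ∧
        max 1 (c * (t * (Vs g A (D * E) β).card)) ≤ (r n : ℝ))).card : ℝ))
    (hN : (N : ℝ) / D + 1 ≤ C * (X / D)) :
    c * (ρ / 2) ^ 2 / C * ∑ n ∈ Icc 1 N, min 1 (t * ((Vs g A D n).card : ℝ)) ≤
      (((Icc 1 N).filter (fun n =>
        max 1 (c * (ρ / 2) * (t * (Vs g A D n).card)) ≤ (r n : ℝ))).card : ℝ) := by
  have hD' : (0 : ℝ) < D := by exact_mod_cast hD
  have hmaps : ∀ n : ℕ, n % D ∈ range D := fun n => mem_range.mpr (Nat.mod_lt n hD)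
  have h1 : (((Icc 1 N).filter (fun n =>
        max 1 (c * (ρ / 2) * (t * (Vs g A D n).card)) ≤ (r n : ℝ))).card : ℝ) =
      ∑ b ∈ range D, ((((Icc 1 N).filter (fun n =>
        max 1 (c * (ρ / 2) * (t * (Vs g A D n).card)) ≤ (r n : ℝ))).filter
          (fun n => n ≡ b [MOD D])).card : ℝ) := by
    rw [card_eq_sum_card_fiberwise (f := fun n => n % D) (t := range D) (fun n _ => hmaps n),
      Nat.cast_sum]
    refine sum_congr rfl fun b hb => ?_
    congr 2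
    refine filter_congr fun n _ => ?_
    rw [Nat.ModEq, Nat.mod_eq_of_lt (mem_range.mp hb)]
  have h2 : ∑ n ∈ Icc 1 N, min 1 (t * ((Vs g A D n).card : ℝ)) =
      ∑ b ∈ range D, ∑ n ∈ (Icc 1 N).filter (fun n => n % D = b),
        min 1 (t * ((Vs g A D n).card : ℝ)) :=
    (sum_fiberwise_of_maps_to (fun n _ => hmaps n) _).symm
  have h3 : ∀ b ∈ range D, ∑ n ∈ (Icc 1 N).filter (fun n => n % D = b),
        min 1 (t * ((Vs g A D n).card : ℝ)) ≤
      C * (X / D) * min 1 (t * ((Vs g A D b).card : ℝ)) := by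
    intro b hb
    have h4 : (Icc 1 N).filter (fun n => n % D = b) = (Icc 1 N).filter (fun n => n ≡ b [MOD D]) := by
      refine filter_congr fun n _ => ?_
      rw [Nat.ModEq, Nat.mod_eq_of_lt (mem_range.mp hb)]
    rw [h4]
    have h5 : ∑ n ∈ (Icc 1 N).filter (fun n => n ≡ b [MOD D]),
        min 1 (t * ((Vs g A D n).card : ℝ)) =
        ((Icc 1 N).filter (fun n => n ≡ b [MOD D])).card • min 1 (t * ((Vs g A D b).card : ℝ)) := by
      refine sum_eq_card_nsmul fun n hn => ?_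
      rw [Vs_congr A (mem_filter.mp hn).2]
    rw [h5, nsmul_eq_mul]
    refine mul_le_mul_of_nonneg_right ((card_cls_Icc hD N b).trans hN) ?_
    exact le_min zero_le_one (by positivity)
  rw [h1, h2]
  have h6 : c * (ρ / 2) ^ 2 / C * ∑ b ∈ range D, ∑ n ∈ (Icc 1 N).filter (fun n => n % D = b),
        min 1 (t * ((Vs g A D n).card : ℝ)) ≤
      c * (ρ / 2) ^ 2 / C * ∑ b ∈ range D, C * (X / D) * min 1 (t * ((Vs g A D b).card : ℝ)) :=
    mul_le_mul_of_nonneg_left (sum_le_sum h3) (by positivity)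
  refine h6.trans ?_
  rw [mul_sum]
  refine sum_le_sum fun b _ => ?_
  refine le_trans (le_of_eq ?_) (trn3a hρ hρ1 hφ hg hD hE hDE A r hc ht hX hcls b)
  field_simp

end Pool.Agent.LLW
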