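import Pool.Agent.REC.Crt
import Pool.Agent.AT.Par

/-!
# LLW: the local law for Goldbach numbers with a thin set of first summands (plan /team-store/LL81.md)

`g ∈ {1, 2}`, `A` a finite set of naturals, numbers `g n - a`; `pmod z` = product of the primes `≤ z`.
-/

set_option autoImplicit false

open Finset Pool.Agent.REC

namespace Pool.Agent.LLW

/-- the `a ∈ A` with `g n - a` prime to `Q` -/
def Vs (g : ℕ) (A : Finset ℕ) (Q n : ℕ) : Finset ℕ :=
  A.filter (fun a => Int.gcd ((g : ℤ) * n - a) Q = 1)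

open Classical in
/-- the `a ∈ A` with `g n - a` a prime `> z` -/
noncomputable def Ws (g z : ℕ) (A : Finset ℕ) (n : ℕ) : Finset ℕ :=
  A.filter (fun a => ∃ p : ℕ, p.Prime ∧ z < p ∧ a + p = g * n)

/-- the `n ≡ b` modulo `Q` in `(y, y + H]` -/
def Iv (y H Q b : ℕ) : Finset ℕ := (Ioc y (y + H)).filter (fun n => n ≡ b [MOD Q])

/-- `k log log H / log H` -/
noncomputable def lm (H k : ℕ) : ℝ := k * Real.log (Real.log H) / Real.log H

end Pool.Agent.LLW
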