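import Pool.Agent.ES39.MainX
import Pool.Agent.ES39.Size
import Pool.Agent.ES39.Lam

set_option autoImplicit false

namespace Pool.Agent.LLW.Exc

open Finset Filter

/-! A copy of the hand-in ExceptionalSet of MP_0ec542_nt (helper39), used for the corollaries in LocalLaw. -/

/-- `TwinIndex q`: `q` is prime and `p_{q+2} + 2` is prime, where `p_k` is the `k`-th prime
(`p_1 = 2`); note that `Nat.nth Nat.Prime (k - 1)` is `p_k`. -/
def TwinIndex (q : ℕ) : Prop := q.Prime ∧ (Nat.nth Nat.Prime (q + 1) + 2).Prime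

/-- `Rough z r`: `r` is a prime, or it has no prime factor `≤ z` (every prime factor of `r` is
greater than `z` or equal to `r`) -/
def Rough (z : ℝ) (r : ℕ) : Prop := ∀ p : ℕ, p.Prime → p ∣ r → p = r ∨ z < p

/-- `Witness z n q`: the prime `q` witnesses the assertion of Q1 at `n`, with a relaxation:
`p_{q+2} + 2` is prime, and `2 n - q` is a prime or has no prime factor `≤ z`. -/
def Witness (z : ℝ) (n q : ℕ) : Prop := TwinIndex q ∧ ∃ r : ℕ, Rough z r ∧ q + r = 2 * n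

open Classical in
/-- the number of primes `q ≤ R` with `p_{q+2} + 2` prime and `gcd (2 b - q, W) = 1` -/
noncomputable def T (W b R : ℕ) : ℕ :=
  ((Finset.Icc 1 R).filter (fun q => TwinIndex q ∧ Int.gcd (2 * b - q) W = 1)).card

open Classical in
/-- the number of `n ≥ 3` in `(y, y + H]`, `n ≡ b mod W`, which have no witness `q ≤ R` -/
noncomputable def unwitnessed (W b : ℕ) (z : ℝ) (y H R : ℕ) : ℕ :=
  ((Finset.Ioc y (y + H)).filter
    (fun n => 3 ≤ n ∧ n ≡ b [MOD W] ∧ ∀ q ≤ R, ¬ Witness z n q)).card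

/-- the number of `a ∈ A` with `1 ≤ a ≤ x` and `gcd (b - a, W) = 1` -/
noncomputable def K (A : Set ℕ) (W b x : ℕ) : ℕ :=
  (A ∩ {a : ℕ | 1 ≤ a ∧ a ≤ x ∧ Int.gcd (b - a) W = 1}).ncard

open Classical in
/-- the number of `n ≡ b mod W` in `(y, y + H]` which are not the sum of an element of `A` and a
number prime to `W` which is a prime or has no prime factor `≤ z` -/
noncomputable def notSum (A : Set ℕ) (W b : ℕ) (z : ℝ) (y H : ℕ) : ℕ :=
  ((Finset.Ioc y (y + H)).filter (fun n => n ≡ b [MOD W] ∧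
    ∀ a ∈ A, ∀ r : ℕ, Rough z r → r.Coprime W → a + r ≠ n)).card

theorem rough_prime (z : ℝ) {r : ℕ} (hr : r.Prime) : Rough z r :=
  fun _ hp hd => Or.inl ((Nat.prime_dvd_prime_iff_eq hp hr).1 hd)

/-- a rough number is not killed -/
theorem not_killed {m a r H N : ℕ} {δ : ℝ} (hN : 1 / δ ≤ N) (hδ : 0 < δ)
    (hr : Rough ((H : ℝ) ^ δ) r) (h : a + r = m)
    (hk : ∃ q : ℕ, q.Prime ∧ q ^ N ≤ H ∧ (q : ℤ) ∣ (m : ℤ) - (a : ℤ) ∧
      (q : ℤ) < |(m : ℤ) - (a : ℤ)|) : False := by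
  obtain ⟨q, hq, hqN, hdvd, hlt⟩ := hk
  have he : (m : ℤ) - a = r := by
    rw [← h]; push_cast; ring
  rw [he] at hdvd hlt
  rw [abs_of_nonneg (Int.natCast_nonneg r)] at hlt
  have h4 : q ∣ r := by exact_mod_cast hdvd
  have h6 : q < r := by exact_mod_cast hlt
  rcases hr q hq h4 with h5 | h5
  · omega
  · have h1 : (1 : ℝ) ≤ q := by exact_mod_cast hq.one_lt.le
    have h2 : ((q : ℝ)) ^ N ≤ H := by exact_mod_cast hqN
    have h3 : (q : ℝ) ≤ (H : ℝ) ^ δ := by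
      calc (q : ℝ) = (q : ℝ) ^ (1 / δ * δ) := by
            rw [one_div_mul_cancel hδ.ne', Real.rpow_one]
        _ ≤ (q : ℝ) ^ ((N : ℝ) * δ) :=
            Real.rpow_le_rpow_of_exponent_le h1 (mul_le_mul_of_nonneg_right hN hδ.le)
        _ = ((q : ℝ) ^ N) ^ δ := by
            rw [Real.rpow_mul (by linarith), Real.rpow_natCast]
        _ ≤ (H : ℝ) ^ δ := Real.rpow_le_rpow (by positivity) h2 hδ.le
    linarith

theorem part_one (ε δ : ℝ) (hε : 0 < ε) (hδ : 0 < δ) (W : ℕ) (hW : 1 ≤ W) :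
    ∃ c C : ℝ, 0 < c ∧ 0 < C ∧ ∀ᶠ H : ℕ in atTop, ∀ y : ℕ,
      Real.log y ^ ε ≤ Real.log H → ∀ b R : ℕ,
      (T W b R : ℝ) ≤ c * Real.log H * Real.log (Real.log H) →
      H * Real.exp (-Real.exp (C * (1 + T W b R / Real.log H))) ≤
        unwitnessed W b ((H : ℝ) ^ δ) y H R := by
  classical
  obtain ⟨A0, hA0, hsize⟩ := ES39.size ε hε
  have hW2 : 0 < 2 * W := by omega
  obtain ⟨N, hN⟩ := exists_nat_ge (1 / δ)
  obtain ⟨G, y0, hG, hmain⟩ := ES39.mainX A0 (2 * W) N hA0 hW2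
  have hGr : (1 : ℝ) ≤ G := by exact_mod_cast hG
  have hlog := (Real.tendsto_log_atTop.comp (tendsto_natCast_atTop_atTop (R := ℝ)))
  refine ⟨1 / (2 * (G : ℝ)), 2 * G, by positivity, by positivity, ?_⟩
  filter_upwards [hsize, ES39.lam G hG, eventually_ge_atTop y0, eventually_ge_atTop 6,
    hlog.eventually_ge_atTop 1, hlog.eventually_ge_atTop (W : ℝ), eventually_ge_atTop W,
    ((tendsto_rpow_atTop hδ).comp (tendsto_natCast_atTop_atTop (R := ℝ))).eventually_ge_atTop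
      (W : ℝ)]
    with H hsz hlam hH0 hH6 hH1 hHS hHl hHd y hy b R hT
  simp only [Function.comp] at hH1 hHS hHd
  have hlog0 : 0 < Real.log (H : ℝ) := lt_of_lt_of_le one_pos hH1
  set S : Finset ℕ := (range (W + 1)).filter (fun ℓ => ℓ.Prime ∧ ℓ ∣ W) with hS
  have hScard : S.card ≤ W := by
    have h1 : S ⊆ Icc 1 W := by
      intro ℓ hℓ
      rw [hS, mem_filter, mem_range] at hℓ
      rw [mem_Icc]
      exact ⟨hℓ.2.1.one_lt.le, by omega⟩
    exact (card_le_card h1).trans (by rw [Nat.card_Icc]; omega)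
  set Λ : ℕ := ⌈(T W b R : ℝ) / Real.log H⌉₊ + 1 with hΛ
  set B : Finset ℕ := (Icc 1 (min R (2 * (y + H)))).filter
    (fun q => TwinIndex q ∧ Int.gcd (2 * b - q) W = 1) with hB
  set A : Finset ℤ := (B ∪ S).image (fun q : ℕ => (q : ℤ)) with hA
  have hcard : (A.card : ℝ) ≤ (Λ : ℝ) * Real.log H := by
    have h1 : A.card ≤ B.card + S.card := card_image_le.trans (card_union_le _ _)
    have h2 : B.card ≤ T W b R := by
      unfold T
      apply card_le_card
      intro q hq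
      rw [hB, mem_filter, mem_Icc] at hq
      rw [mem_filter, mem_Icc]
      exact ⟨⟨hq.1.1, hq.1.2.trans (min_le_left _ _)⟩, hq.2⟩
    have h3 : (A.card : ℝ) ≤ T W b R + W := by
      exact_mod_cast h1.trans (Nat.add_le_add h2 hScard)
    have h4 : (T W b R : ℝ) / Real.log H ≤ ⌈(T W b R : ℝ) / Real.log H⌉₊ := Nat.le_ceil _
    rw [div_le_iff₀ hlog0] at h4
    rw [hΛ]
    push_cast
    linarith
  have hAabs : ∀ b ∈ A, |b| ≤ 2 ^ ((Nat.log 2 H + 1) ^ A0) := by
    intro b hb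
    rw [hA, mem_image] at hb
    obtain ⟨q, hq, rfl⟩ := hb
    rw [abs_of_nonneg (Int.natCast_nonneg q)]
    have h1 := hsz y hy
    have h2 : q ≤ 2 * (y + H) := by
      rcases mem_union.1 hq with h | h
      · rw [hB, mem_filter, mem_Icc] at h
        exact h.1.2.trans (min_le_right _ _)
      · rw [hS, mem_filter, mem_range] at h
        omega
    exact_mod_cast h2.trans h1
  have hm := hmain H hH0 (2 * y + H) (2 * b) A Λ (by omega)
    (hlam _ (Nat.cast_nonneg _) hT) hAabs hcard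
  set Gd : Finset ℕ := (Ioc (2 * y + H) (2 * y + H + H)).filter
    (fun n => n ≡ 2 * b [MOD 2 * W] ∧
    ∀ a ∈ A, ∃ q : ℕ, q.Prime ∧ q ^ N ≤ H ∧ (q : ℤ) ∣ (n : ℤ) - a ∧
      (q : ℤ) < |(n : ℤ) - a|) with hGd
  set U : Finset ℕ := (Ioc y (y + H)).filter
    (fun n => 3 ≤ n ∧ n ≡ b [MOD W] ∧ ∀ q ≤ R, ¬ Witness ((H : ℝ) ^ δ) n q) with hU
  have hsub : Gd ⊆ U.image (fun n => 2 * n) := by
    intro m hm
    rw [hGd, mem_filter, mem_Ioc] at hm
    obtain ⟨⟨hm1, hm2⟩, hms, hm3⟩ := hm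
    have hm_even : m % 2 = 0 := by
      have h1 : m ≡ 2 * b [MOD 2] := hms.of_dvd (dvd_mul_right _ _)
      rw [Nat.ModEq] at h1
      omega
    obtain ⟨n, rfl⟩ : ∃ n, m = 2 * n := ⟨m / 2, by omega⟩
    rw [mem_image]
    refine ⟨n, ?_, rfl⟩
    rw [hU, mem_filter, mem_Ioc]
    refine ⟨by omega, by omega, Nat.ModEq.mul_left_cancel' two_ne_zero hms, ?_⟩
    rintro q hq ⟨hqT, r, hr, hqr⟩
    have hq1 : 1 ≤ q := hqT.1.one_lt.le
    by_cases hcl : Int.gcd (2 * b - q) W = 1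
    · have hqA : (q : ℤ) ∈ A := by
        rw [hA, mem_image]
        refine ⟨q, mem_union_left _ ?_, rfl⟩
        rw [hB, mem_filter, mem_Icc]
        exact ⟨⟨hq1, le_min hq (by omega)⟩, hqT, hcl⟩
      exact not_killed hN hδ hr hqr (hm3 q hqA)
    · obtain ⟨ℓ, hℓ, hℓd⟩ := Nat.exists_prime_and_dvd hcl
      have hd1 : (ℓ : ℤ) ∣ 2 * b - q := (Int.natCast_dvd_natCast.2 hℓd).trans (Int.gcd_dvd_left _ _)
      have hd2 : ℓ ∣ W := by
        have h1 : (ℓ : ℤ) ∣ W := (Int.natCast_dvd_natCast.2 hℓd).trans (Int.gcd_dvd_right _ _)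
        exact_mod_cast h1
      have hℓW : ℓ ≤ W := Nat.le_of_dvd (by omega) hd2
      have hd3 : (ℓ : ℤ) ∣ (2 * n : ℕ) - (2 * b : ℕ) := by
        have h1 : 2 * b ≡ 2 * n [MOD ℓ] := (hms.of_dvd (hd2.trans (dvd_mul_left _ _))).symm
        exact (Nat.modEq_iff_dvd).1 h1
      have hd4 : ℓ ∣ r := by
        have h1 : (r : ℤ) = ((2 * n : ℕ) - (2 * b : ℕ)) + (2 * b - q) := by
          have h2 : ((q + r : ℕ) : ℤ) = (2 * n : ℕ) := by rw [hqr]
          push_cast at h2 ⊢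
          linarith
        have h3 : (ℓ : ℤ) ∣ r := by
          rw [h1]
          exact dvd_add hd3 hd1
        exact_mod_cast h3
      have h3 : ℓ = r := by
        rcases hr ℓ hℓ hd4 with h4 | h4
        · exact h4
        · exfalso
          have h6 : (ℓ : ℝ) ≤ (W : ℝ) := by exact_mod_cast hℓW
          linarith
      have hlA : (ℓ : ℤ) ∈ A := by
        rw [hA, mem_image]
        refine ⟨ℓ, mem_union_right _ ?_, rfl⟩
        rw [hS, mem_filter, mem_range]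
        exact ⟨by omega, hℓ, hd2⟩
      exact not_killed hN hδ (rough_prime _ hqT.1) (by omega : ℓ + q = 2 * n) (hm3 ℓ hlA)
  have hle : (Gd.card : ℝ) ≤ U.card := by
    exact_mod_cast (card_le_card hsub).trans card_image_le
  have hUeq : (unwitnessed W b ((H : ℝ) ^ δ) y H R : ℝ) = U.card := rfl
  rw [hUeq]
  exact (ES39.final hG hH1 (Nat.cast_nonneg _) hm (Nat.cast_nonneg _)).trans hle

theorem part_three (ε δ : ℝ) (hε : 0 < ε) (hδ : 0 < δ) (W : ℕ) (hW : 1 ≤ W) :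
    ∃ c C : ℝ, 0 < c ∧ 0 < C ∧ ∀ᶠ H : ℕ in atTop, ∀ y : ℕ,
      Real.log y ^ ε ≤ Real.log H → ∀ (b : ℕ) (A : Set ℕ),
      (K A W b (y + H) : ℝ) ≤ c * Real.log H * Real.log (Real.log H) →
      H * Real.exp (-Real.exp (C * (1 + K A W b (y + H) / Real.log H))) ≤
        notSum A W b ((H : ℝ) ^ δ) y H := by
  classical
  obtain ⟨A0, hA0, hsize⟩ := ES39.size ε hε
  obtain ⟨N, hN⟩ := exists_nat_ge (1 / δ)
  obtain ⟨G, y0, hG, hmain⟩ := ES39.mainX A0 W N hA0 hW
  have hGr : (1 : ℝ) ≤ G := by exact_mod_cast hG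
  have hlog := (Real.tendsto_log_atTop.comp (tendsto_natCast_atTop_atTop (R := ℝ)))
  refine ⟨1 / (2 * (G : ℝ)), 2 * G, by positivity, by positivity, ?_⟩
  filter_upwards [hsize, ES39.lam G hG, eventually_ge_atTop y0, hlog.eventually_ge_atTop 1]
    with H hsz hlam hH0 hH1 y hy b A' hT
  simp only [Function.comp] at hH1
  have hlog0 : 0 < Real.log (H : ℝ) := lt_of_lt_of_le one_pos hH1
  obtain ⟨k, hk⟩ : ∃ k : ℕ, k = K A' W b (y + H) := ⟨_, rfl⟩
  rw [← hk] at hT ⊢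
  set Λ : ℕ := ⌈(k : ℝ) / Real.log H⌉₊ + 1 with hΛ
  set B : Finset ℕ := (range (y + H + 1)).filter
    (fun a => a ∈ A' ∧ Int.gcd (b - a) W = 1) with hB
  set A : Finset ℤ := B.image (fun q : ℕ => (q : ℤ)) with hA
  have hcard : (A.card : ℝ) ≤ (Λ : ℝ) * Real.log H := by
    have h1 : A.card ≤ B.card := card_image_le
    have hfin : (A' ∩ {a : ℕ | 1 ≤ a ∧ a ≤ y + H ∧ Int.gcd (b - a) W = 1}).Finite := by
      apply (Set.finite_Icc 1 (y + H)).subset
      rintro a ⟨-, ha⟩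
      exact ⟨ha.1, ha.2.1⟩
    have h2 : B ⊆ insert 0 hfin.toFinset := by
      intro a ha
      rw [hB, mem_filter, mem_range] at ha
      rw [mem_insert, Set.Finite.mem_toFinset]
      rcases Nat.eq_zero_or_pos a with h0 | h0
      · exact Or.inl h0
      · exact Or.inr ⟨ha.2.1, h0, by omega, ha.2.2⟩
    have h3 : B.card ≤ k + 1 := by
      refine (card_le_card h2).trans ((card_insert_le _ _).trans ?_)
      rw [hk, K, Set.ncard_eq_toFinset_card _ hfin]
    have h5 : (A.card : ℝ) ≤ (k : ℝ) + 1 := by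
      exact_mod_cast h1.trans h3
    have h4 : (k : ℝ) / Real.log H ≤ ⌈(k : ℝ) / Real.log H⌉₊ := Nat.le_ceil _
    rw [div_le_iff₀ hlog0] at h4
    rw [hΛ]
    push_cast
    linarith
  have hAabs : ∀ b ∈ A, |b| ≤ 2 ^ ((Nat.log 2 H + 1) ^ A0) := by
    intro b hb
    rw [hA, mem_image] at hb
    obtain ⟨q, hq, rfl⟩ := hb
    rw [abs_of_nonneg (Int.natCast_nonneg q)]
    have h1 := hsz y hy
    rw [hB, mem_filter, mem_range] at hq
    have h2 : q ≤ 2 * (y + H) := by omega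
    exact_mod_cast h2.trans h1
  have hm := hmain H hH0 y b A Λ (by omega) (hlam _ (Nat.cast_nonneg _) hT) hAabs hcard
  have hsub : (Ioc y (y + H)).filter (fun n => n ≡ b [MOD W] ∧ ∀ a ∈ A, ∃ q : ℕ, q.Prime ∧
      q ^ N ≤ H ∧ (q : ℤ) ∣ (n : ℤ) - a ∧ (q : ℤ) < |(n : ℤ) - a|) ⊆
      (Ioc y (y + H)).filter (fun n => n ≡ b [MOD W] ∧ ∀ a ∈ A', ∀ r : ℕ,
        Rough ((H : ℝ) ^ δ) r → r.Coprime W → a + r ≠ n) := by
    intro n hn
    rw [mem_filter, mem_Ioc] at hn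
    rw [mem_filter, mem_Ioc]
    refine ⟨hn.1, hn.2.1, ?_⟩
    intro a ha r hr hrW har
    have haA : (a : ℤ) ∈ A := by
      rw [hA, mem_image]
      refine ⟨a, ?_, rfl⟩
      rw [hB, mem_filter, mem_range]
      refine ⟨by omega, ha, ?_⟩
      by_contra hcl
      obtain ⟨ℓ, hℓ, hℓd⟩ := Nat.exists_prime_and_dvd hcl
      have hd1 : (ℓ : ℤ) ∣ b - a := (Int.natCast_dvd_natCast.2 hℓd).trans (Int.gcd_dvd_left _ _)
      have hd2 : ℓ ∣ W := by
        have h1 : (ℓ : ℤ) ∣ W := (Int.natCast_dvd_natCast.2 hℓd).trans (Int.gcd_dvd_right _ _)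
        exact_mod_cast h1
      have hd3 : (ℓ : ℤ) ∣ n - b := (Nat.modEq_iff_dvd).1 (hn.2.1.of_dvd hd2).symm
      have hd4 : (ℓ : ℤ) ∣ r := by
        have h1 : (r : ℤ) = (n - b) + (b - a) := by
          have h2 : ((a + r : ℕ) : ℤ) = n := by rw [har]
          push_cast at h2
          linarith
        rw [h1]
        exact dvd_add hd3 hd1
      have hd5 : ℓ ∣ r := by exact_mod_cast hd4
      have hd6 : ℓ ∣ 1 := by
        rw [← hrW]
        exact Nat.dvd_gcd hd5 hd2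
      exact hℓ.one_lt.ne' (Nat.dvd_one.1 hd6)
    exact not_killed hN hδ hr har (hn.2.2 a haA)
  have hle : ((((Ioc y (y + H)).filter (fun n => n ≡ b [MOD W] ∧ ∀ a ∈ A, ∃ q : ℕ, q.Prime ∧
      q ^ N ≤ H ∧ (q : ℤ) ∣ (n : ℤ) - a ∧ (q : ℤ) < |(n : ℤ) - a|)).card : ℕ) : ℝ) ≤
      notSum A' W b ((H : ℝ) ^ δ) y H := by
    unfold notSum
    exact_mod_cast card_le_card hsub
  exact (ES39.final hG hH1 (Nat.cast_nonneg _) hm (Nat.cast_nonneg _)).trans hle

theorem part_four (δ : ℝ) (hδ : 0 < δ) (W : ℕ) (hW : 1 ≤ W) (b : ℕ) (R : ℕ → ℕ)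
    (h : Tendsto (fun x : ℕ => (unwitnessed W b ((x : ℝ) ^ δ) 0 x (R x) : ℝ) / x) atTop
      (nhds 0)) :
    Tendsto (fun x : ℕ => (T W b (R x) : ℝ) / Real.log x) atTop atTop := by
  obtain ⟨c, C, hc, hC, h1⟩ := part_one 1 δ one_pos hδ W hW
  refine ES39.tend hc hC (fun x => (T W b (R x) : ℝ))
    (fun x => (unwitnessed W b ((x : ℝ) ^ δ) 0 x (R x) : ℝ)) ?_ h
  filter_upwards [h1] with x hx
  exact hx 0 (by rw [Nat.cast_zero, Real.log_zero, Real.rpow_one]; exact Real.log_natCast_nonneg x)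
    b (R x)

theorem part_five (δ : ℝ) (hδ : 0 < δ) (W : ℕ) (hW : 1 ≤ W) (b : ℕ) (A : Set ℕ)
    (h : Tendsto (fun x : ℕ => (notSum A W b ((x : ℝ) ^ δ) 0 x : ℝ) / x) atTop (nhds 0)) :
    Tendsto (fun x : ℕ => (K A W b x : ℝ) / Real.log x) atTop atTop := by
  obtain ⟨c, C, hc, hC, h1⟩ := part_three 1 δ one_pos hδ W hW
  refine ES39.tend hc hC (fun x => (K A W b x : ℝ))
    (fun x => (notSum A W b ((x : ℝ) ^ δ) 0 x : ℝ)) ?_ h
  filter_upwards [h1] with x hx
  have h2 := hx 0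
    (by rw [Nat.cast_zero, Real.log_zero, Real.rpow_one]; exact Real.log_natCast_nonneg x) b A
  rw [zero_add] at h2
  exact h2

theorem T_le_primeCounting (W b R : ℕ) : T W b R ≤ R.primeCounting := by
  classical
  unfold T
  rw [Nat.primeCounting, Nat.primeCounting', Nat.count_eq_card_filter_range]
  apply card_le_card
  intro q hq
  rw [mem_filter, mem_Icc] at hq
  rw [mem_filter, mem_range]
  exact ⟨by omega, hq.2.1.1⟩

theorem T_le (W b R : ℕ) : T W b R ≤ R := by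
  classical
  unfold T
  refine (card_filter_le _ _).trans ?_
  rw [Nat.card_Icc]
  omega

theorem chebyshev : ∀ᶠ R : ℕ in atTop, (R.primeCounting : ℝ) ≤ 2 * R / Real.log R := by
  have hε : 0 < 2 - Real.log 4 := by
    have : Real.log 4 = 2 * Real.log 2 := by
      rw [show (4 : ℝ) = 2 ^ 2 by norm_num, Real.log_pow]; norm_num
    have := Real.log_two_lt_d9
    linarith
  have h2 := (tendsto_natCast_atTop_atTop (R := ℝ)).eventually
    (Chebyshev.eventually_primeCounting_le hε)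
  filter_upwards [h2] with R h
  rw [Nat.floor_natCast] at h
  have h7 : (Real.log 4 + (2 - Real.log 4)) * (R : ℝ) / Real.log R = 2 * R / Real.log R := by
    ring
  rwa [h7] at h

theorem part_two (ε δ : ℝ) (hε : 0 < ε) (hδ : 0 < δ) (W : ℕ) (hW : 1 ≤ W) :
    ∃ c C : ℝ, 0 < c ∧ 0 < C ∧ ∀ᶠ H : ℕ in atTop, ∀ y : ℕ,
      Real.log y ^ ε ≤ Real.log H → ∀ b R : ℕ,
      (R : ℝ) ≤ c * Real.log H * Real.log (Real.log H) ^ 2 →
      H * Real.exp (-Real.exp (C * (1 + R / (Real.log H * Real.log (Real.log H))))) ≤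
        unwitnessed W b ((H : ℝ) ^ δ) y H R := by
  obtain ⟨c, C, hc, hC, h1⟩ := part_one ε δ hε hδ W hW
  obtain ⟨R0, hR0⟩ := eventually_atTop.1 chebyshev
  have hlog := Real.tendsto_log_atTop.comp (tendsto_natCast_atTop_atTop (R := ℝ))
  have hloglog := Real.tendsto_log_atTop.comp hlog
  refine ⟨c / 4, 4 * C, by positivity, by positivity, ?_⟩
  filter_upwards [h1, hlog.eventually_ge_atTop 1, hlog.eventually_ge_atTop ((R0 : ℝ) ^ 2),
    hloglog.eventually_ge_atTop 1, hloglog.eventually_ge_atTop (1 / c)]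
    with H hH hL1 hLR hLL1 hLLc y hy b R hR
  simp only [Function.comp] at hL1 hLR hLL1 hLLc
  set L : ℝ := Real.log H with hL
  set M : ℝ := Real.log L with hM
  have hL0 : 0 < L := by linarith
  have hM0 : 0 < M := by linarith
  have hR0' : (0 : ℝ) ≤ R := Nat.cast_nonneg R
  have hcM : 1 ≤ c * M := by
    rw [div_le_iff₀ hc] at hLLc
    linarith
  set k : ℝ := (T W b R : ℝ) with hk
  have hk0 : 0 ≤ k := Nat.cast_nonneg _
  have key : k ≤ c * L * M ∧ k / L ≤ 1 + 4 * (R / (L * M)) := by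
    by_cases hcase : ((R : ℝ)) ^ 2 ≤ L
    · have h2 : k ≤ R := Nat.cast_le.2 (T_le W b R)
      have h3 : (R : ℝ) ≤ L := by
        by_contra hcon
        push Not at hcon
        nlinarith
      refine ⟨?_, ?_⟩
      · have : L ≤ c * L * M := by nlinarith
        linarith
      · have h4 : k / L ≤ 1 := by
          rw [div_le_one hL0]; linarith
        have h5 : 0 ≤ 4 * (R / (L * M)) := by positivity
        linarith
    · push Not at hcase
      have hRR : R0 ≤ R := by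
        have h2 : ((R0 : ℝ)) ^ 2 < (R : ℝ) ^ 2 := by linarith
        have h3 : (R0 : ℝ) < R := lt_of_pow_lt_pow_left₀ 2 hR0' h2
        exact_mod_cast h3.le
      have hR1 : (1 : ℝ) < R := by
        by_contra hcon
        push Not at hcon
        nlinarith
      have hlogR : M / 2 ≤ Real.log R := by
        have h2 : M ≤ Real.log ((R : ℝ) ^ 2) := Real.log_le_log hL0 hcase.le
        rw [Real.log_pow] at h2
        push_cast at h2
        linarith
      have h4 : k ≤ 4 * R / M := by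
        calc k ≤ (R.primeCounting : ℝ) := Nat.cast_le.2 (T_le_primeCounting W b R)
          _ ≤ 2 * R / Real.log R := hR0 R hRR
          _ ≤ 2 * R / (M / 2) := by
              apply div_le_div_of_nonneg_left (by positivity) (by positivity) hlogR
          _ = 4 * R / M := by field_simp; ring
      refine ⟨?_, ?_⟩
      · refine h4.trans ?_
        rw [div_le_iff₀ hM0]
        have : (4 : ℝ) * R ≤ c * L * M ^ 2 := by linarith
        calc (4 : ℝ) * R ≤ c * L * M ^ 2 := this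
          _ = c * L * M * M := by ring
      · have h5 : k / L ≤ 4 * R / M / L := div_le_div_of_nonneg_right h4 hL0.le
        have h6 : 4 * (R : ℝ) / M / L = 4 * (R / (L * M)) := by field_simp
        rw [h6] at h5
        linarith
  have h8 := hH y hy b R key.1
  refine le_trans ?_ h8
  apply mul_le_mul_of_nonneg_left _ (Nat.cast_nonneg H)
  apply Real.exp_le_exp.2
  apply neg_le_neg
  apply Real.exp_le_exp.2
  have h9 := key.2
  have h10 : 0 ≤ (R : ℝ) / (L * M) := by positivity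
  nlinarith [mul_le_mul_of_nonneg_left h9 hC.le, mul_nonneg hC.le h10]

/-- (1), (2): the number of `n ≡ b mod W` in `(y, y + H]` without witness `q ≤ R`, in terms of `T` and
in terms of `R`; (3): the number of `n ≡ b mod W` in `(y, y + H]` which are not of the form
`a + prime`, `a ∈ A`; (4), (5): the consequences of (1) and (3) for density one -/
theorem exceptional_set :
    (∀ ε δ : ℝ, 0 < ε → 0 < δ → ∀ W : ℕ, 1 ≤ W →
      ∃ c C : ℝ, 0 < c ∧ 0 < C ∧ ∀ᶠ H : ℕ in atTop, ∀ y : ℕ,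
        Real.log y ^ ε ≤ Real.log H → ∀ b R : ℕ,
        (T W b R : ℝ) ≤ c * Real.log H * Real.log (Real.log H) →
        H * Real.exp (-Real.exp (C * (1 + T W b R / Real.log H))) ≤
          unwitnessed W b ((H : ℝ) ^ δ) y H R) ∧
    (∀ ε δ : ℝ, 0 < ε → 0 < δ → ∀ W : ℕ, 1 ≤ W →
      ∃ c C : ℝ, 0 < c ∧ 0 < C ∧ ∀ᶠ H : ℕ in atTop, ∀ y : ℕ,
        Real.log y ^ ε ≤ Real.log H → ∀ b R : ℕ,
        (R : ℝ) ≤ c * Real.log H * Real.log (Real.log H) ^ 2 →
        H * Real.exp (-Real.exp (C * (1 + R / (Real.log H * Real.log (Real.log H))))) ≤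
          unwitnessed W b ((H : ℝ) ^ δ) y H R) ∧
    (∀ ε δ : ℝ, 0 < ε → 0 < δ → ∀ W : ℕ, 1 ≤ W →
      ∃ c C : ℝ, 0 < c ∧ 0 < C ∧ ∀ᶠ H : ℕ in atTop, ∀ y : ℕ,
        Real.log y ^ ε ≤ Real.log H → ∀ (b : ℕ) (A : Set ℕ),
        (K A W b (y + H) : ℝ) ≤ c * Real.log H * Real.log (Real.log H) →
        H * Real.exp (-Real.exp (C * (1 + K A W b (y + H) / Real.log H))) ≤
          notSum A W b ((H : ℝ) ^ δ) y H) ∧
    (∀ δ : ℝ, 0 < δ → ∀ W : ℕ, 1 ≤ W → ∀ (b : ℕ) (R : ℕ → ℕ),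
      Tendsto (fun x : ℕ => (unwitnessed W b ((x : ℝ) ^ δ) 0 x (R x) : ℝ) / x) atTop (nhds 0) →
      Tendsto (fun x : ℕ => (T W b (R x) : ℝ) / Real.log x) atTop atTop) ∧
    (∀ δ : ℝ, 0 < δ → ∀ W : ℕ, 1 ≤ W → ∀ (b : ℕ) (A : Set ℕ),
      Tendsto (fun x : ℕ => (notSum A W b ((x : ℝ) ^ δ) 0 x : ℝ) / x) atTop (nhds 0) →
      Tendsto (fun x : ℕ => (K A W b x : ℝ) / Real.log x) atTop atTop) :=
  ⟨part_one, part_two, part_three, part_four, part_five⟩

end Pool.Agent.LLW.Exc
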