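import Pool.Agent.LLW.GrpA
import Pool.Agent.LLW.Bas
import Mathlib.Combinatorics.SimpleGraph.Regularity.Equitabilise

/-!
# LLW/Grp: the class lemma (3b of LL81.md)
-/

set_option autoImplicit false

open Finset Pool.Agent.REC Pool.Agent.AT

namespace Pool.Agent.LLW

theorem mem_Vs {g Q n a : ℕ} {A : Finset ℕ} :
    a ∈ Vs g A Q n ↔ a ∈ A ∧ Int.gcd ((g : ℤ) * n - a) Q = 1 := by
  unfold Vs
  rw [mem_filter]

/-- one group -/
theorem grp (κ : ℝ) (hκ : 0 < κ) : ∃ c : ℝ, 0 < c ∧ ∃ P0 : ℕ, ∀ P L Q g : ℕ, P0 ≤ P →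
    L = Nat.log 2 P → (g = 1 ∨ g = 2) → Odd Q →
    (∀ q : ℕ, q.Prime → L < q → Nat.Coprime Q q) → (Q : ℝ) ≤ (P : ℝ) ^ (1 / 1000 : ℝ) →
    (∀ r : ℕ, r.Coprime Q → κ * ((P : ℝ) / Q) * (Nat.log 2 L : ℝ) ≤ psi Q r P) →
    ∀ (N β z : ℕ) (G : Finset ℕ), z ≤ P → N ≤ 8 * P + 8 →
    (∀ a ∈ G, 4 * P + a ≤ g * N) → (g = 2 → ∀ a ∈ G, Odd a) →
    (∀ a ∈ G, Int.gcd ((g : ℤ) * β - a) Q = 1) → (G.card : ℝ) * (Nat.log 2 L : ℝ) ≤ 5 * L →
    G.card * (c * ((Nat.log 2 L : ℝ) / L * ((P : ℝ) / Q))) ≤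
      (((Icc 1 N).filter (fun n => n ≡ β [MOD Q] ∧ (Ws g z G n).Nonempty)).card : ℝ) := by
  classical
  obtain ⟨c, hc, P0, h1⟩ := one κ hκ
  refine ⟨c, hc, P0, ?_⟩
  intro P L Q g hP hL hg hQodd hQp hQP hpsi N β z G hz hN hGN hGodd hcop hGc
  have h2 := fun q0 (hq0 : q0 ∈ G) =>
    h1 P L Q g hP hL hg hQodd hQp hQP hpsi N β z G q0 hz hN hGN hGodd hq0 (hcop q0 hq0) hGc
  set T : ℕ → Finset ℕ := fun q0 => (Icc 1 N).filter (fun n => n ≡ β [MOD Q] ∧ q0 ∈ Ws g z G n ∧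
        ∀ a ∈ G, a ≠ q0 → a ∉ Ws g z G n) with hT
  have hdis : ∀ x ∈ G, ∀ y ∈ G, x ≠ y → Disjoint (T x) (T y) := by
    intro x _ y hy hxy
    rw [Finset.disjoint_left]
    intro n hn hn'
    rw [hT, mem_filter] at hn hn'
    exact hn.2.2.2 y hy hxy.symm hn'.2.2.1
  have h3 : (G.biUnion T).card = ∑ q0 ∈ G, (T q0).card := card_biUnion hdis
  have h4 : G.biUnion T ⊆
      (Icc 1 N).filter (fun n => n ≡ β [MOD Q] ∧ (Ws g z G n).Nonempty) := by
    intro n hn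
    rw [mem_biUnion] at hn
    obtain ⟨q0, _, hn⟩ := hn
    rw [hT, mem_filter] at hn
    rw [mem_filter]
    exact ⟨hn.1, hn.2.1, ⟨q0, hn.2.2.1⟩⟩
  have h5 : ∑ q0 ∈ G, (c * ((Nat.log 2 L : ℝ) / L * ((P : ℝ) / Q))) ≤
      ∑ q0 ∈ G, ((T q0).card : ℝ) := sum_le_sum h2
  rw [sum_const, nsmul_eq_mul] at h5
  refine h5.trans ?_
  have h6 : ((G.biUnion T).card : ℝ) = ∑ q0 ∈ G, ((T q0).card : ℝ) := by
    rw [h3]; push_cast; rfl
  rw [← h6]
  exact_mod_cast card_le_card h4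

/-- the sum over the groups of an equipartition -/
theorem sum_groups {g z n : ℕ} {A A' : Finset ℕ} (hA : A' ⊆ A) (F : Finpartition A') :
    (F.parts.filter (fun G => (Ws g z G n).Nonempty)).card ≤ (Ws g z A n).card := by
  classical
  have h1 : (F.parts.filter (fun G => (Ws g z G n).Nonempty)).card ≤
      ∑ G ∈ F.parts.filter (fun G => (Ws g z G n).Nonempty), (Ws g z G n).card := by
    rw [card_eq_sum_ones]
    refine sum_le_sum fun G hG => ?_
    exact card_pos.2 (mem_filter.1 hG).2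
  refine h1.trans ?_
  rw [← card_biUnion]
  · apply card_le_card
    intro a ha
    rw [mem_biUnion] at ha
    obtain ⟨G, hG, ha⟩ := ha
    rw [mem_Ws] at ha ⊢
    exact ⟨hA (F.le (mem_filter.1 hG).1 ha.1), ha.2⟩
  · intro G hG G' hG' hne
    have h2 : Disjoint G G' := F.disjoint (mem_filter.1 hG).1 (mem_filter.1 hG').1 hne
    show Disjoint (Ws g z G n) (Ws g z G' n)
    rw [Finset.disjoint_left]
    intro a ha ha'
    rw [mem_Ws] at ha ha'
    exact (Finset.disjoint_left.1 h2) ha.1 ha'.1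

/-- the number of elements of a class -/
theorem cls_card {N β Q : ℕ} (hQ : 0 < Q) :
    (((Icc 1 N).filter (fun n => n ≡ β [MOD Q])).card : ℝ) ≤ (N : ℝ) / Q + 1 := by
  have h : Iv 0 N Q β = (Icc 1 N).filter (fun n => n ≡ β [MOD Q]) := by
    unfold Iv
    ext n
    simp only [mem_filter, mem_Ioc, mem_Icc, Nat.zero_add]
    constructor <;> rintro ⟨⟨h1, h2⟩, h3⟩ <;> exact ⟨⟨h1, h2⟩, h3⟩
  rw [← h]
  exact Iv_le 0 N β hQ

theorem rev_markov (Cl : Finset ℕ) (X : ℕ → ℕ) {m : ℕ} (t : ℝ) (ht : 0 ≤ t) (hX : ∀ n, X n ≤ m) :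
    ∑ n ∈ Cl, (X n : ℝ) ≤ m * (Cl.filter (fun n => t ≤ (X n : ℝ))).card + t * Cl.card := by
  have e1 : ∀ n ∈ Cl, (X n : ℝ) ≤ (if t ≤ (X n : ℝ) then (m : ℝ) else 0) + t := by
    intro n _
    split_ifs with h
    · have h1 : (X n : ℝ) ≤ m := by exact_mod_cast hX n
      linarith
    · push Not at h
      linarith
  refine (sum_le_sum e1).trans (le_of_eq ?_)
  rw [sum_add_distrib, ← sum_filter, sum_const, sum_const, nsmul_eq_mul, nsmul_eq_mul]
  ring

theorem cls (κ : ℝ) (hκ : 0 < κ) : ∃ c : ℝ, 0 < c ∧ ∃ P0 : ℕ, ∀ P L Q g : ℕ, P0 ≤ P →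
    L = Nat.log 2 P → (g = 1 ∨ g = 2) → Odd Q →
    (∀ q : ℕ, q.Prime → L < q → Nat.Coprime Q q) → (Q : ℝ) ≤ (P : ℝ) ^ (1 / 1000 : ℝ) →
    (∀ r : ℕ, r.Coprime Q → κ * ((P : ℝ) / Q) * (Nat.log 2 L : ℝ) ≤ psi Q r P) →
    ∀ (N β z : ℕ) (A : Finset ℕ), z ≤ P → N ≤ 8 * P + 8 → (∀ a ∈ A, 4 * P + a ≤ g * N) →
    (g = 2 → ∀ a ∈ A, Odd a) →
    c * ((P : ℝ) / Q) * min 1 ((Nat.log 2 L : ℝ) / L * (Vs g A Q β).card) ≤
      (((Icc 1 N).filter (fun n => n ≡ β [MOD Q] ∧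
        max 1 (c * ((Nat.log 2 L : ℝ) / L * (Vs g A Q β).card)) ≤ ((Ws g z A n).card : ℝ))).card
          : ℝ) := by
  classical
  obtain ⟨c1, hc1, P1, h1⟩ := grp κ hκ
  obtain ⟨c, hc⟩ : ∃ c : ℝ, c = min c1 1 := ⟨_, rfl⟩
  have hc0 : 0 < c := by rw [hc]; exact lt_min hc1 one_pos
  have hcle : c ≤ c1 := by rw [hc]; exact min_le_left _ _
  have hcle1 : c ≤ 1 := by rw [hc]; exact min_le_right _ _
  refine ⟨c / 80, by positivity, max P1 (2 ^ 64), ?_⟩
  intro P L Q g hP hL hg hQodd hQp hQP hpsi N β z A hz hN hAN hAodd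
  have hP1' : P1 ≤ P := (le_max_left _ _).trans hP
  have hP2 : 2 ^ 64 ≤ P := (le_max_right _ _).trans hP
  have hLL : 64 ≤ L := by rw [hL]; exact ga_log hP2
  have hP0 : P ≠ 0 := by
    have : 0 < 2 ^ 64 := by positivity
    omega
  have hQ : 0 < Q := hQodd.pos
  have hQr : (0 : ℝ) < Q := by exact_mod_cast hQ
  have hPr : (1 : ℝ) ≤ (P : ℝ) := by exact_mod_cast Nat.one_le_iff_ne_zero.2 hP0
  obtain ⟨l, hl⟩ : ∃ l, l = Nat.log 2 L := ⟨_, rfl⟩
  rw [← hl] at hpsi ⊢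
  have hl6 : 6 ≤ l := by rw [hl]; exact ga_log (by omega)
  have hlL : 2 * l ≤ L := by
    have h2 : 2 ^ l ≤ L := by rw [hl]; exact Nat.pow_log_le_self 2 (by omega)
    have h3 : 2 * l ≤ 2 ^ l := by
      have : ∀ x : ℕ, 6 ≤ x → 2 * x ≤ 2 ^ x := by
        intro x hx
        induction x, hx using Nat.le_induction with
        | base => norm_num
        | succ x hx ih => rw [pow_succ]; omega
      exact this l hl6
    omega
  have hlr : (6 : ℝ) ≤ (l : ℝ) := by exact_mod_cast hl6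
  have hLr : (64 : ℝ) ≤ (L : ℝ) := by exact_mod_cast hLL
  have hl0 : (0 : ℝ) < l := by linarith
  have hL0 : (0 : ℝ) < L := by linarith
  -- the block length
  obtain ⟨K0, hK0⟩ : ∃ K0, K0 = L / l := ⟨_, rfl⟩
  have hK1 : K0 * l ≤ L := by rw [hK0]; exact Nat.div_mul_le_self L l
  have hK2 : L < (K0 + 1) * l := by
    rw [hK0]
    have := Nat.lt_div_mul_add (a := L) (b := l) (by omega)
    linarith
  have hK3 : 2 ≤ K0 := by
    rw [hK0, Nat.le_div_iff_mul_le (by omega)]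
    exact hlL
  have hK1r : (K0 : ℝ) * l ≤ L := by exact_mod_cast hK1
  have hK2r : (L : ℝ) ≤ 2 * (K0 * l) := by
    have h2 : (L : ℝ) < (K0 + 1) * l := by exact_mod_cast hK2
    have h3 : (2 : ℝ) ≤ K0 := by exact_mod_cast hK3
    nlinarith
  set A' := Vs g A Q β with hA'
  obtain ⟨k, hk⟩ : ∃ k, k = A'.card := ⟨_, rfl⟩
  rw [← hk]
  have hsubA : A' ⊆ A := filter_subset _ _
  have hcopA : ∀ a ∈ A', Int.gcd ((g : ℤ) * β - a) Q = 1 := fun a ha => (mem_Vs.1 ha).2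
  have hPQ : 0 < (P : ℝ) / Q := by positivity
  have hgrp := fun (G : Finset ℕ) (hG : G ⊆ A') (hGc : (G.card : ℝ) * (Nat.log 2 L : ℝ) ≤ 5 * L) =>
    h1 P L Q g hP1' hL hg hQodd hQp hQP (by rw [← hl]; exact hpsi) N β z G hz hN
      (fun a ha => hAN a (hsubA (hG ha))) (fun h a ha => hAodd h a (hsubA (hG ha)))
      (fun a ha => hcopA a (hG ha)) hGc
  rw [← hl] at hgrp
  have hkr : (0 : ℝ) ≤ k := Nat.cast_nonneg _
  by_cases hcase : k < 2 * K0
  · -- one group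
    have hkr2 : (k : ℝ) ≤ 2 * K0 := by exact_mod_cast hcase.le
    have hlk : (l : ℝ) / L * k ≤ 2 := by
      rw [div_mul_eq_mul_div, div_le_iff₀ hL0]
      nlinarith
    have h2 := hgrp A' (subset_refl _) (by rw [← hk]; nlinarith)
    rw [← hk] at h2
    have h3 : c / 80 * ((P : ℝ) / Q) * min 1 ((l : ℝ) / L * k) ≤
        k * (c1 * ((l : ℝ) / L * ((P : ℝ) / Q))) := by
      have h4 : 0 ≤ (l : ℝ) / L * k := by positivity
      calc c / 80 * ((P : ℝ) / Q) * min 1 ((l : ℝ) / L * k) ≤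
          c1 * ((P : ℝ) / Q) * ((l : ℝ) / L * k) := by
            apply mul_le_mul _ (min_le_right _ _) (le_min zero_le_one h4) (by positivity)
            apply mul_le_mul_of_nonneg_right _ hPQ.le
            linarith
        _ = _ := by ring
    refine (h3.trans h2).trans ?_
    have h5 : (Icc 1 N).filter (fun n => n ≡ β [MOD Q] ∧ (Ws g z A' n).Nonempty) ⊆
        (Icc 1 N).filter (fun n => n ≡ β [MOD Q] ∧
          max 1 (c / 80 * ((l : ℝ) / L * k)) ≤ ((Ws g z A n).card : ℝ)) := by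
      intro n hn
      rw [mem_filter] at hn ⊢
      refine ⟨hn.1, hn.2.1, ?_⟩
      have h6 : 1 ≤ (Ws g z A n).card := by
        obtain ⟨a, ha⟩ := hn.2.2
        rw [mem_Ws] at ha
        exact card_pos.2 ⟨a, mem_Ws.2 ⟨hsubA ha.1, ha.2⟩⟩
      have h7 : (1 : ℝ) ≤ (Ws g z A n).card := by exact_mod_cast h6
      refine max_le h7 (le_trans ?_ h7)
      have h4 : 0 ≤ (l : ℝ) / L * k := by positivity
      nlinarith
    exact_mod_cast card_le_card h5
  · -- many groups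
    push Not at hcase
    obtain ⟨m, hm⟩ : ∃ m, m = k / K0 := ⟨_, rfl⟩
    have hm1 : m * K0 ≤ k := by rw [hm]; exact Nat.div_mul_le_self k K0
    have hm2 : k < (m + 1) * K0 := by
      rw [hm]
      have := Nat.lt_div_mul_add (a := k) (b := K0) (by omega)
      linarith
    have hm3 : 2 ≤ m := by
      rw [hm, Nat.le_div_iff_mul_le (by omega)]
      exact hcase
    have hmk : m ≤ k := by nlinarith
    obtain ⟨F, hF, hFm⟩ := Finpartition.exists_equipartition_card_eq A' (n := m) (by omega)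
      (by rw [← hk]; exact hmk)
    have hFc : ∀ G ∈ F.parts, G.card ≤ 2 * K0 := by
      intro G hG
      have h2 := hF.card_part_le_average_add_one hG
      rw [hFm, ← hk] at h2
      have h3 : k / m < 2 * K0 := by
        rw [Nat.div_lt_iff_lt_mul (by omega)]
        nlinarith
      omega
    have h2 : ∀ G ∈ F.parts, (G.card : ℝ) * (c1 * ((l : ℝ) / L * ((P : ℝ) / Q))) ≤
        (((Icc 1 N).filter (fun n => n ≡ β [MOD Q] ∧ (Ws g z G n).Nonempty)).card : ℝ) := by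
      intro G hG
      refine hgrp G (F.le hG) ?_
      have h3 : (G.card : ℝ) ≤ 2 * K0 := by exact_mod_cast hFc G hG
      nlinarith
    set X : ℕ → ℕ := fun n => (F.parts.filter (fun G => (Ws g z G n).Nonempty)).card with hX
    set Cl := (Icc 1 N).filter (fun n => n ≡ β [MOD Q]) with hCl
    have hXm : ∀ n, X n ≤ m := fun n => (card_filter_le _ _).trans hFm.le
    have hXr : ∀ n, X n ≤ (Ws g z A n).card := fun n => sum_groups hsubA F
    have hsum : ∑ G ∈ F.parts, ((Icc 1 N).filter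
        (fun n => n ≡ β [MOD Q] ∧ (Ws g z G n).Nonempty)).card = ∑ n ∈ Cl, X n := by
      have e1 : ∀ G ∈ F.parts, ((Icc 1 N).filter
          (fun n => n ≡ β [MOD Q] ∧ (Ws g z G n).Nonempty)).card =
          ∑ n ∈ Cl, if (Ws g z G n).Nonempty then 1 else 0 := by
        intro G _
        rw [← card_filter, hCl, filter_filter]
      rw [sum_congr rfl e1, sum_comm]
      refine sum_congr rfl fun n _ => ?_
      show _ = (F.parts.filter (fun G => (Ws g z G n).Nonempty)).card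
      rw [card_filter]
    have hkc : ∑ G ∈ F.parts, G.card = k := by rw [F.sum_card_parts, hk]
    have h3 : (k : ℝ) * (c1 * ((l : ℝ) / L * ((P : ℝ) / Q))) ≤ ∑ n ∈ Cl, (X n : ℝ) := by
      have e2 := sum_le_sum h2
      rw [← sum_mul] at e2
      have e3 : (∑ G ∈ F.parts, (G.card : ℝ)) = k := by exact_mod_cast hkc
      rw [e3] at e2
      refine e2.trans (le_of_eq ?_)
      exact_mod_cast hsum
    -- reverse Markov
    obtain ⟨θ, hθ⟩ : ∃ θ : ℝ, θ = c / 40 := ⟨_, rfl⟩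
    have hθ0 : 0 < θ := by rw [hθ]; positivity
    have hmr : (2 : ℝ) ≤ m := by exact_mod_cast hm3
    set E := Cl.filter (fun n => θ * m ≤ (X n : ℝ)) with hE
    have h4 : ∑ n ∈ Cl, (X n : ℝ) ≤ m * E.card + θ * m * Cl.card :=
      rev_markov Cl X (θ * m) (by positivity) hXm
    have h5 : (Cl.card : ℝ) ≤ 10 * ((P : ℝ) / Q) := by
      have e1 := cls_card (N := N) (β := β) hQ
      have e2 : (N : ℝ) ≤ 8 * P + 8 := by exact_mod_cast hN
      have e3 : (Q : ℝ) ≤ P := by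
        refine hQP.trans ?_
        calc (P : ℝ) ^ (1 / 1000 : ℝ) ≤ (P : ℝ) ^ (1 : ℝ) :=
              Real.rpow_le_rpow_of_exponent_le hPr (by norm_num)
          _ = P := Real.rpow_one _
      have e4 : (64 : ℝ) ≤ P := by
        have : (64 : ℕ) ≤ P := by
          have : (64 : ℕ) ≤ 2 ^ 64 := by norm_num
          omega
        exact_mod_cast this
      refine e1.trans ?_
      rw [← mul_div_assoc, div_add_one hQr.ne']
      apply div_le_div_of_nonneg_right _ hQr.le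
      linarith
    have h6 : c / 4 * ((P : ℝ) / Q) ≤ E.card := by
      have e1 : (m : ℝ) * K0 ≤ k := by exact_mod_cast hm1
      have e2 : (m : ℝ) * (c / 2 * ((P : ℝ) / Q)) ≤ k * (c1 * ((l : ℝ) / L * ((P : ℝ) / Q))) := by
        have e3 : (1 : ℝ) / 2 ≤ K0 * ((l : ℝ) / L) := by
          rw [← mul_div_assoc, le_div_iff₀ hL0]
          linarith
        calc (m : ℝ) * (c / 2 * ((P : ℝ) / Q)) = (m : ℝ) * (1 / 2) * (c * ((P : ℝ) / Q)) := by ring
          _ ≤ (m : ℝ) * (K0 * ((l : ℝ) / L)) * (c1 * ((P : ℝ) / Q)) := by gcongr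
          _ = (m : ℝ) * K0 * (((l : ℝ) / L) * (c1 * ((P : ℝ) / Q))) := by ring
          _ ≤ k * (((l : ℝ) / L) * (c1 * ((P : ℝ) / Q))) := by gcongr
          _ = _ := by ring
      have e4 : θ * m * Cl.card ≤ m * (c / 4 * ((P : ℝ) / Q)) := by
        calc θ * m * Cl.card ≤ θ * m * (10 * ((P : ℝ) / Q)) := by gcongr
          _ = _ := by rw [hθ]; ring
      have e5 : (m : ℝ) * (c / 4 * ((P : ℝ) / Q)) ≤ m * E.card := by
        have : (m : ℝ) * (c / 2 * ((P : ℝ) / Q)) = m * (c / 4 * ((P : ℝ) / Q)) +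
          m * (c / 4 * ((P : ℝ) / Q)) := by ring
        linarith
      exact le_of_mul_le_mul_left e5 (by linarith)
    have h7 : c / 80 * ((P : ℝ) / Q) * min 1 ((l : ℝ) / L * k) ≤ c / 4 * ((P : ℝ) / Q) := by
      have e1 : min 1 ((l : ℝ) / L * k) ≤ 1 := min_le_left _ _
      have e2 : 0 ≤ c / 80 * ((P : ℝ) / Q) := by positivity
      nlinarith [mul_le_mul_of_nonneg_left e1 e2, mul_pos hc0 hPQ]
    refine (h7.trans h6).trans ?_
    have h8 : E ⊆ (Icc 1 N).filter (fun n => n ≡ β [MOD Q] ∧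
          max 1 (c / 80 * ((l : ℝ) / L * k)) ≤ ((Ws g z A n).card : ℝ)) := by
      intro n hn
      rw [hE, mem_filter, hCl, mem_filter] at hn
      rw [mem_filter]
      refine ⟨hn.1.1, hn.1.2, ?_⟩
      have e1 : (X n : ℝ) ≤ (Ws g z A n).card := by exact_mod_cast hXr n
      have e2 : (1 : ℝ) ≤ X n := by
        have : 0 < (X n : ℝ) := lt_of_lt_of_le (by positivity) hn.2
        have : 0 < X n := by exact_mod_cast this
        exact_mod_cast this
      refine max_le (e2.trans e1) (le_trans ?_ (hn.2.trans e1))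
      have e3 : (k : ℝ) ≤ 2 * (m * K0) := by
        have e4 : (k : ℝ) < (m + 1) * K0 := by exact_mod_cast hm2
        have e5 : (0 : ℝ) ≤ K0 := Nat.cast_nonneg _
        nlinarith
      have e6 : (l : ℝ) / L * k ≤ 2 * m := by
        rw [div_mul_eq_mul_div, div_le_iff₀ hL0]
        nlinarith
      rw [hθ]
      nlinarith
    exact_mod_cast card_le_card h8

end Pool.Agent.LLW
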