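import Pool.Agent.UW.EG5
import Pool.Agent.LLW.Defs

/-!
# LLW/GrpA: the class lemma (3b of LL81.md): one element of one group
-/

set_option autoImplicit false

open Finset Pool.Agent.REC Pool.Agent.AT Filter

namespace Pool.Agent.LLW

theorem ga_log {x y : ℕ} (h : 2 ^ x ≤ y) : x ≤ Nat.log 2 y :=
  Nat.le_log_of_pow_le (by norm_num) h

/-- the numerical facts for large `P` -/
theorem ga_num (c : ℝ) (hc : 0 < c) : ∃ P0 : ℕ, ∀ P : ℕ, P0 ≤ P →
    20 * (Nat.log 2 P : ℝ) ^ 2 ≤ c * (P : ℝ) ^ (998 / 1000 : ℝ) := by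
  have h1 := (isLittleO_log_rpow_rpow_atTop (s := 998 / 1000) 2 (by norm_num)).bound
    (show (0 : ℝ) < c / 50 by positivity)
  have h2 := (tendsto_natCast_atTop_atTop (R := ℝ)).eventually h1
  obtain ⟨P0, hP0⟩ := eventually_atTop.1 (h2.and (eventually_ge_atTop 1))
  refine ⟨P0, fun P hP => ?_⟩
  obtain ⟨h3, hP1⟩ := hP0 P hP
  have hPr : (0 : ℝ) < P := by exact_mod_cast hP1
  have hl : 0 ≤ Real.log P := Real.log_natCast_nonneg P
  rw [Real.rpow_two, Real.norm_of_nonneg (by positivity), Real.norm_of_nonneg (by positivity)] at h3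
  have h4 : (Nat.log 2 P : ℝ) * Real.log 2 ≤ Real.log P := by
    have h5 : ((2 ^ Nat.log 2 P : ℕ) : ℝ) ≤ (P : ℝ) := by
      exact_mod_cast Nat.pow_log_le_self 2 (by omega)
    have h6 := Real.log_le_log (by positivity) h5
    push_cast at h6
    rwa [Real.log_pow] at h6
  have hl2 := Real.log_two_gt_d9
  have h0 : (0 : ℝ) ≤ Nat.log 2 P := Nat.cast_nonneg _
  have h7 : (Nat.log 2 P : ℝ) ≤ 1.5 * Real.log P := by nlinarith
  have h8 : (Nat.log 2 P : ℝ) ^ 2 ≤ (1.5 * Real.log P) ^ 2 := pow_le_pow_left₀ h0 h7 2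
  nlinarith

/-- the removed elements are few -/
theorem ga_small {c x G d q : ℝ} {P L : ℝ} (hc : 0 < c) (hP : 1 ≤ P) (hL : 1 ≤ L) (hx : 1 ≤ x)
    (hG : G ≤ 5 * L) (_hG0 : 0 ≤ G) (hd : d ≤ P ^ (1 / 1000 : ℝ)) (hd1 : 1 ≤ d)
    (hq0 : 0 < q) (hq : q ≤ P ^ (1 / 1000 : ℝ))
    (h : 20 * L ^ 2 ≤ c * P ^ (998 / 1000 : ℝ)) :
    G * (d + 1) ≤ c * (x / L * (P / q)) := by
  have hP0 : 0 < P := by linarith
  obtain ⟨u, hu⟩ : ∃ u : ℝ, u = P ^ (1 / 1000 : ℝ) := ⟨_, rfl⟩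
  rw [← hu] at hd hq
  have hu0 : 0 < u := by rw [hu]; positivity
  have e1 : P ^ (998 / 1000 : ℝ) * (u * u) = P := by
    rw [hu, ← Real.rpow_add hP0, ← Real.rpow_add hP0]
    norm_num
  have h1 : G * (d + 1) ≤ 5 * L * (2 * u) := by
    apply mul_le_mul hG (by linarith) (by linarith) (by linarith)
  have h2 : 20 * L ^ 2 * (u * u) ≤ c * P := by
    calc 20 * L ^ 2 * (u * u) ≤ c * P ^ (998 / 1000 : ℝ) * (u * u) :=
          mul_le_mul_of_nonneg_right h (by positivity)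
      _ = c * P := by rw [mul_assoc, e1]
  refine h1.trans ?_
  have h3 : c * (x / L * (P / q)) = c * P * x / (L * q) := by
    field_simp
  rw [h3, le_div_iff₀ (by positivity)]
  have h4 : c * P ≤ c * P * x := le_mul_of_one_le_right (by positivity) hx
  have h5 : 5 * L * (2 * u) * (L * q) ≤ 20 * L ^ 2 * (u * u) := by
    have : 5 * L * (2 * u) * (L * q) = 10 * L ^ 2 * (u * q) := by ring
    rw [this]
    have h6 : u * q ≤ u * u := mul_le_mul_of_nonneg_left hq hu0.le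
    have h7 : (0 : ℝ) ≤ L ^ 2 := by positivity
    nlinarith [mul_nonneg h7 (sub_nonneg.2 h6), mul_nonneg h7 (mul_nonneg hu0.le hu0.le)]
  linarith

/-- a natural representative of `g β - a` modulo `Q` -/
theorem ga_rep {g β a Q : ℕ} (hQ : 0 < Q) :
    (((g * β + a * (Q - 1) : ℕ) : ℤ)) = ((g : ℤ) * β - a) + a * Q := by
  have h : ((Q - 1 : ℕ) : ℤ) = (Q : ℤ) - 1 := by
    rw [Nat.cast_sub (by omega)]
    norm_num
  push_cast [h]
  ring

theorem ga_cop {g β a Q : ℕ} (hQ : 0 < Q) (h : Int.gcd ((g : ℤ) * β - a) Q = 1) :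
    Nat.Coprime (g * β + a * (Q - 1)) Q := by
  rw [← Nat.isCoprime_iff_coprime, ga_rep hQ]
  rw [← Int.isCoprime_iff_gcd_eq_one] at h
  exact h.add_mul_right_left _

theorem ga_mod {g β a Q m : ℕ} (hQ : 0 < Q) (h : m ≡ g * β + a * (Q - 1) [MOD Q]) :
    m + a ≡ g * β [MOD Q] := by
  have h1 : m + a ≡ g * β + a * (Q - 1) + a [MOD Q] := h.add_right a
  have h2 : g * β + a * (Q - 1) + a = g * β + a * Q := by
    obtain ⟨k, rfl⟩ : ∃ k, Q = k + 1 := ⟨Q - 1, by omega⟩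
    rw [Nat.add_sub_cancel]
    ring
  rw [h2] at h1
  refine h1.trans ?_
  have h3 : g * β + a * Q ≡ g * β + 0 [MOD Q] :=
    Nat.ModEq.add_left _ ((Nat.modEq_zero_iff_dvd).2 (Dvd.intro_left a rfl))
  rwa [add_zero] at h3

theorem mem_Ws {g z : ℕ} {A : Finset ℕ} {n a : ℕ} :
    a ∈ Ws g z A n ↔ a ∈ A ∧ ∃ p : ℕ, p.Prime ∧ z < p ∧ a + p = g * n := by
  simp [Ws]

theorem one (κ : ℝ) (hκ : 0 < κ) : ∃ c : ℝ, 0 < c ∧ ∃ P0 : ℕ, ∀ P L Q g : ℕ, P0 ≤ P →
    L = Nat.log 2 P → (g = 1 ∨ g = 2) → Odd Q →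
    (∀ q : ℕ, q.Prime → L < q → Nat.Coprime Q q) → (Q : ℝ) ≤ (P : ℝ) ^ (1 / 1000 : ℝ) →
    (∀ r : ℕ, r.Coprime Q → κ * ((P : ℝ) / Q) * (Nat.log 2 L : ℝ) ≤ psi Q r P) →
    ∀ (N β z : ℕ) (G : Finset ℕ) (q0 : ℕ), z ≤ P → N ≤ 8 * P + 8 →
    (∀ a ∈ G, 4 * P + a ≤ g * N) → (g = 2 → ∀ a ∈ G, Odd a) → q0 ∈ G →
    Int.gcd ((g : ℤ) * β - q0) Q = 1 → (G.card : ℝ) * (Nat.log 2 L : ℝ) ≤ 5 * L →
    c * ((Nat.log 2 L : ℝ) / L * ((P : ℝ) / Q)) ≤
      (((Icc 1 N).filter (fun n => n ≡ β [MOD Q] ∧ q0 ∈ Ws g z G n ∧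
        ∀ a ∈ G, a ≠ q0 → a ∉ Ws g z G n)).card : ℝ) := by
  classical
  obtain ⟨c, hc, L0, h5⟩ := Pool.Agent.UW.eg5 10 (κ / 2) (by norm_num) (by positivity)
  obtain ⟨P1, hP1⟩ := ga_num (c / 4) (by positivity)
  refine ⟨c / 4, by positivity, max P1 (2 ^ (L0 + 16)), ?_⟩
  intro P L Q g hP hL hg hQodd hQp hQP hpsi N β z G q0 hz hN hGN hGodd hq0 hcop hGc
  have hP1' : P1 ≤ P := (le_max_left _ _).trans hP
  have hP2 : 2 ^ (L0 + 16) ≤ P := (le_max_right _ _).trans hP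
  have hLL : L0 + 16 ≤ L := by rw [hL]; exact ga_log hP2
  have hP0 : P ≠ 0 := by
    have : 0 < 2 ^ (L0 + 16) := by positivity
    omega
  have hPL : 2 ^ L ≤ P := by rw [hL]; exact Nat.pow_log_le_self 2 hP0
  have hPL2 : P < 2 ^ (L + 1) := by rw [hL]; exact Nat.lt_pow_succ_log_self (by norm_num) P
  have hQ : 0 < Q := hQodd.pos
  have hg0 : 0 < g := by rcases hg with h | h <;> omega
  have hg2 : g ≤ 2 := by rcases hg with h | h <;> omega
  -- the level
  set L' := L + 5 with hL'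
  have e32 : 2 ^ L' = 16 * 2 ^ (L + 1) := by rw [hL']; ring
  have e32' : 2 ^ L' = 32 * 2 ^ L := by rw [hL']; ring
  have hlog1 : 4 ≤ Nat.log 2 L := ga_log (by omega)
  have hlog2 : Nat.log 2 L' ≤ Nat.log 2 L + 1 := by
    have h1 : L < 2 ^ (Nat.log 2 L + 1) := Nat.lt_pow_succ_log_self (by norm_num) L
    have h2 : L' < 2 ^ (Nat.log 2 L + 2) := by
      have : 2 ^ (Nat.log 2 L + 2) = 2 * 2 ^ (Nat.log 2 L + 1) := by ring
      omega
    have h3 := Nat.log_lt_of_lt_pow (by omega : L' ≠ 0) h2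
    omega
  have hlog3 : Nat.log 2 L ≤ Nat.log 2 L' := Nat.log_mono_right (by omega)
  have hl0 : (1 : ℝ) ≤ (Nat.log 2 L : ℝ) := by exact_mod_cast (by omega : 1 ≤ Nat.log 2 L)
  have hlog2r : (Nat.log 2 L' : ℝ) ≤ 2 * (Nat.log 2 L : ℝ) := by
    have : Nat.log 2 L' ≤ 2 * Nat.log 2 L := by omega
    exact_mod_cast this
  have hLr : (1 : ℝ) ≤ (L : ℝ) := by exact_mod_cast (by omega : 1 ≤ L)
  have hQr : (0 : ℝ) < Q := by exact_mod_cast hQ
  have hPr : (1 : ℝ) ≤ (P : ℝ) := by exact_mod_cast Nat.one_le_iff_ne_zero.2 hP0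
  set R : Finset ℤ := (G.erase q0).image (fun a : ℕ => (a : ℤ) - q0) with hR
  set b := g * β + q0 * (Q - 1) with hb
  have hmain := h5 P L' Q R b (by omega) (by omega) (by omega) hQ ?_ hQP ?_ ?_ ?_
    (ga_cop hQ hcop) ?_
  rotate_left
  · intro q hq hq6
    refine hQp q hq ?_
    have : L' ≤ L' ^ 6 := Nat.le_self_pow (by norm_num) L'
    omega
  · intro a ha
    rw [hR, mem_image] at ha
    obtain ⟨s, hs, rfl⟩ := ha
    have h1 := hGN s (mem_of_mem_erase hs)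
    have h2 := hGN q0 hq0
    have h3 : g * N ≤ 2 * N := Nat.mul_le_mul_right N hg2
    rw [abs_le]
    have h4 : (2 : ℤ) ^ L' = ((2 ^ L' : ℕ) : ℤ) := by push_cast; rfl
    rw [h4]
    have h16 : 2 ^ 16 ≤ 2 ^ (L0 + 16) := Nat.pow_le_pow_right (by norm_num) (by omega)
    have h5' : 65536 ≤ P := by
      have : (2 : ℕ) ^ 16 = 65536 := by norm_num
      omega
    constructor <;> omega
  · intro h0
    rw [hR, mem_image] at h0
    obtain ⟨s, hs, hs2⟩ := h0
    rw [mem_erase] at hs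
    omega
  · have h1 : R.card ≤ G.card := card_image_le.trans (card_le_card (erase_subset _ _))
    have h2 : (R.card : ℝ) ≤ G.card := by exact_mod_cast h1
    have h3 : (L : ℝ) ≤ L' := by rw [hL']; push_cast; linarith
    calc (R.card : ℝ) * (Nat.log 2 L' : ℝ) ≤ G.card * (2 * (Nat.log 2 L : ℝ)) :=
          mul_le_mul h2 hlog2r (Nat.cast_nonneg _) (Nat.cast_nonneg _)
      _ = 2 * (G.card * (Nat.log 2 L : ℝ)) := by ring
      _ ≤ 2 * (5 * L) := by linarith
      _ ≤ 10 * L' := by linarith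
  · refine le_trans ?_ (hpsi b (ga_cop hQ hcop))
    have h1 : 0 ≤ (P : ℝ) / Q := by positivity
    calc κ / 2 * ((Nat.log 2 L' : ℝ) * ((P : ℝ) / Q)) ≤
        κ / 2 * ((2 * (Nat.log 2 L : ℝ)) * ((P : ℝ) / Q)) := by gcongr
      _ = _ := by ring
  -- the exceptional elements
  set S := (Nw P 0 Q b).filter (fun n : ℕ => n.Prime ∧ ∀ a ∈ R, ∃ q : ℕ, q.Prime ∧ L' ^ 6 < q ∧
        q ≤ 2 ^ dd L' ∧ (q : ℤ) ∣ (n : ℤ) - a) with hS
  set D := 2 ^ dd L' with hD
  set B := (G ×ˢ range (D + 1)).image (fun x : ℕ × ℕ => x.1 + x.2 - q0) with hB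
  have hBc : B.card ≤ G.card * (D + 1) := by
    refine card_image_le.trans ?_
    rw [card_product, card_range]
  have hDr : (D : ℝ) ≤ (P : ℝ) ^ (1 / 1000 : ℝ) := by
    have h1 : dd L' * 1000 ≤ L := by
      unfold dd
      omega
    have h2 : D ^ 1000 ≤ P := by
      rw [hD, ← pow_mul]
      exact (Nat.pow_le_pow_right (by norm_num) h1).trans hPL
    have h3 : (D : ℝ) ^ 1000 ≤ (P : ℝ) := by exact_mod_cast h2
    have h4 : ((D : ℝ) ^ 1000) ^ (1 / 1000 : ℝ) ≤ (P : ℝ) ^ (1 / 1000 : ℝ) :=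
      Real.rpow_le_rpow (by positivity) h3 (by norm_num)
    rwa [← Real.rpow_natCast, ← Real.rpow_mul (Nat.cast_nonneg D), show ((1000 : ℕ) : ℝ) * (1 / 1000) = 1 by norm_num,
      Real.rpow_one] at h4
  have hD1 : (1 : ℝ) ≤ (D : ℝ) := by
    have : 1 ≤ D := Nat.one_le_two_pow
    exact_mod_cast this
  have hGc' : (G.card : ℝ) ≤ 5 * L := by
    have h0 : (0 : ℝ) ≤ G.card := Nat.cast_nonneg _
    nlinarith
  have hnum := hP1 P hP1'
  rw [← hL] at hnum
  have hsm := ga_small (c := c / 4) (x := (Nat.log 2 L : ℝ)) (G := (G.card : ℝ)) (d := (D : ℝ))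
    (q := (Q : ℝ)) (P := (P : ℝ)) (L := (L : ℝ)) (by positivity) hPr hLr hl0 hGc'
    (Nat.cast_nonneg _) hDr hD1 hQr hQP hnum
  -- the map
  set T := (Icc 1 N).filter (fun n => n ≡ β [MOD Q] ∧ q0 ∈ Ws g z G n ∧
        ∀ a ∈ G, a ≠ q0 → a ∉ Ws g z G n) with hT
  have hle : (S \ B).card ≤ T.card := by
    refine card_le_card_of_injOn (fun m => (m + q0) / g) ?_ ?_
    · intro m hm
      rw [Finset.mem_coe, Finset.mem_sdiff] at hm
      obtain ⟨hmS, hmB⟩ := hm
      rw [hS, mem_filter] at hmS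
      obtain ⟨hmN, hmp, hmk⟩ := hmS
      rw [Nw, mem_filter, mem_Ioc, Nat.sub_zero] at hmN
      obtain ⟨⟨hm1, hm2⟩, hm3⟩ := hmN
      have hdiv : g ∣ m + q0 := by
        rcases hg with rfl | rfl
        · exact one_dvd _
        · have ho := hGodd rfl q0 hq0
          have hm' : m ≠ 2 := by
            have h16 : 2 ^ 1 ≤ 2 ^ (L0 + 16) := Nat.pow_le_pow_right (by norm_num) (by omega)
            omega
          have := hmp.odd_of_ne_two hm'
          exact (this.add_odd ho).two_dvd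
      have hgn : g * ((m + q0) / g) = m + q0 := Nat.mul_div_cancel' hdiv
      have hNm := hGN q0 hq0
      rw [mem_coe, hT, mem_filter, mem_Icc]
      refine ⟨⟨?_, ?_⟩, ?_, ?_, ?_⟩
      · by_contra hcon
        have h0 : (m + q0) / g = 0 := Nat.lt_one_iff.1 (not_le.1 hcon)
        have h1 : g * ((m + q0) / g) = 0 := by rw [h0, mul_zero]
        omega
      · have h1 : g * ((m + q0) / g) ≤ g * N := by rw [hgn]; omega
        exact Nat.le_of_mul_le_mul_left h1 hg0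
      · have h1 : g * ((m + q0) / g) ≡ g * β [MOD Q] := by
          rw [hgn]
          exact ga_mod hQ hm3
        refine Nat.ModEq.cancel_left_of_coprime ?_ h1
        rcases hg with rfl | rfl
        · simp
        · exact hQodd.coprime_two_right
      · rw [mem_Ws]
        exact ⟨hq0, m, hmp, by omega, by rw [hgn]; ring⟩
      · intro a ha hane hcon
        rw [mem_Ws] at hcon
        obtain ⟨-, p, hp, hzp, hpe⟩ := hcon
        rw [hgn] at hpe
        have haR : (a : ℤ) - q0 ∈ R := by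
          rw [hR, mem_image]
          exact ⟨a, mem_erase.2 ⟨hane, ha⟩, rfl⟩
        obtain ⟨q, hq, hq1, hq2, hq3⟩ := hmk _ haR
        have hpz : (m : ℤ) - ((a : ℤ) - q0) = p := by
          have : ((a + p : ℕ) : ℤ) = ((m + q0 : ℕ) : ℤ) := by rw [hpe]
          push_cast at this
          linarith
        rw [hpz] at hq3
        have hqp : q ∣ p := by exact_mod_cast hq3
        have hqe : q = p := (Nat.prime_dvd_prime_iff_eq hq hp).1 hqp
        apply hmB
        rw [hB, mem_image]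
        refine ⟨(a, p), ?_, ?_⟩
        · rw [mem_product, mem_range]
          exact ⟨ha, by rw [← hqe]; omega⟩
        · simp only
          omega
    · intro m hm m' hm' hmm
      rw [Finset.mem_coe, Finset.mem_sdiff, hS, mem_filter, Nw, mem_filter, mem_Ioc, Nat.sub_zero] at hm hm'
      have hdiv : ∀ x : ℕ, x.Prime → P < x → g ∣ x + q0 := by
        intro x hx hPx
        rcases hg with rfl | rfl
        · exact one_dvd _
        · have ho := hGodd rfl q0 hq0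
          have hm' : x ≠ 2 := by
            have h16 : 2 ^ 1 ≤ 2 ^ (L0 + 16) := Nat.pow_le_pow_right (by norm_num) (by omega)
            omega
          have := hx.odd_of_ne_two hm'
          exact (this.add_odd ho).two_dvd
      have h1 := Nat.mul_div_cancel' (hdiv m hm.1.2.1 hm.1.1.1.1)
      have h2 := Nat.mul_div_cancel' (hdiv m' hm'.1.2.1 hm'.1.1.1.1)
      have h3 : (m + q0) / g = (m' + q0) / g := hmm
      rw [h3, h2] at h1
      omega
  have h6 : S.card ≤ (S \ B).card + B.card := by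
    have := card_le_card_sdiff_add_card (s := S) (t := B)
    exact this
  have h7 : (S.card : ℝ) ≤ T.card + G.card * (D + 1) := by
    have h8 : S.card ≤ T.card + G.card * (D + 1) := by omega
    exact_mod_cast h8
  have h9 : c / 2 * ((Nat.log 2 L : ℝ) / L * ((P : ℝ) / Q)) ≤ S.card := by
    refine le_trans ?_ hmain
    have h10 : (Nat.log 2 L : ℝ) / L ≤ 2 * ((Nat.log 2 L' : ℝ) / L') := by
      have hL'r : (L' : ℝ) ≤ 2 * L := by
        have : L' ≤ 2 * L := by omega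
        exact_mod_cast this
      have h11 : (Nat.log 2 L : ℝ) ≤ Nat.log 2 L' := by exact_mod_cast hlog3
      have hL'0 : (0 : ℝ) < L' := by
        have : 0 < L' := by omega
        exact_mod_cast this
      rw [← mul_div_assoc, div_le_div_iff₀ (by linarith) hL'0]
      nlinarith
    have h12 : 0 ≤ (P : ℝ) / Q := by positivity
    calc c / 2 * ((Nat.log 2 L : ℝ) / L * ((P : ℝ) / Q)) ≤
        c / 2 * ((2 * ((Nat.log 2 L' : ℝ) / L')) * ((P : ℝ) / Q)) := by gcongr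
      _ = _ := by ring
  linarith

end Pool.Agent.LLW
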