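import Pool.Agent.LLW.Defs
import Pool.Agent.Helper52.PrimeSums

/-!
# LLW/Rho: the density of the integers prime to the part of the modulus above `z`

Plan.  `φ(E)/E = ∏_{p ∈ prs w \ R, z < p} (1 - 1/p) ≥ ∏_{z < p ≤ w} (1 - 1/p)`
`= dens w / dens z` (if `z ≤ w`; `1` if `w ≤ z`) `≥ (exp(-9) / a) * (b log 2)`, where `w ≤ 2 ^ a`, `2 ^ b ≤ z`: `Helper52.prod_lower`,
`prod_upper`; `a ≤ log2 L + 1`, `b ≥ (ε/2) log2 L`.  (`Nat.totient_eq_mul_prod_factors`, compare `REC.count_one`.)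
-/

set_option autoImplicit false

open Finset Pool.Agent.REC

namespace Pool.Agent.LLW

private theorem Rho_tot (F : Finset ℕ) (hF : ∀ p ∈ F, p.Prime) :
    (Nat.totient (∏ p ∈ F, p) : ℝ) = ((∏ p ∈ F, p : ℕ) : ℝ) * ∏ p ∈ F, (1 - 1 / (p : ℝ)) := by
  have h2 := Nat.totient_eq_mul_prod_factors (∏ p ∈ F, p)
  have h3 : (∏ p ∈ F, p).primeFactors = F := Nat.primeFactors_prod hF
  rw [h3] at h2
  have h4 : (((Nat.totient (∏ p ∈ F, p) : ℕ) : ℚ) : ℝ) =
      ((((∏ p ∈ F, p : ℕ) : ℚ) * ∏ p ∈ F, (1 - (p : ℚ)⁻¹) : ℚ) : ℝ) := by rw [h2]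
  have h5 : (((Nat.totient (∏ p ∈ F, p) : ℕ) : ℚ) : ℝ) = (Nat.totient (∏ p ∈ F, p) : ℝ) :=
    Rat.cast_natCast _
  rw [← h5, h4, Rat.cast_mul, Rat.cast_natCast, Rat.cast_prod]
  congr 1
  refine Finset.prod_congr rfl fun p _ => ?_
  push_cast
  rw [one_div]

private theorem Rho_fac {p : ℕ} (hp : p.Prime) : 0 < 1 - 1 / (p : ℝ) ∧ 1 - 1 / (p : ℝ) ≤ 1 := by
  have h1 : (2 : ℝ) ≤ p := by exact_mod_cast hp.two_le
  have h2 : 1 / (p : ℝ) ≤ 1 / 2 := one_div_le_one_div_of_le (by norm_num) h1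
  have h3 : 0 < 1 / (p : ℝ) := by positivity
  constructor <;> linarith

private theorem Rho_sub {F G : Finset ℕ} (h : F ⊆ G) (hG : ∀ p ∈ G, p.Prime) :
    ∏ p ∈ G, (1 - 1 / (p : ℝ)) ≤ ∏ p ∈ F, (1 - 1 / (p : ℝ)) := by
  rw [← Finset.prod_sdiff h]
  have h1 : 0 < ∏ p ∈ F, (1 - 1 / (p : ℝ)) := Finset.prod_pos fun p hp => (Rho_fac (hG p (h hp))).1
  have h2 : ∏ p ∈ G \ F, (1 - 1 / (p : ℝ)) ≤ 1 :=
    Finset.prod_le_one (fun p hp => (Rho_fac (hG p (Finset.mem_sdiff.1 hp).1)).1.le)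
      fun p hp => (Rho_fac (hG p (Finset.mem_sdiff.1 hp).1)).2
  calc (∏ p ∈ G \ F, (1 - 1 / (p : ℝ))) * ∏ p ∈ F, (1 - 1 / (p : ℝ)) ≤ 1 * ∏ p ∈ F, (1 - 1 / (p : ℝ)) :=
        mul_le_mul_of_nonneg_right h2 h1.le
    _ = ∏ p ∈ F, (1 - 1 / (p : ℝ)) := one_mul _

private theorem Rho_pr (z : ℕ) : Pool.Agent.Helper52.pr 0 z = prs z := by
  ext q
  rw [Pool.Agent.Helper52.mem_pr, mem_prs]
  constructor
  · rintro ⟨_, h2, h3⟩
    exact ⟨h3, h2⟩
  · rintro ⟨h2, h3⟩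
    exact ⟨h2.pos, h3, h2⟩

private theorem Rho_mono {z w : ℕ} (h : z ≤ w) : prs z ⊆ prs w := fun _ hp =>
  mem_prs.2 ⟨(mem_prs.1 hp).1, (mem_prs.1 hp).2.trans h⟩

private theorem Rho_split {z w : ℕ} (h : z ≤ w) :
    (∏ p ∈ prs w \ prs z, (1 - 1 / (p : ℝ))) * REC.dens z = REC.dens w := by
  unfold REC.dens
  exact Finset.prod_sdiff (Rho_mono h)

theorem rho (ε : ℝ) (hε : 0 < ε) : ∃ ρ : ℝ, 0 < ρ ∧ ρ ≤ 1 ∧ ∃ L0 : ℕ,
    ∀ (L w z : ℕ) (R : Finset ℕ), L0 ≤ L → w ≤ L → (L : ℝ) ^ ε ≤ z →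
    ρ * ((∏ p ∈ (prs w \ R).filter (fun p => z < p), p : ℕ) : ℝ) ≤
      (Nat.totient (∏ p ∈ (prs w \ R).filter (fun p => z < p), p) : ℝ) := by
  have hl2 : 0 < Real.log 2 := Real.log_pos (by norm_num)
  have hc : 0 < Real.exp (-9) * (ε * Real.log 2 / 4) := by positivity
  refine ⟨min 1 (Real.exp (-9) * (ε * Real.log 2 / 4)), lt_min one_pos hc, min_le_left _ _,
    ⌈Real.exp (Real.log 2 + 2 * Real.log 2 / ε)⌉₊, ?_⟩
  intro L w z R hL hw hz
  have hF : ∀ p ∈ (prs w \ R).filter (fun p => z < p), p.Prime := fun p hp =>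
    (mem_prs.1 (Finset.mem_sdiff.1 (Finset.mem_filter.1 hp).1).1).1
  rw [Rho_tot _ hF, mul_comm]
  refine mul_le_mul_of_nonneg_left ?_ (Nat.cast_nonneg _)
  by_cases hzw : w ≤ z
  · have h1 : (prs w \ R).filter (fun p => z < p) = ∅ := by
      rw [Finset.filter_eq_empty_iff]
      intro p hp
      have h2 := (mem_prs.1 (Finset.mem_sdiff.1 hp).1).2
      omega
    rw [h1, Finset.prod_empty]
    exact min_le_left _ _
  rw [not_le] at hzw
  -- sizes
  have hLe : Real.exp (Real.log 2 + 2 * Real.log 2 / ε) ≤ L := Nat.ceil_le.1 hL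
  have hL0 : (0 : ℝ) < L := (Real.exp_pos _).trans_le hLe
  have hlogL : Real.log 2 + 2 * Real.log 2 / ε ≤ Real.log L := by
    have h1 := Real.log_le_log (Real.exp_pos _) hLe
    rwa [Real.log_exp] at h1
  have hq : 0 < 2 * Real.log 2 / ε := by positivity
  have hlL1 : Real.log 2 ≤ Real.log L := by linarith
  have hlL2 : 2 * Real.log 2 ≤ ε * Real.log L := by
    have h1 : 2 * Real.log 2 / ε ≤ Real.log L := by linarith
    rw [div_le_iff₀ hε] at h1
    linarith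
  have hlL : 0 < Real.log L := hl2.trans_le hlL1
  have hz0 : (0 : ℝ) < z := (Real.rpow_pos_of_pos hL0 ε).trans_le hz
  have hzN : z ≠ 0 := by
    intro h
    rw [h, Nat.cast_zero] at hz0
    exact lt_irrefl _ hz0
  have hlz : ε * Real.log L ≤ Real.log z := by
    have h1 := Real.log_le_log (Real.rpow_pos_of_pos hL0 ε) hz
    rwa [Real.log_rpow hL0] at h1
  -- b
  set b := Nat.log 2 z with hb
  have hb1 : 2 ^ b ≤ z := Nat.pow_log_le_self 2 hzN
  have hb2 : z < 2 ^ (b + 1) := Nat.lt_pow_succ_log_self (by norm_num) z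
  have hb3 : Real.log z ≤ (b + 1) * Real.log 2 := by
    have h1 : (z : ℝ) ≤ 2 ^ (b + 1) := by exact_mod_cast hb2.le
    have h2 := Real.log_le_log hz0 h1
    rw [Real.log_pow] at h2
    push_cast at h2
    exact h2
  have hb4 : ε * Real.log L / 2 ≤ b * Real.log 2 := by
    have h1 : ((b : ℝ) + 1) * Real.log 2 = b * Real.log 2 + Real.log 2 := by ring
    linarith
  have hb5 : 1 ≤ b := by
    rw [Nat.one_le_iff_ne_zero]
    intro h
    rw [h, Nat.cast_zero, zero_mul] at hb4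
    have h1 : 0 < ε * Real.log L / 2 := by positivity
    linarith
  -- a
  set a := Nat.log 2 w + 1 with ha
  have hwN : w ≠ 0 := by omega
  have ha1 : w ≤ 2 ^ a := (Nat.lt_pow_succ_log_self (by norm_num) w).le
  have ha2 : (Nat.log 2 w : ℝ) * Real.log 2 ≤ Real.log L := by
    have h1 : 2 ^ Nat.log 2 w ≤ L := (Nat.pow_log_le_self 2 hwN).trans hw
    have h2 : ((2 : ℝ)) ^ Nat.log 2 w ≤ L := by exact_mod_cast h1
    have h3 := Real.log_le_log (by positivity) h2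
    rwa [Real.log_pow] at h3
  have ha3 : (a : ℝ) * Real.log 2 ≤ 2 * Real.log L := by
    have h1 : (a : ℝ) = (Nat.log 2 w : ℝ) + 1 := by
      rw [ha]
      push_cast
      ring
    rw [h1, add_mul, one_mul]
    linarith
  have ha4 : 1 ≤ a := by omega
  have ha5 : (0 : ℝ) < a := by exact_mod_cast ha4
  -- the densities
  have hlo := Pool.Agent.Helper52.prod_lower ha4
  have hup := Pool.Agent.Helper52.prod_upper hb5
  rw [Rho_pr] at hlo hup
  have hdw : Real.exp (-9) / a ≤ REC.dens w :=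
    hlo.trans (Rho_sub (Rho_mono ha1) fun p hp => (mem_prs.1 hp).1)
  have hdz : REC.dens z ≤ 1 / (b * Real.log 2) :=
    (Rho_sub (Rho_mono hb1) fun p hp => (mem_prs.1 hp).1).trans hup
  have hbl : 0 < (b : ℝ) * Real.log 2 := by
    have h1 : 0 < ε * Real.log L / 2 := by positivity
    linarith
  have hsub : (prs w \ R).filter (fun p => z < p) ⊆ prs w \ prs z := by
    intro p hp
    obtain ⟨h1, h2⟩ := Finset.mem_filter.1 hp
    refine Finset.mem_sdiff.2 ⟨(Finset.mem_sdiff.1 h1).1, fun h3 => ?_⟩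
    have h4 := (mem_prs.1 h3).2
    omega
  refine le_trans ?_ (Rho_sub hsub fun p hp => (mem_prs.1 (Finset.mem_sdiff.1 hp).1).1)
  set Q := ∏ p ∈ prs w \ prs z, (1 - 1 / (p : ℝ)) with hQ
  have hQ0 : 0 < Q := Finset.prod_pos fun p hp => (Rho_fac (mem_prs.1 (Finset.mem_sdiff.1 hp).1).1).1
  have hs := Rho_split hzw.le
  rw [← hQ] at hs
  have h1 : Real.exp (-9) / a ≤ Q * (1 / (b * Real.log 2)) := by
    refine hdw.trans ?_
    rw [← hs]
    exact mul_le_mul_of_nonneg_left hdz hQ0.le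
  have h2 : Real.exp (-9) / a * (b * Real.log 2) ≤ Q := by
    have h3 := mul_le_mul_of_nonneg_right h1 hbl.le
    have h4 : Q * (1 / (b * Real.log 2)) * (b * Real.log 2) = Q := by
      field_simp
    rwa [h4] at h3
  refine (min_le_right _ _).trans (le_trans ?_ h2)
  have h5 : ε * Real.log 2 / 4 ≤ (b * Real.log 2) / a := by
    rw [le_div_iff₀ ha5]
    have h6 : ε * Real.log 2 / 4 * a = ε / 4 * (a * Real.log 2) := by ring
    rw [h6]
    have h7 : ε / 4 * (a * Real.log 2) ≤ ε / 4 * (2 * Real.log L) :=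
      mul_le_mul_of_nonneg_left ha3 (by positivity)
    have h8 : ε / 4 * (2 * Real.log L) = ε * Real.log L / 2 := by ring
    linarith
  calc Real.exp (-9) * (ε * Real.log 2 / 4) ≤ Real.exp (-9) * ((b * Real.log 2) / a) :=
        mul_le_mul_of_nonneg_left h5 (Real.exp_pos _).le
    _ = Real.exp (-9) / a * (b * Real.log 2) := by ring

end Pool.Agent.LLW
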