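import Pool.Agent.LLW.ModO
import Pool.Agent.LLW.Grp
import Pool.Agent.LLW.CmpB
import Pool.Agent.LLW.Rho
import Pool.Agent.LLW.Bas

/-!
# LLW/Main: the lower bound (3) of LL81.md
-/

set_option autoImplicit false

open Finset Pool.Agent.REC Pool.Agent.AT Filter

namespace Pool.Agent.LLW

/-- comparison of the two logarithmic scales -/
theorem low_num : ∃ H0 : ℕ, ∀ H : ℕ, H0 ≤ H → 2 ≤ Real.log H ∧ Real.log H ≤ (H / 8 : ℕ) ∧
    (Nat.log 2 (H / 8) : ℝ) ≤ 2 * Real.log H ∧ 0 < Real.log (Real.log H) ∧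
    Real.log (Real.log H) ≤ (Nat.log 2 (Nat.log 2 (H / 8)) : ℝ) := by
  have h1 := (Real.isLittleO_log_id_atTop.bound (show (0 : ℝ) < 1 / 16 by norm_num))
  have h2 := (tendsto_natCast_atTop_atTop (R := ℝ)).eventually h1
  have hlog := Real.tendsto_log_atTop.comp (tendsto_natCast_atTop_atTop (R := ℝ))
  have hloglog := Real.tendsto_log_atTop.comp hlog
  obtain ⟨H0, hH0⟩ := eventually_atTop.1 (h2.and ((eventually_ge_atTop 16).and
    ((hlog.eventually_ge_atTop 20).and (hloglog.eventually_ge_atTop 4))))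
  refine ⟨H0, fun H hH => ?_⟩
  obtain ⟨h3, h16, h4, h5⟩ := hH0 H hH
  simp only [Function.comp, id] at h3 h4 h5
  have hHr : (16 : ℝ) ≤ H := by exact_mod_cast h16
  rw [Real.norm_of_nonneg (by linarith), Real.norm_of_nonneg (by linarith)] at h3
  obtain ⟨P, hP⟩ : ∃ P : ℕ, P = H / 8 := ⟨_, rfl⟩
  rw [← hP]
  have hPH : H ≤ 8 * P + 7 := by omega
  have hPH2 : 8 * P ≤ H := by omega
  have hPr : (H : ℝ) ≤ 16 * P := by
    have : H ≤ 16 * P := by omega
    exact_mod_cast this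
  have hPr2 : 8 * (P : ℝ) ≤ H := by exact_mod_cast hPH2
  have hP0 : (0 : ℝ) < P := by linarith
  have hP1 : P ≠ 0 := by
    rintro rfl
    simp at hP0
  have l2 := Real.log_two_gt_d9
  have l2' := Real.log_two_lt_d9
  -- `L = log2 P`
  obtain ⟨L, hL⟩ : ∃ L : ℕ, L = Nat.log 2 P := ⟨_, rfl⟩
  rw [← hL]
  have e1 : (L : ℝ) * Real.log 2 ≤ Real.log P := by
    have h6 : ((2 ^ L : ℕ) : ℝ) ≤ (P : ℝ) := by
      rw [hL]
      exact_mod_cast Nat.pow_log_le_self 2 hP1
    have h7 := Real.log_le_log (by positivity) h6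
    push_cast at h7
    rwa [Real.log_pow] at h7
  have e2 : Real.log P ≤ ((L : ℝ) + 1) * Real.log 2 := by
    have h6 : (P : ℝ) ≤ ((2 ^ (L + 1) : ℕ) : ℝ) := by
      rw [hL]
      exact_mod_cast (Nat.lt_pow_succ_log_self (by norm_num) P).le
    have h7 := Real.log_le_log hP0 h6
    push_cast at h7
    rw [Real.log_pow] at h7
    push_cast at h7
    exact h7
  have e3 : Real.log P ≤ Real.log H := Real.log_le_log hP0 (by linarith)
  have e4 : Real.log H ≤ Real.log P + 4 * Real.log 2 := by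
    have h7 := Real.log_le_log (by linarith) hPr
    rw [Real.log_mul (by norm_num) hP0.ne', show (16 : ℝ) = 2 ^ 4 by norm_num, Real.log_pow] at h7
    push_cast at h7
    linarith
  have hL0 : (0 : ℝ) ≤ L := Nat.cast_nonneg L
  have e5 : (L : ℝ) ≤ 2 * Real.log H := by nlinarith
  have e6 : Real.log H ≤ L := by
    have f1 : Real.log H ≤ (L : ℝ) * Real.log 2 + 5 * Real.log 2 := by linarith
    have f2 : (L : ℝ) * Real.log 2 ≤ L * 0.7 := mul_le_mul_of_nonneg_left (by linarith) hL0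
    have f3 : 5 * Real.log 2 ≤ 3.5 := by linarith
    linarith
  refine ⟨by linarith, by linarith, e5, by linarith, ?_⟩
  -- `l = log2 L`
  obtain ⟨l, hl⟩ : ∃ l : ℕ, l = Nat.log 2 L := ⟨_, rfl⟩
  rw [← hl]
  have hLpos : (0 : ℝ) < L := by linarith
  have e7 : Real.log L ≤ ((l : ℝ) + 1) * Real.log 2 := by
    have h6 : (L : ℝ) ≤ ((2 ^ (l + 1) : ℕ) : ℝ) := by
      rw [hl]
      exact_mod_cast (Nat.lt_pow_succ_log_self (by norm_num) L).le
    have h7 := Real.log_le_log hLpos h6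
    push_cast at h7
    rw [Real.log_pow] at h7
    push_cast at h7
    exact h7
  have e8 : Real.log (Real.log H) ≤ Real.log L := Real.log_le_log (by linarith) e6
  have hl0 : (0 : ℝ) ≤ l := Nat.cast_nonneg l
  nlinarith

theorem low (ε : ℝ) (hε : 0 < ε) : ∃ c : ℝ, 0 < c ∧ ∃ H0 : ℕ, ∀ H : ℕ, H0 ≤ H →
    ∀ (g z : ℕ) (A : Finset ℕ), (g = 1 ∨ g = 2) → Real.log H ^ ε ≤ z →
    (z : ℝ) ≤ Real.log H → (∀ a ∈ A, 2 * a ≤ (2 * g - 1) * H) → (g = 2 → ∀ a ∈ A, Odd a) →
    c * ∑ n ∈ Icc 1 H, min 1 (lm H (Vs g A (pmod z) n).card) ≤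
      (((Icc 1 H).filter (fun n => max 1 (c * lm H (Vs g A (pmod z) n).card) ≤
        ((Ws g z A n).card : ℝ))).card : ℝ) := by
  classical
  obtain ⟨κ, hκ, P1, hmod⟩ := modO
  obtain ⟨c1, hc1, P2, hcls⟩ := cls κ hκ
  obtain ⟨ρ, hρ, hρ1, L0, hrho⟩ := rho (ε / 2) (by positivity)
  obtain ⟨H1, hnum⟩ := low_num
  refine ⟨min (c1 * (ρ / 2) ^ 2 / 32) (c1 * (ρ / 2) / 2), lt_min (by positivity) (by positivity),
    max H1 (max (8 * P1) (max (8 * P2) (8 * 2 ^ L0))), ?_⟩
  intro H hH g z A hg hzε hz hA hodd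
  obtain ⟨n1, n2, n3, n4, n5⟩ := hnum H ((le_max_left _ _).trans hH)
  obtain ⟨P, hP⟩ : ∃ P : ℕ, P = H / 8 := ⟨_, rfl⟩
  rw [← hP] at n2 n3 n5
  have hPH : H ≤ 8 * P + 7 := by omega
  have hPH2 : 8 * P ≤ H := by omega
  have hH' := (le_max_right _ _).trans hH
  have hP1 : P1 ≤ P := by
    have := (le_max_left _ _).trans hH'
    omega
  have hP2 : P2 ≤ P := by
    have := (le_max_left _ _).trans ((le_max_right _ _).trans hH')
    omega
  have hP3 : 2 ^ L0 ≤ P := by
    have := (le_max_right _ _).trans ((le_max_right _ _).trans hH')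
    omega
  obtain ⟨L, hL⟩ : ∃ L : ℕ, L = Nat.log 2 P := ⟨_, rfl⟩
  rw [← hL] at n3 n5
  have hL0 : L0 ≤ L := by rw [hL]; exact ga_log hP3
  have hP0r : (2 : ℝ) ≤ P := n1.trans n2
  obtain ⟨w, R, hwL, h2R, hMP, hpsi⟩ := hmod P hP1 L hL
  -- the moduli
  obtain ⟨Q, hQ⟩ : ∃ Q : ℕ, Q = Mod w R := ⟨_, rfl⟩
  rw [← hQ] at hMP hpsi
  obtain ⟨E, hE⟩ : ∃ E : ℕ, E = ∏ p ∈ (prs w \ R).filter (fun p => z < p), p := ⟨_, rfl⟩
  obtain ⟨D, hD⟩ : ∃ D : ℕ, D = ∏ p ∈ (prs w \ R).filter (fun p => ¬ z < p), p := ⟨_, rfl⟩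
  have hQDE : Q = D * E := by
    rw [hQ, hD, hE, REC.Mod, mul_comm]
    exact (prod_filter_mul_prod_filter_not _ _ _).symm
  have hprime : ∀ p ∈ prs w \ R, p.Prime := fun p hp => (mem_prs.1 (mem_sdiff.1 hp).1).1
  have hne2 : ∀ p ∈ prs w \ R, p ≠ 2 := by
    rintro p hp rfl
    exact (mem_sdiff.1 hp).2 h2R
  have hD0 : 0 < D := by
    rw [hD]
    exact prod_pos fun p hp => (hprime p (mem_filter.1 hp).1).pos
  have hE0 : 0 < E := by
    rw [hE]
    exact prod_pos fun p hp => (hprime p (mem_filter.1 hp).1).pos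
  have hQ0 : 0 < Q := by rw [hQDE]; exact Nat.mul_pos hD0 hE0
  have hQodd : Odd Q := by
    rw [hQ, ← Nat.not_even_iff_odd, even_iff_two_dvd, prime_dvd_Mod Nat.prime_two]
    exact fun h => h.2 h2R
  have hDE : Nat.Coprime D E := by
    rw [hD, hE]
    refine Nat.Coprime.prod_left fun p hp => Nat.Coprime.prod_right fun q hq => ?_
    rw [mem_filter] at hp hq
    rw [Nat.coprime_primes (hprime p hp.1) (hprime q hq.1)]
    rintro rfl
    exact hp.2 hq.2
  have hgE : Nat.Coprime g E := by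
    rcases hg with rfl | rfl
    · simp
    · rw [hE]
      refine Nat.Coprime.prod_right fun q hq => ?_
      rw [mem_filter] at hq
      rw [Nat.coprime_primes Nat.prime_two (hprime q hq.1)]
      exact (hne2 q hq.1).symm
  have hDz : D ∣ pmod z := by
    rw [hD]
    unfold pmod
    refine Finset.prod_dvd_prod_of_subset _ _ _ fun p hp => ?_
    rw [mem_filter] at hp
    exact mem_prs.2 ⟨hprime p hp.1, not_lt.1 hp.2⟩
  -- the density
  have hρE : ρ * (E : ℝ) ≤ E.totient := by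
    rw [hE]
    refine hrho L w z R hL0 hwL (le_trans ?_ hzε)
    have h1 : (L : ℝ) ≤ Real.log H ^ (2 : ℝ) := by
      rw [Real.rpow_two]
      nlinarith
    calc (L : ℝ) ^ (ε / 2) ≤ (Real.log H ^ (2 : ℝ)) ^ (ε / 2) :=
          Real.rpow_le_rpow (Nat.cast_nonneg _) h1 (by positivity)
      _ = Real.log H ^ ε := by
          rw [← Real.rpow_mul (by linarith)]
          congr 1
          ring
  -- the class lemma
  have hzP : z ≤ P := by
    have : (z : ℝ) ≤ P := hz.trans n2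
    exact_mod_cast this
  obtain ⟨t, ht⟩ : ∃ t : ℝ, t = (Nat.log 2 L : ℝ) / L := ⟨_, rfl⟩
  have hcls' := hcls P L Q g hP2 hL hg hQodd
    (fun q hq hLq => by
      rw [Nat.coprime_comm, Nat.Prime.coprime_iff_not_dvd hq, hQ, prime_dvd_Mod hq]
      rintro ⟨h1, -⟩
      omega) hMP hpsi H
  have hA4 : ∀ a ∈ A, 4 * P + a ≤ g * H := by
    intro a ha
    have := hA a ha
    rcases hg with rfl | rfl <;> omega
  have hQr : (Q : ℝ) = (D : ℝ) * E := by rw [hQDE]; push_cast; rfl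
  have hD0r : (0 : ℝ) < D := by exact_mod_cast hD0
  have hDP : (D : ℝ) ≤ P := by
    have h1 : (D : ℝ) ≤ Q := by
      have : D ≤ Q := by rw [hQDE]; exact Nat.le_mul_of_pos_right D hE0
      exact_mod_cast this
    refine h1.trans (hMP.trans ?_)
    calc (P : ℝ) ^ (1 / 1000 : ℝ) ≤ (P : ℝ) ^ (1 : ℝ) :=
          Real.rpow_le_rpow_of_exponent_le (by linarith) (by norm_num)
      _ = P := Real.rpow_one _
  have h3 := trn3 (g := g) (D := D) (E := E) (N := H) (ρ := ρ) (c := c1) (t := t) (X := (P : ℝ))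
    (C := 16) hρ hρ1 hρE hgE hD0 hE0 hDE A (fun n => (Ws g z A n).card) hc1
    (by rw [ht]; positivity) (by linarith) (by norm_num)
    (by
      intro β
      have h4 := hcls' β z A hzP (by omega) hA4 hodd
      rw [hQr, hQDE, ← ht] at h4
      exact h4)
    (by
      have h5 : (H : ℝ) ≤ 8 * P + 7 := by exact_mod_cast hPH
      rw [← mul_div_assoc, div_add_one hD0r.ne']
      apply div_le_div_of_nonneg_right _ hD0r.le
      linarith)
  -- conclusion
  obtain ⟨c, hc⟩ : ∃ c : ℝ, c = min (c1 * (ρ / 2) ^ 2 / 32) (c1 * (ρ / 2) / 2) := ⟨_, rfl⟩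
  rw [← hc]
  have hcl1 : c ≤ c1 * (ρ / 2) ^ 2 / 32 := by rw [hc]; exact min_le_left _ _
  have hcl2 : c ≤ c1 * (ρ / 2) / 2 := by rw [hc]; exact min_le_right _ _
  have hc0 : 0 < c := by rw [hc]; exact lt_min (by positivity) (by positivity)
  have hlm : ∀ n : ℕ, lm H (Vs g A (pmod z) n).card ≤ 2 * (t * (Vs g A D n).card) := by
    intro n
    have h6 : ((Vs g A (pmod z) n).card : ℝ) ≤ (Vs g A D n).card := by
      have : Vs g A (pmod z) n ⊆ Vs g A D n := by
        obtain ⟨x, hx⟩ := hDz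
        rw [hx]
        exact Vs_mul_subset A
      exact_mod_cast card_le_card this
    have hLpos : (0 : ℝ) < L := by
      have : Nat.log 2 L ≤ L := Nat.log_le_self 2 L
      have : (Nat.log 2 L : ℝ) ≤ L := by exact_mod_cast this
      linarith
    have h7 : Real.log (Real.log H) / Real.log H ≤ 2 * t := by
      rw [ht, ← mul_div_assoc, div_le_div_iff₀ (by linarith) hLpos]
      nlinarith
    unfold lm
    calc ((Vs g A (pmod z) n).card : ℝ) * Real.log (Real.log H) / Real.log H =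
        ((Vs g A (pmod z) n).card : ℝ) * (Real.log (Real.log H) / Real.log H) := by ring
      _ ≤ (Vs g A D n).card * (2 * t) := by
          apply mul_le_mul h6 h7 _ (Nat.cast_nonneg _)
          exact div_nonneg n4.le (by linarith)
      _ = _ := by ring
  have hlm0 : ∀ n : ℕ, 0 ≤ lm H (Vs g A (pmod z) n).card := by
    intro n
    unfold lm
    have : 0 ≤ Real.log H := by linarith
    positivity
  have h8 : c * ∑ n ∈ Icc 1 H, min 1 (lm H (Vs g A (pmod z) n).card) ≤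
      c1 * (ρ / 2) ^ 2 / 16 * ∑ n ∈ Icc 1 H, min 1 (t * ((Vs g A D n).card : ℝ)) := by
    rw [mul_sum, mul_sum]
    refine sum_le_sum fun n _ => ?_
    have h9 : min 1 (lm H (Vs g A (pmod z) n).card) ≤
        2 * min 1 (t * ((Vs g A D n).card : ℝ)) := by
      have h10 := hlm n
      rcases le_total 1 (t * ((Vs g A D n).card : ℝ)) with h | h
      · rw [min_eq_left h]
        exact (min_le_left _ _).trans (by norm_num)
      · rw [min_eq_right h]
        exact (min_le_right _ _).trans h10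
    have h11 : 0 ≤ min 1 (lm H (Vs g A (pmod z) n).card) := le_min zero_le_one (hlm0 n)
    calc c * min 1 (lm H (Vs g A (pmod z) n).card) ≤
        c1 * (ρ / 2) ^ 2 / 32 * (2 * min 1 (t * ((Vs g A D n).card : ℝ))) :=
          mul_le_mul hcl1 h9 h11 (by positivity)
      _ = _ := by ring
  refine (h8.trans h3).trans ?_
  have h12 : ((Icc 1 H).filter (fun n =>
        max 1 (c1 * (ρ / 2) * (t * (Vs g A D n).card)) ≤ ((Ws g z A n).card : ℝ))) ⊆
      ((Icc 1 H).filter (fun n => max 1 (c * lm H (Vs g A (pmod z) n).card) ≤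
        ((Ws g z A n).card : ℝ))) := by
    intro n hn
    rw [mem_filter] at hn ⊢
    refine ⟨hn.1, max_le ((le_max_left _ _).trans hn.2) (le_trans ?_
      ((le_max_right _ _).trans hn.2))⟩
    have h10 := hlm n
    calc c * lm H (Vs g A (pmod z) n).card ≤
        c1 * (ρ / 2) / 2 * (2 * (t * (Vs g A D n).card)) :=
          mul_le_mul hcl2 h10 (hlm0 n) (by positivity)
      _ = _ := by ring
  exact_mod_cast card_le_card h12

end Pool.Agent.LLW
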