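import Pool.Agent.ISO.ModX

/-!
# LLW/ModO: the odd modulus, from `ISO.mod_X`

`mod_X` gives `w, R0`; take `R := insert 2 R0`, `Q := Mod w R` (odd).  If `2 ∈ R0` nothing changes.
Else `Mod w R0 = 2 Q`; for `r` prime to `Q` let `r' ∈ {r, r + Q}` be odd: it is prime to `2 Q`, and
`psi (2 Q) r' P ≤ psi Q r P`; `P / (2 Q) = (1/2) P / Q`, so `κ := κ0 / 2`.
-/

set_option autoImplicit false

open Finset Pool.Agent.REC Pool.Agent.AT

namespace Pool.Agent.LLW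

private theorem ModO_double {w : ℕ} (hw : 2 ≤ w) {R0 : Finset ℕ} (h : 2 ∉ R0) :
    Mod w R0 = 2 * Mod w (insert 2 R0) := by
  have h2 : prs w \ R0 = insert 2 (prs w \ insert 2 R0) := by
    ext q
    simp only [mem_sdiff, mem_insert]
    constructor
    · rintro ⟨a1, a2⟩
      by_cases hq : q = 2
      · exact Or.inl hq
      · refine Or.inr ⟨a1, ?_⟩
        rintro (a3 | a3)
        · exact hq a3
        · exact a2 a3
    · rintro (a1 | ⟨a1, a2⟩)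
      · subst a1
        exact ⟨mem_prs.2 ⟨Nat.prime_two, hw⟩, h⟩
      · exact ⟨a1, fun a3 => a2 (Or.inr a3)⟩
  unfold Pool.Agent.REC.Mod
  rw [h2, prod_insert]
  exact fun a => (mem_sdiff.1 a).2 (mem_insert_self _ _)

private theorem ModO_odd (w : ℕ) (R0 : Finset ℕ) : Nat.Coprime 2 (Mod w (insert 2 R0)) := by
  unfold Pool.Agent.REC.Mod
  refine Nat.Coprime.prod_right fun q hq => ?_
  have h1 := mem_sdiff.1 hq
  have h2 := mem_prs.1 h1.1
  refine (Nat.coprime_primes Nat.prime_two h2.1).2 fun e => h1.2 ?_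
  rw [← e]
  exact mem_insert_self _ _

private theorem ModO_psi_le {Q r r' P : ℕ} (h : r' ≡ r [MOD Q]) : psi (2 * Q) r' P ≤ psi Q r P := by
  unfold Pool.Agent.AT.psi
  refine sum_le_sum_of_subset_of_nonneg (fun m hm => ?_)
    fun _ _ _ => ArithmeticFunction.vonMangoldt_nonneg
  have h1 := mem_filter.1 hm
  refine mem_filter.2 ⟨h1.1, ?_⟩
  exact (Nat.ModEq.of_mul_left 2 h1.2).trans h

theorem modO : ∃ κ : ℝ, 0 < κ ∧ ∃ P0 : ℕ, ∀ P : ℕ, P0 ≤ P → ∀ L : ℕ, L = Nat.log 2 P →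
    ∃ (w : ℕ) (R : Finset ℕ), w ≤ L ∧ 2 ∈ R ∧
      ((Mod w R : ℕ) : ℝ) ≤ (P : ℝ) ^ (1 / 1000 : ℝ) ∧
      ∀ r : ℕ, r.Coprime (Mod w R) →
        κ * ((P : ℝ) / (Mod w R : ℝ)) * (Nat.log 2 L : ℝ) ≤ psi (Mod w R) r P := by
  obtain ⟨κ0, hκ0, P0, h⟩ := Pool.Agent.ISO.mod_X
  refine ⟨κ0 / 2, by positivity, P0, fun P hP L hL => ?_⟩
  obtain ⟨w, R0, hw, hwL, -, -, hM, -, hpsi⟩ := h P hP L hL
  refine ⟨w, insert 2 R0, hwL, mem_insert_self _ _, ?_⟩
  by_cases h2 : 2 ∈ R0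
  · rw [insert_eq_of_mem h2]
    refine ⟨hM, fun r hr => le_trans ?_ (hpsi r hr)⟩
    have h3 : 0 ≤ κ0 * ((P : ℝ) / (Mod w R0 : ℝ)) * (Nat.log 2 L : ℝ) := by positivity
    have h4 : κ0 / 2 * ((P : ℝ) / (Mod w R0 : ℝ)) * (Nat.log 2 L : ℝ) =
        (κ0 * ((P : ℝ) / (Mod w R0 : ℝ)) * (Nat.log 2 L : ℝ)) / 2 := by ring
    rw [h4]
    linarith
  · have hd := ModO_double hw h2
    have ho := ModO_odd w R0
    obtain ⟨Q, hQ⟩ : ∃ Q : ℕ, Q = Mod w (insert 2 R0) := ⟨_, rfl⟩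
    rw [← hQ] at hd ho ⊢
    rw [hd] at hM hpsi
    have hQ0 : Q ≠ 0 := by
      rintro rfl
      norm_num at ho
    refine ⟨le_trans ?_ hM, fun r hr => ?_⟩
    · exact_mod_cast Nat.le_mul_of_pos_left Q (by norm_num)
    · have hQodd : Odd Q := by
        rw [Nat.coprime_two_left] at ho
        exact ho
      obtain ⟨r', hr1, hr2⟩ : ∃ r' : ℕ, Odd r' ∧ r' ≡ r [MOD Q] := by
        by_cases hodd : Odd r
        · exact ⟨r, hodd, Nat.ModEq.refl r⟩
        · refine ⟨r + Q, (Nat.not_odd_iff_even.1 hodd).add_odd hQodd, ?_⟩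
          exact Nat.add_modEq_right
      have hc : r'.Coprime (2 * Q) := by
        refine Nat.Coprime.mul_right ?_ ?_
        · exact (Nat.coprime_two_right).2 hr1
        · have h5 := hr2.gcd_eq
          unfold Nat.Coprime at hr ⊢
          rw [h5, hr]
      refine le_trans ?_ ((hpsi r' hc).trans (ModO_psi_le hr2))
      refine le_of_eq ?_
      have hQr : (Q : ℝ) ≠ 0 := by exact_mod_cast hQ0
      push_cast
      field_simp

end Pool.Agent.LLW
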