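import Pool.Agent.Helper24.SieveDensity

/-!
# LLW/Up: the Brun-Titchmarsh inequality in an interval of any position

Selberg's sieve (`Pool.Agent.Helper24.residue_sieve`) for the numbers `m = p / q`, `p ≡ a` modulo `q`:
the forbidden class modulo a prime `l` is the root of `q c + r = 0`, `r = a % q` (no class for `l ∣ q`).
A variation of Pool/Agent/BDN/BT.lean.
-/

open Finset

namespace Pool.Agent.LLW

/-- the forbidden classes -/
private def btΩ (q r l : ℕ) : Finset ℕ := (range l).filter (fun c => l ∣ q * c + r)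

private theorem mem_btΩ {q r l c : ℕ} : c ∈ btΩ q r l ↔ c < l ∧ l ∣ q * c + r := by
  rw [btΩ, mem_filter, mem_range]

private theorem card_btΩ_le {q r : ℕ} (hqr : Nat.Coprime q r) {l : ℕ} (hl : l.Prime) :
    (btΩ q r l).card ≤ 1 := by
  rw [card_le_one]
  intro c hc d hd
  rw [mem_btΩ] at hc hd
  have hlq : ¬ l ∣ q := by
    intro h
    have h1 : l ∣ r := (Nat.dvd_add_right (h.mul_right c)).1 hc.2
    exact hl.one_lt.ne' (Nat.eq_one_of_dvd_coprimes hqr h h1)
  have h3 : q * c + r ≡ q * d + r [MOD l] :=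
    (Nat.modEq_zero_iff_dvd.2 hc.2).trans (Nat.modEq_zero_iff_dvd.2 hd.2).symm
  have h4 : q * c ≡ q * d [MOD l] := Nat.ModEq.add_right_cancel' r h3
  have h5 : c ≡ d [MOD l] :=
    Nat.ModEq.cancel_left_of_coprime ((Nat.Prime.coprime_iff_not_dvd hl).2 hlq) h4
  have h6 : c % l = d % l := h5
  rwa [Nat.mod_eq_of_lt hc.1, Nat.mod_eq_of_lt hd.1] at h6

private theorem card_btΩ_lt {q r : ℕ} (hqr : Nat.Coprime q r) {l : ℕ} (hl : l.Prime) :
    (btΩ q r l).card < l :=
  lt_of_le_of_lt (card_btΩ_le hqr hl) hl.one_lt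

private theorem card_btΩ_pos {q : ℕ} (r : ℕ) {l : ℕ} (hl : l.Prime) (hne : ¬ l ∣ q) :
    1 ≤ (btΩ q r l).card := by
  haveI : Fact l.Prime := ⟨hl⟩
  rw [Nat.one_le_iff_ne_zero, card_ne_zero]
  have hq0 : (q : ZMod l) ≠ 0 := by
    intro h
    rw [ZMod.natCast_eq_zero_iff] at h
    exact hne h
  refine ⟨(-(r : ZMod l) * (q : ZMod l)⁻¹).val, mem_btΩ.2 ⟨ZMod.val_lt _, ?_⟩⟩
  rw [← ZMod.natCast_eq_zero_iff]
  push_cast
  rw [ZMod.natCast_zmod_val, mul_comm (-(r : ZMod l)), ← mul_assoc, mul_inv_cancel₀ hq0]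
  ring

private theorem totient_prod {q : ℕ} :
    (Nat.totient q : ℝ) * ∏ p ∈ q.primeFactors, (1 + 1 / (p : ℝ)) ≤ q := by
  have h1 : (Nat.totient q : ℝ) = q * ∏ p ∈ q.primeFactors, (1 - (p : ℝ)⁻¹) := by
    have h := Nat.totient_eq_mul_prod_factors q
    have h2 := congrArg (fun z : ℚ => (z : ℝ)) h
    push_cast at h2
    exact h2
  rw [h1, mul_assoc, ← prod_mul_distrib]
  have h2 : ∏ p ∈ q.primeFactors, ((1 - (p : ℝ)⁻¹) * (1 + 1 / (p : ℝ))) ≤ 1 := by
    refine prod_le_one (fun p hp => ?_) fun p hp => ?_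
    · have hp1 : (1 : ℝ) < p := by
        exact_mod_cast (Nat.prime_of_mem_primeFactors hp).one_lt
      have hi : (p : ℝ)⁻¹ ≤ 1 := inv_le_one_of_one_le₀ hp1.le
      have h0 : (0 : ℝ) ≤ 1 + 1 / (p : ℝ) := by positivity
      exact mul_nonneg (by linarith) h0
    · rw [one_div]
      nlinarith [sq_nonneg ((p : ℝ)⁻¹)]
  have hq : (0 : ℝ) ≤ q := Nat.cast_nonneg _
  calc (q : ℝ) * ∏ p ∈ q.primeFactors, ((1 - (p : ℝ)⁻¹) * (1 + 1 / (p : ℝ)))
      ≤ q * 1 := mul_le_mul_of_nonneg_left h2 hq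
    _ = q := mul_one _

open Pool.Agent.Helper24 in
private theorem bt_density {q r : ℕ} (hq : 0 < q) (hqr : Nat.Coprime q r) (Y : ℕ) :
    (Nat.totient q : ℝ) * Real.log Y ≤
      2 * q * ∑ l ∈ (Icc 1 Y).filter Squarefree, hterm (btΩ q r) l := by
  have h1 := log_le_two_mul_Fsum_inv Y
  set g : ℕ → ℝ := fun p => ((btΩ q r p).card : ℝ) / ((p : ℝ) - (btΩ q r p).card) with hg
  have hg0 : ∀ p, p.Prime → p ≤ Y → 0 ≤ g p := by
    intro p hp _
    have : ((btΩ q r p).card : ℝ) < p := by exact_mod_cast card_btΩ_lt hqr hp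
    have : (0 : ℝ) < (p : ℝ) - (btΩ q r p).card := sub_pos.2 this
    rw [hg]; positivity
  have h2 : Fsum Y (fun p => 1 / (p : ℝ)) ≤
      Fsum Y (fun p => g p + if p ∈ q.primeFactors then 1 / (p : ℝ) else 0) := by
    refine Fsum_mono _ (fun p _ _ => by positivity) fun p hp hpY => ?_
    have hp0 : (0 : ℝ) < p := by exact_mod_cast hp.pos
    by_cases h : p ∈ q.primeFactors
    · rw [if_pos h]
      have := hg0 p hp hpY
      linarith
    · rw [if_neg h, add_zero, hg]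
      simp only
      have hnd : ¬ p ∣ q := fun hd => h (Nat.mem_primeFactors.2 ⟨hp, hd, hq.ne'⟩)
      have h3 : (1 : ℝ) ≤ (btΩ q r p).card := by exact_mod_cast card_btΩ_pos r hp hnd
      have h4 : ((btΩ q r p).card : ℝ) < p := by exact_mod_cast card_btΩ_lt hqr hp
      have h5 : (0 : ℝ) < (p : ℝ) - (btΩ q r p).card := sub_pos.2 h4
      rw [div_le_div_iff₀ hp0 h5]
      nlinarith
  have h3 := Fsum_add_le Y hg0 q.primeFactors (fun p hp => Nat.prime_of_mem_primeFactors hp)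
    (fun p => 1 / (p : ℝ)) (fun p _ => by positivity)
  have h5 : 0 ≤ Fsum Y g := by
    have h6 := Fsum_mono Y (g := fun _ => 0) (g' := g) (fun p _ _ => le_rfl) hg0
    refine le_trans ?_ h6
    exact sum_nonneg fun l _ => prod_nonneg fun p _ => le_rfl
  have h7 : Fsum Y g = ∑ l ∈ (Icc 1 Y).filter Squarefree, hterm (btΩ q r) l := rfl
  rw [← h7]
  have h8 := totient_prod (q := q)
  have hφ : (0 : ℝ) ≤ Nat.totient q := Nat.cast_nonneg _
  calc (Nat.totient q : ℝ) * Real.log Y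
      ≤ (Nat.totient q : ℝ) * (2 * ((∏ p ∈ q.primeFactors, (1 + 1 / (p : ℝ))) * Fsum Y g)) := by
        refine mul_le_mul_of_nonneg_left ?_ hφ
        linarith
    _ = 2 * ((Nat.totient q : ℝ) * ∏ p ∈ q.primeFactors, (1 + 1 / (p : ℝ))) * Fsum Y g := by
        ring
    _ ≤ 2 * q * Fsum Y g := by
        refine mul_le_mul_of_nonneg_right ?_ h5
        linarith


/-- the primes used -/
private def btS (q r u X Y : ℕ) : Finset ℕ :=
  (Ioc u (u + X)).filter (fun p => ((p.Prime ∧ Y < p) ∧ q ≤ p) ∧ p % q = r)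

private theorem btS_image {q r u X Y : ℕ} (hq : 0 < q) (hqX : q ≤ X) :
    ((btS q r u X Y).image (fun p => p / q)).card = (btS q r u X Y).card ∧
    (btS q r u X Y).image (fun p => p / q) ⊆
      Ioc (u / q - 1) (u / q - 1 + ((u + X) / q - u / q + 1)) ∧
    ((((u + X) / q - u / q + 1 : ℕ)) : ℝ) ≤ 3 * ((X : ℝ) / q) := by
  have h2 : u / q ≤ (u + X) / q := Nat.div_le_div_right (by omega)
  refine ⟨?_, ?_, ?_⟩
  · refine card_image_of_injOn ?_
    intro p hp s hs hps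
    rw [mem_coe, btS, mem_filter] at hp hs
    have e1 := Nat.div_add_mod p q
    have e2 := Nat.div_add_mod s q
    have h6 : p / q = s / q := hps
    rw [hp.2.2] at e1
    rw [hs.2.2] at e2
    rw [← e1, ← e2, h6]
  · intro m hm
    rw [mem_image] at hm
    obtain ⟨p, hp, rfl⟩ := hm
    rw [btS, mem_filter, mem_Ioc] at hp
    have h3 : u / q ≤ p / q := Nat.div_le_div_right hp.1.1.le
    have h4 : p / q ≤ (u + X) / q := Nat.div_le_div_right hp.1.2
    have h5 : 1 ≤ p / q := Nat.div_pos hp.2.1.2 hq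
    rw [mem_Ioc]
    omega
  · have hq0 : (0 : ℝ) < q := by exact_mod_cast hq
    have h3 : (u + X) / q ≤ u / q + X / q + 1 := by
      have h4 := Nat.lt_div_mul_add (a := u) hq
      have h5 := Nat.lt_div_mul_add (a := X) hq
      have h6 : u + X < (u / q + X / q + 2) * q := by nlinarith
      have h7 := (Nat.div_lt_iff_lt_mul hq).2 h6
      omega
    have h4 : (u + X) / q - u / q + 1 ≤ X / q + 2 := by omega
    have h5 : ((X / q : ℕ) : ℝ) ≤ (X : ℝ) / q := Nat.cast_div_le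
    have h6 : (1 : ℝ) ≤ (X : ℝ) / q := by
      rw [le_div_iff₀ hq0, one_mul]
      exact_mod_cast hqX
    have h7 : (((u + X) / q - u / q + 1 : ℕ) : ℝ) ≤ ((X / q : ℕ) : ℝ) + 2 := by exact_mod_cast h4
    linarith

open Pool.Agent.Helper24 in
private theorem bt_explicit {q r : ℕ} (hq : 0 < q) (hqr : Nat.Coprime q r) (u X Y : ℕ)
    (hqX : q ≤ X) (hY : 2 ≤ Y) :
    ((btS q r u X Y).card : ℝ) ≤
      6 * (X : ℝ) / ((Nat.totient q : ℝ) * Real.log Y) + (Y : ℝ) ^ 6 := by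
  have hlog : 0 < Real.log Y := Real.log_pos (by exact_mod_cast (by omega : 1 < Y))
  have hq0 : (0 : ℝ) < q := by exact_mod_cast hq
  have hφ0 : (0 : ℝ) < Nat.totient q := by exact_mod_cast Nat.totient_pos.2 hq
  obtain ⟨k1, k2, k3⟩ := btS_image (r := r) (u := u) (Y := Y) hq hqX
  set B := (btS q r u X Y).image (fun p => p / q) with hB
  set M := (u + X) / q - u / q + 1 with hM
  have hΩ : ∀ p, Nat.Prime p → p ≤ Y →
      (∀ c ∈ btΩ q r p, c < p) ∧ (btΩ q r p).card < p :=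
    fun p hp _ => ⟨fun c hc => (mem_btΩ.1 hc).1, card_btΩ_lt hqr hp⟩
  have h1 := residue_sieve (A := u / q - 1) (M := M) (by omega : 1 ≤ Y) hΩ B k2 ?_
  rotate_left
  · intro m hm p hp hpY hmem
    rw [hB, mem_image] at hm
    obtain ⟨s, hs, rfl⟩ := hm
    rw [btS, mem_filter, mem_Ioc] at hs
    rw [mem_btΩ] at hmem
    have hd : p ∣ s := by
      have e1 := Nat.div_add_mod s q
      rw [hs.2.2] at e1
      have e : s = p * (q * (s / q / p)) + (q * (s / q % p) + r) := by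
        conv_lhs => rw [← e1, ← Nat.div_add_mod (s / q) p]
        ring
      rw [e]
      exact dvd_add (Dvd.intro _ rfl) hmem.2
    have := (Nat.prime_dvd_prime_iff_eq hp hs.2.1.1.1).1 hd
    have h8 := hs.2.1.1.2
    omega
  have h2 := bt_density hq hqr Y
  set G := ∑ l ∈ (Icc 1 Y).filter Squarefree, hterm (btΩ q r) l with hG
  have hpos : 0 < (Nat.totient q : ℝ) * Real.log Y := mul_pos hφ0 hlog
  have hG0 : 0 < G := by
    by_contra hcon
    push Not at hcon
    have : 2 * (q : ℝ) * G ≤ 0 := mul_nonpos_of_nonneg_of_nonpos (by positivity) hcon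
    linarith
  have h3 : (M : ℝ) / G ≤ 6 * (X : ℝ) / ((Nat.totient q : ℝ) * Real.log Y) := by
    rw [div_le_div_iff₀ hG0 hpos]
    have hy0 : (0 : ℝ) ≤ X := Nat.cast_nonneg _
    calc (M : ℝ) * ((Nat.totient q : ℝ) * Real.log Y)
        ≤ (3 * ((X : ℝ) / q)) * (2 * q * G) :=
          mul_le_mul k3 h2 hpos.le (by positivity)
      _ = 6 * (X : ℝ) * G := by
          field_simp
          ring
  rw [← k1]
  linarith

/-- Brun-Titchmarsh: the number of primes `p ≡ r` modulo `q` in `(u, u + X]`, `(q, r) = 1`, `q ^ 4 ≤ X` -/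
theorem bt_int : ∃ C : ℝ, 0 < C ∧ ∃ X0 : ℕ, ∀ X : ℕ, X0 ≤ X → ∀ q r u : ℕ, 0 < q → q ^ 4 ≤ X →
    Nat.Coprime q r →
    (((Ioc u (u + X)).filter (fun p => p.Prime ∧ p ≡ r [MOD q])).card : ℝ) ≤
      C * X / ((Nat.totient q : ℝ) * Real.log X) := by
  refine ⟨400, by norm_num, 4 ^ 24, fun X hX q r u hq hq4 hqr => ?_⟩
  have hq0 : (0 : ℝ) < q := by exact_mod_cast hq
  have hφ0 : (0 : ℝ) < Nat.totient q := by exact_mod_cast Nat.totient_pos.2 hq
  have hφq : (Nat.totient q : ℝ) ≤ q := by exact_mod_cast Nat.totient_le q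
  have hXr : (4 : ℝ) ^ 24 ≤ X := by exact_mod_cast hX
  have hX0 : (0 : ℝ) < X := lt_of_lt_of_le (by norm_num) hXr
  have hlogX : 0 < Real.log X := Real.log_pos (lt_of_lt_of_le (by norm_num) hXr)
  have hqX : q ≤ X := (Nat.le_self_pow (by norm_num) q).trans hq4
  have hqr' : Nat.Coprime q (r % q) := by
    have h := (Nat.gcd_rec q r).symm
    rw [Nat.Coprime, Nat.gcd_comm, h]
    exact hqr
  set t : ℝ := (X : ℝ) ^ (1 / 24 : ℝ) with ht
  have ht0 : 0 < t := Real.rpow_pos_of_pos hX0 _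
  have ht24 : t ^ 24 = X := by
    rw [ht, ← Real.rpow_natCast, ← Real.rpow_mul hX0.le]
    norm_num
  have ht4 : 4 ≤ t := by
    rw [← ht24] at hXr
    exact le_of_pow_le_pow_left₀ (by norm_num) ht0.le hXr
  have ht1 : 1 < t := by linarith
  have hlogt : 0 < Real.log t := Real.log_pos ht1
  have hlogX' : Real.log X = 24 * Real.log t := by
    rw [← ht24, Real.log_pow]
    norm_num
  have hlogt' : Real.log t ≤ t := (Real.log_le_sub_one_of_pos ht0).trans (by linarith)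
  set Y := ⌊t⌋₊ with hYd
  have hY1 : (Y : ℝ) ≤ t := Nat.floor_le ht0.le
  have hY2 : t < (Y : ℝ) + 1 := Nat.lt_floor_add_one t
  have hY3 : 2 ≤ Y := by
    have : (2 : ℝ) < Y := by linarith
    exact_mod_cast this.le
  have h5 := bt_explicit hq hqr' u X Y hqX hY3
  have hY0 : (0 : ℝ) < Y := by linarith
  have hsq : t ≤ (Y : ℝ) ^ 2 := by nlinarith
  have hlogY : Real.log t ≤ 2 * Real.log Y := by
    have := Real.log_le_log ht0 hsq
    rwa [Real.log_pow, Nat.cast_ofNat] at this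
  have hlogY0 : 0 < Real.log Y := by linarith
  have hqt : (q : ℝ) ≤ t ^ 6 := by
    have h6 : (q : ℝ) ^ 4 ≤ (t ^ 6) ^ 4 := by
      rw [← pow_mul]
      norm_num only
      rw [ht24]
      exact_mod_cast hq4
    exact le_of_pow_le_pow_left₀ (by norm_num) (by positivity) h6
  have hsub : (Ioc u (u + X)).filter (fun p => p.Prime ∧ p ≡ r [MOD q]) ⊆
      btS q (r % q) u X Y ∪ (Icc 1 Y ∪ Icc 1 q) := by
    intro p hp
    rw [mem_filter] at hp
    have hp1 : 1 ≤ p := hp.2.1.one_lt.le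
    rw [mem_union, mem_union, mem_Icc, mem_Icc]
    by_cases h1 : p ≤ Y
    · exact Or.inr (Or.inl ⟨hp1, h1⟩)
    · by_cases h2 : p ≤ q
      · exact Or.inr (Or.inr ⟨hp1, h2⟩)
      · push Not at h1 h2
        refine Or.inl ?_
        rw [btS, mem_filter]
        exact ⟨hp.1, ⟨⟨hp.2.1, h1⟩, h2.le⟩, hp.2.2⟩
  have hcard : (((Ioc u (u + X)).filter (fun p => p.Prime ∧ p ≡ r [MOD q])).card : ℝ) ≤
      ((btS q (r % q) u X Y).card : ℝ) + (Y + q) := by
    have h1 := (card_le_card hsub).trans ((card_union_le _ _).trans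
      (Nat.add_le_add_left (card_union_le _ _) _))
    rw [Nat.card_Icc, Nat.card_Icc, Nat.add_sub_cancel, Nat.add_sub_cancel] at h1
    exact_mod_cast h1
  have e3 : 400 * (X : ℝ) / ((Nat.totient q : ℝ) * Real.log X) =
      400 * (X / ((Nat.totient q : ℝ) * Real.log X)) := by ring
  rw [e3]
  have h11 : 0 ≤ (X : ℝ) / ((Nat.totient q : ℝ) * Real.log X) := by positivity
  have h6 : 6 * (X : ℝ) / ((Nat.totient q : ℝ) * Real.log Y) ≤
      288 * (X / ((Nat.totient q : ℝ) * Real.log X)) := by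
    have e2 : 288 * ((X : ℝ) / ((Nat.totient q : ℝ) * Real.log X)) =
        6 * X / ((Nat.totient q : ℝ) * (Real.log t / 2)) := by
      rw [hlogX']
      field_simp
      norm_num
    rw [e2]
    gcongr
    linarith
  have h7 : t ^ 17 ≤ 24 * (X / ((Nat.totient q : ℝ) * Real.log X)) := by
    have e : 24 * ((X : ℝ) / ((Nat.totient q : ℝ) * Real.log X)) =
        t ^ 24 / ((Nat.totient q : ℝ) * Real.log t) := by
      rw [hlogX', ht24]
      field_simp
    rw [e, le_div_iff₀ (by positivity)]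
    have h9 : (Nat.totient q : ℝ) * Real.log t ≤ t ^ 6 * t :=
      mul_le_mul (hφq.trans hqt) hlogt' hlogt.le (by positivity)
    calc t ^ 17 * ((Nat.totient q : ℝ) * Real.log t) ≤ t ^ 17 * (t ^ 6 * t) :=
          mul_le_mul_of_nonneg_left h9 (by positivity)
      _ = t ^ 24 := by ring
  have h8 : (Y : ℝ) ^ 6 ≤ t ^ 17 :=
    (pow_le_pow_left₀ hY0.le hY1 6).trans (pow_le_pow_right₀ ht1.le (by norm_num))
  have h9 : (Y : ℝ) ≤ t ^ 17 := hY1.trans (le_self_pow₀ ht1.le (by norm_num))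
  have h10 : (q : ℝ) ≤ t ^ 17 := hqt.trans (pow_le_pow_right₀ ht1.le (by norm_num))
  linarith

end Pool.Agent.LLW
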