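import Pool.Agent.ES39.CoreX
import Pool.Agent.LLW.Bas

/-!
# LLW/VdA: `ES39.coreX` for one class modulo `pmod z` (part (2) of LL81.md), no asymptotics

Plan (compare ES39/MainXA.lean).  `P := pmod z`, `n1` := the first element of `Iv y H P b`; its elements are `n1 + P t`,
`t < T`, `T = #Iv` (as `T ≥ 1`).  `coreX A0 N0` with modulus `M = g P` (its primes are `≤ max z 2 ≤ l`, use `1 ≤ A0`), `n0 = g n1`,
`B = (Vs g A P b ∪ prs z)` cast to ℤ: `g (n1 + P t) - s = n0 + M t - s`.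
-/

set_option autoImplicit false

open Finset Pool.Agent.REC

namespace Pool.Agent.LLW

/-- the elements of `Iv` form an arithmetic progression -/
private theorem Iv_image (y H P b n1 : ℕ) (hP : 0 < P) (hn1 : n1 ∈ Iv y H P b)
    (hmin : ∀ n ∈ Iv y H P b, n1 ≤ n) :
    Iv y H P b = (range ((y + H - n1) / P + 1)).image (fun t => n1 + P * t) := by
  have h1 := mem_filter.1 hn1
  have h2 := mem_Ioc.1 h1.1
  ext n
  rw [mem_image]
  constructor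
  · intro hn
    have h3 := mem_filter.1 hn
    have h4 := mem_Ioc.1 h3.1
    have h5 := hmin n hn
    have h6 : n1 ≡ n [MOD P] := h1.2.trans h3.2.symm
    obtain ⟨t, ht⟩ := (Nat.modEq_iff_dvd' h5).1 h6
    refine ⟨t, ?_, by omega⟩
    rw [mem_range, Nat.lt_succ_iff, Nat.le_div_iff_mul_le hP, mul_comm]
    omega
  · rintro ⟨t, ht, rfl⟩
    rw [mem_range, Nat.lt_succ_iff, Nat.le_div_iff_mul_le hP, mul_comm] at ht
    refine mem_filter.2 ⟨mem_Ioc.2 ⟨by omega, by omega⟩, ?_⟩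
    have h7 : n1 + P * t ≡ n1 [MOD P] := by
      simp [Nat.ModEq]
    exact h7.trans h1.2

open Classical in
theorem voidA (A0 N0 : ℕ) (hA0 : 1 ≤ A0) : ∃ G1 B1 l1 : ℕ, 1 ≤ G1 ∧ ∀ l : ℕ, l1 ≤ l →
    ∀ Λ : ℕ, 1 ≤ Λ → 16 * G1 * Λ ≤ Nat.log 2 l →
    ∀ (H g y z b : ℕ) (A : Finset ℕ), (g = 1 ∨ g = 2) → z ≤ l → (∀ a ∈ A, a ≤ 2 ^ (l ^ A0)) →
    (((Vs g A (pmod z) b).card + (prs z).card : ℕ) : ℝ) * (Nat.log 2 l : ℝ) ≤ (Λ : ℝ) * l →
    2 ^ (l / 2) ≤ (Iv y H (pmod z) b).card →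
    ((Iv y H (pmod z) b).card : ℝ) ≤ Real.exp (Real.exp ((B1 : ℝ) * Λ)) *
      (((Iv y H (pmod z) b).filter (fun n : ℕ => ∀ s ∈ Vs g A (pmod z) b ∪ prs z,
        ∃ q : ℕ, q.Prime ∧ q ^ N0 ≤ 2 ^ l ∧ (q : ℤ) ∣ (g : ℤ) * (n : ℤ) - (s : ℤ))).card : ℝ) := by
  obtain ⟨G1, B1, l1, hG1, hcore⟩ := Pool.Agent.ES39.coreX A0 N0 hA0
  refine ⟨G1, B1, l1 + 2, hG1, ?_⟩
  intro l hl Λ hΛ hΛl H g y z b A hg hz hA hcard hT
  obtain ⟨P, hP⟩ : ∃ P : ℕ, P = pmod z := ⟨_, rfl⟩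
  have hP0 : 0 < P := hP ▸ pmod_pos z
  have hPq : ∀ q : ℕ, q.Prime → q ∣ P → q ≤ z := by
    intro q hq hd
    rw [hP] at hd
    exact le_of_dvd_pmod hq hd
  rw [← hP] at hcard hT ⊢
  obtain ⟨V, hV⟩ : ∃ V : Finset ℕ, V = Vs g A P b ∪ prs z := ⟨_, rfl⟩
  have hVc : (V.card : ℝ) ≤ (((Vs g A P b).card + (prs z).card : ℕ) : ℝ) := by
    rw [hV]
    exact_mod_cast card_union_le _ _
  have hl2 : 2 ≤ l := by omega
  have hlA : l ≤ l ^ A0 := Nat.le_self_pow (by omega) l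
  have hVb : ∀ s ∈ V, s ≤ 2 ^ (l ^ A0) := by
    intro s hs
    rw [hV, mem_union] at hs
    rcases hs with hs | hs
    · exact hA s (mem_filter.1 hs).1
    · have h1 := (mem_prs.1 hs).2
      have h2 : l ^ A0 < 2 ^ (l ^ A0) := Nat.lt_two_pow_self
      omega
  rw [← hV]
  have hg0 : 0 < g := by rcases hg with h | h <;> omega
  have hg2 : g ≤ 2 := by rcases hg with h | h <;> omega
  -- the first element
  have hne : (Iv y H P b).Nonempty := by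
    rw [← card_pos]
    exact lt_of_lt_of_le (by positivity) hT
  obtain ⟨n1, hn1, hmin⟩ : ∃ n1 ∈ Iv y H P b, ∀ n ∈ Iv y H P b, n1 ≤ n :=
    ⟨(Iv y H P b).min' hne, min'_mem _ _, fun n hn => min'_le _ _ hn⟩
  have himg := Iv_image y H P b n1 hP0 hn1 hmin
  obtain ⟨T, hTd⟩ : ∃ T : ℕ, T = (y + H - n1) / P + 1 := ⟨_, rfl⟩
  rw [← hTd] at himg
  have hinj : ∀ s t : ℕ, n1 + P * s = n1 + P * t → s = t := by
    intro s t h
    exact Nat.eq_of_mul_eq_mul_left hP0 (by omega)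
  have hTc : (Iv y H P b).card = T := by
    rw [himg, card_image_of_injective _ (fun s t h => hinj s t h), card_range]
  rw [hTc] at hT ⊢
  have hcop : ∀ q : ℕ, q.Prime → (l ^ A0) ^ 6 < q → Nat.Coprime (g * P) q := by
    intro q hq hqL
    have h1 : l ^ A0 ≤ (l ^ A0) ^ 6 := Nat.le_self_pow (by norm_num) _
    rw [Nat.coprime_comm, hq.coprime_iff_not_dvd]
    intro hd
    rcases (hq.dvd_mul).mp hd with h | h
    · have := Nat.le_of_dvd hg0 h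
      omega
    · have := hPq q hq h
      omega
  have hBb : ∀ s ∈ V.image (fun n : ℕ => (n : ℤ)), |s| ≤ 2 ^ (l ^ A0) := by
    intro s hs
    obtain ⟨n, hn, rfl⟩ := mem_image.1 hs
    have h1 := hVb n hn
    rw [abs_of_nonneg (Int.natCast_nonneg n)]
    exact_mod_cast h1
  have hBc : ((V.image (fun n : ℕ => (n : ℤ))).card : ℝ) * (Nat.log 2 l : ℝ) ≤ (Λ : ℝ) * l := by
    refine le_trans (mul_le_mul_of_nonneg_right ?_ (Nat.cast_nonneg _)) hcard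
    refine le_trans ?_ hVc
    exact_mod_cast card_image_le
  have hmain := hcore l (by omega) Λ hΛ hΛl (g * P) ((g : ℤ) * (n1 : ℤ))
    (V.image (fun n : ℕ => (n : ℤ))) T (Nat.mul_pos hg0 hP0) hcop hBb hBc hT
  refine hmain.trans (mul_le_mul_of_nonneg_left ?_ (Real.exp_pos _).le)
  have hfin : ((range T).filter (fun t : ℕ => ∀ b ∈ V.image (fun n : ℕ => (n : ℤ)), ∃ q : ℕ,
      q.Prime ∧ q ^ N0 ≤ 2 ^ l ∧ (q : ℤ) ∣ (g : ℤ) * (n1 : ℤ) + ((g * P : ℕ) : ℤ) * (t : ℤ) - b)).card ≤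
      ((Iv y H P b).filter (fun n : ℕ => ∀ s ∈ V,
        ∃ q : ℕ, q.Prime ∧ q ^ N0 ≤ 2 ^ l ∧ (q : ℤ) ∣ (g : ℤ) * (n : ℤ) - (s : ℤ))).card := by
    refine card_le_card_of_injOn (fun t => n1 + P * t) ?_ (fun s _ t _ h => hinj s t h)
    intro t ht
    have ht' := mem_filter.1 (Finset.mem_coe.1 ht)
    refine Finset.mem_coe.2 (mem_filter.2 ⟨?_, ?_⟩)
    · rw [himg]
      exact mem_image_of_mem _ ht'.1
    · intro s hs
      obtain ⟨q, hq, hq2, hq3⟩ := ht'.2 (s : ℤ) (mem_image_of_mem _ hs)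
      refine ⟨q, hq, hq2, ?_⟩
      have e : (g : ℤ) * ((n1 + P * t : ℕ) : ℤ) - (s : ℤ) =
          (g : ℤ) * (n1 : ℤ) + ((g * P : ℕ) : ℤ) * (t : ℤ) - (s : ℤ) := by
        push_cast
        ring
      rw [e]
      exact hq3
  exact_mod_cast hfin

end Pool.Agent.LLW
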