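import Pool.Agent.ES39.Size
import Pool.Agent.LLW.VdA

/-!
# LLW/Vd: the void probability (2) of LL81.md, from `voidA`

Plan (compare ES39/MainXB.lean, Lam.lean).  `L = log H`, `l := Nat.log 2 H + 1`, `P := pmod z`, `ES39.size ε` gives `A0`;
`voidA A0 (4 * N + 8)` gives `G1 B1 l1`.
* `z ≤ c L ≤ l`; `P ^ 200 ≤ H` (`pmod_small`), `T := #Iv ≥ H / P - 1 ≥ 2 ^ (l / 2)` (`Iv_ge`).
* `(k + |prs z|) log2 l ≤ Λ l`, `Λ := ⌈C1 (lm H k + 1)⌉₊`: `|prs z| ≤ C z / log z` (`prs_card`), `log z ≥ ε log log H`, `z ≤ c L`;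
  `k log log H ≤ lm H k * L`.
* `16 G1 Λ ≤ log2 l` and `B1 Λ ≤ (1/4) log l`: from `lm H k ≤ c log log H`, `c` small, `H` large.
* remove the `n` with `|g n - s| ≤ q`, `q ^ (4N+8) ≤ 2^l`, for some `s ∈ B`, and `n ≤ 2`: at most `|B| (2 * 2^(l/(4N+8)) + 3) + 2`
  elements, `|B| ≤ l ^ 2`: negligible against `T exp(-exp(B1 Λ)) ≥ 2^(l/2) exp(- l^(1/4))`.  `2 ^ l ≤ 2 H`: `q ^ (4N+8) ≤ 2H` gives `q ^ N ≤ H`.
* `exp(exp(B1 Λ))`, `Λ ≤ C1 (lm + 1) + 1`: `exp(-exp(B1 Λ)) - (removed)/T ≥ exp(-exp(C (1 + lm)))`.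
-/

set_option autoImplicit false

open Finset Pool.Agent.REC

namespace Pool.Agent.LLW

private theorem vd_ev : ∃ l0 : ℕ, ∀ l : ℕ, l0 ≤ l →
    2 * Real.exp (Real.sqrt l) * ((l : ℝ) ^ 2 * (2 * (2 : ℝ) ^ (l / 8 + 1) + 1) + 3) ≤
      (2 : ℝ) ^ (l / 2) := by
  have h2 : 0 < Real.log 2 := Real.log_pos (by norm_num)
  obtain ⟨c, hc⟩ : ∃ c, c = Real.log 2 / 16 := ⟨_, rfl⟩
  have hc0 : 0 < c := by
    rw [hc]
    positivity
  have e1 := Real.isLittleO_log_id_atTop.bound hc0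
  have e2 := (tendsto_natCast_atTop_atTop (R := ℝ)).eventually e1
  obtain ⟨l1, hl1⟩ := Filter.eventually_atTop.1 e2
  obtain ⟨l2, hl2⟩ := exists_nat_ge ((16 / Real.log 2) ^ 2)
  obtain ⟨l3, hl3⟩ := exists_nat_ge ((Real.log 16 + Real.log 2 / 2) / c)
  refine ⟨max (max l1 l2) (max l3 1), fun l hl => ?_⟩
  have a1 : l1 ≤ l := le_trans (le_trans (le_max_left _ _) (le_max_left _ _)) hl
  have a2 : l2 ≤ l := le_trans (le_trans (le_max_right _ _) (le_max_left _ _)) hl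
  have a3 : l3 ≤ l := le_trans (le_trans (le_max_left _ _) (le_max_right _ _)) hl
  have a4 : 1 ≤ l := le_trans (le_trans (le_max_right _ _) (le_max_right _ _)) hl
  have b1 : Real.log l ≤ c * l := by
    have h := hl1 l a1
    rw [Real.norm_of_nonneg (Real.log_natCast_nonneg l), id, Real.norm_of_nonneg (Nat.cast_nonneg l)] at h
    exact h
  have b2 : Real.sqrt l ≤ c * l := by
    have h0 : (16 / Real.log 2) ^ 2 ≤ (l : ℝ) := hl2.trans (by exact_mod_cast a2)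
    have h3 : 16 / Real.log 2 ≤ Real.sqrt l := Real.le_sqrt_of_sq_le h0
    have h4 : Real.sqrt l * Real.sqrt l = l := Real.mul_self_sqrt (Nat.cast_nonneg l)
    have h5 : 1 ≤ c * Real.sqrt l := by
      have h6 : c * (16 / Real.log 2) = 1 := by
        rw [hc]
        field_simp
      rw [← h6]
      exact mul_le_mul_of_nonneg_left h3 hc0.le
    calc Real.sqrt l = 1 * Real.sqrt l := (one_mul _).symm
      _ ≤ c * Real.sqrt l * Real.sqrt l := mul_le_mul_of_nonneg_right h5 (Real.sqrt_nonneg _)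
      _ = c * l := by rw [mul_assoc, h4]
  have b3 : Real.log 16 + Real.log 2 / 2 ≤ c * l := by
    have h : (Real.log 16 + Real.log 2 / 2) / c ≤ l := hl3.trans (by exact_mod_cast a3)
    rw [div_le_iff₀ hc0] at h
    linarith
  have hl0 : (0 : ℝ) < l := by exact_mod_cast a4
  have hl1' : (1 : ℝ) ≤ l := by exact_mod_cast a4
  have hpow : ∀ m : ℕ, (2 : ℝ) ^ m = Real.exp (m * Real.log 2) := by
    intro m
    rw [Real.exp_nat_mul, Real.exp_log (by norm_num)]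
  obtain ⟨X, hX⟩ : ∃ X, X = Real.exp ((l : ℝ) / 8 * Real.log 2) := ⟨_, rfl⟩
  have hX1 : 1 ≤ X := by
    rw [hX]
    exact Real.one_le_exp (by positivity)
  have hX2 : (2 : ℝ) ^ (l / 8 + 1) ≤ 2 * X := by
    rw [pow_succ, mul_comm, hpow, hX]
    refine mul_le_mul_of_nonneg_left (Real.exp_le_exp.2 ?_) (by norm_num)
    refine mul_le_mul_of_nonneg_right ?_ h2.le
    have := Nat.cast_div_le (α := ℝ) (m := l) (n := 8)
    push_cast at this
    exact this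
  have hR : Real.exp (((l : ℝ) - 1) / 2 * Real.log 2) ≤ (2 : ℝ) ^ (l / 2) := by
    rw [hpow]
    refine Real.exp_le_exp.2 (mul_le_mul_of_nonneg_right ?_ h2.le)
    have h5 : l ≤ 2 * (l / 2) + 1 := by omega
    have h6 : (l : ℝ) ≤ 2 * ((l / 2 : ℕ) : ℝ) + 1 := by exact_mod_cast h5
    linarith
  refine le_trans ?_ hR
  have hl2' : (1 : ℝ) ≤ (l : ℝ) ^ 2 := one_le_pow₀ hl1'
  have hin : (l : ℝ) ^ 2 * (2 * (2 : ℝ) ^ (l / 8 + 1) + 1) + 3 ≤ 8 * (l : ℝ) ^ 2 * X := by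
    have h5 : (l : ℝ) ^ 2 * (2 * (2 : ℝ) ^ (l / 8 + 1) + 1) ≤ (l : ℝ) ^ 2 * (4 * X + 1) :=
      mul_le_mul_of_nonneg_left (by linarith) (by positivity)
    have h6 : (1 : ℝ) ≤ (l : ℝ) ^ 2 * X := one_le_mul_of_one_le_of_one_le hl2' hX1
    have h7 : (l : ℝ) ^ 2 ≤ (l : ℝ) ^ 2 * X := le_mul_of_one_le_right (by positivity) hX1
    nlinarith
  have h16 : 2 * Real.exp (Real.sqrt l) * (8 * (l : ℝ) ^ 2 * X) =
      Real.exp (Real.log 16 + 2 * Real.log l + Real.sqrt l + (l : ℝ) / 8 * Real.log 2) := by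
    have h7 : Real.exp (2 * Real.log l) = (l : ℝ) ^ 2 := by
      rw [two_mul, Real.exp_add, Real.exp_log hl0, sq]
    rw [Real.exp_add, Real.exp_add, Real.exp_add, Real.exp_log (by norm_num), h7, ← hX]
    ring
  calc 2 * Real.exp (Real.sqrt l) * ((l : ℝ) ^ 2 * (2 * (2 : ℝ) ^ (l / 8 + 1) + 1) + 3)
      ≤ 2 * Real.exp (Real.sqrt l) * (8 * (l : ℝ) ^ 2 * X) :=
        mul_le_mul_of_nonneg_left hin (by positivity)
    _ = _ := h16
    _ ≤ _ := by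
        rw [Real.exp_le_exp]
        have h6 : 4 * (c * l) = Real.log 2 / 4 * l := by
          rw [hc]
          ring
        nlinarith

private theorem vd_X (B Λ l : ℕ) (hl : 1 ≤ l) (h : 4 * (B * Λ) ≤ Nat.log 2 l) :
    Real.exp ((B : ℝ) * Λ) ≤ Real.sqrt l := by
  refine Real.le_sqrt_of_sq_le ?_
  have e1 : Real.exp 1 ≤ 4 := by
    have := Real.exp_one_lt_d9
    linarith
  have h1 : Real.exp ((B : ℝ) * Λ) ^ 2 ≤ (2 : ℝ) ^ Nat.log 2 l := by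
    calc Real.exp ((B : ℝ) * Λ) ^ 2 = Real.exp 1 ^ (2 * (B * Λ)) := by
          rw [← Real.exp_nat_mul, ← Real.exp_nat_mul]
          push_cast
          ring_nf
      _ ≤ 4 ^ (2 * (B * Λ)) := pow_le_pow_left₀ (Real.exp_pos _).le e1 _
      _ = 2 ^ (4 * (B * Λ)) := by
          rw [show (4 : ℝ) = 2 ^ 2 by norm_num, ← pow_mul, ← mul_assoc]
          norm_num
      _ ≤ 2 ^ Nat.log 2 l := pow_le_pow_right₀ (by norm_num) h
  refine h1.trans ?_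
  exact_mod_cast Nat.pow_log_le_self 2 (by omega)

open Classical in
private theorem vd_rem (S : Finset ℕ) {g : ℕ} (hg : 0 < g) (V : Finset ℕ) (D : ℕ) :
    (S.filter fun n : ℕ => ∃ s ∈ V, |(g : ℤ) * (n : ℤ) - (s : ℤ)| ≤ (D : ℤ)).card ≤
      V.card * (2 * D + 1) := by
  have h1 : (S.filter fun n : ℕ => ∃ s ∈ V, |(g : ℤ) * (n : ℤ) - (s : ℤ)| ≤ (D : ℤ)).card ≤
      (V.biUnion fun s => Icc ((s : ℤ) - D) (s + D)).card := by
    refine card_le_card_of_injOn (fun n : ℕ => (g : ℤ) * (n : ℤ)) ?_ ?_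
    · intro n hn
      obtain ⟨_, a, ha, hna⟩ := mem_filter.1 (mem_coe.1 hn)
      rw [abs_le] at hna
      refine mem_coe.2 (mem_biUnion.2 ⟨a, ha, mem_Icc.2 ⟨?_, ?_⟩⟩)
      · show (a : ℤ) - (D : ℤ) ≤ (g : ℤ) * (n : ℤ)
        linarith [hna.1]
      · show (g : ℤ) * (n : ℤ) ≤ a + D
        linarith [hna.2]
    · intro a _ b _ h
      have h2 : (g : ℤ) * (a : ℤ) = (g : ℤ) * (b : ℤ) := h
      have h3 : (a : ℤ) = (b : ℤ) := mul_left_cancel₀ (by exact_mod_cast hg.ne') h2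
      exact_mod_cast h3
  refine h1.trans (card_biUnion_le.trans ?_)
  refine (sum_le_card_nsmul V _ (2 * D + 1) fun a _ => ?_).trans (le_of_eq (by simp))
  rw [Int.card_Icc]
  omega

open Classical in
private theorem vd_core (A0 N : ℕ) (hA0 : 1 ≤ A0) : ∃ G B l1 : ℕ, 1 ≤ G ∧ ∀ l : ℕ, l1 ≤ l →
    ∀ Λ : ℕ, 1 ≤ Λ → 16 * G * Λ ≤ Nat.log 2 l →
    ∀ (H g y z b : ℕ) (A : Finset ℕ), (g = 1 ∨ g = 2) → z ≤ l → (∀ a ∈ A, a ≤ 2 ^ (l ^ A0)) →
    (((Vs g A (pmod z) b).card + (prs z).card : ℕ) : ℝ) * (Nat.log 2 l : ℝ) ≤ (Λ : ℝ) * l →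
    2 ^ (l / 2) ≤ (Iv y H (pmod z) b).card → 2 ^ l ≤ 2 * H →
    ((Iv y H (pmod z) b).card : ℝ) ≤ 2 * Real.exp (Real.exp ((B : ℝ) * Λ)) *
      (((Iv y H (pmod z) b).filter (fun n : ℕ => 3 ≤ n ∧ ∀ s ∈ Vs g A (pmod z) b ∪ prs z,
        ∃ q : ℕ, q.Prime ∧ q ^ N ≤ H ∧ (q : ℤ) ∣ (g : ℤ) * (n : ℤ) - (s : ℤ) ∧
          (q : ℤ) < |(g : ℤ) * (n : ℤ) - (s : ℤ)|)).card : ℝ) := by
  obtain ⟨G1, B, l1, hG1, hcore⟩ := voidA A0 (4 * N + 8) hA0
  obtain ⟨l0, hl0⟩ := vd_ev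
  refine ⟨G1 + B, B, max (max l0 l1) 2, by omega, ?_⟩
  intro l hl Λ hΛ hΛl H g y z b A hg hz hA hcard hT h2H
  have hll0 : l0 ≤ l := le_trans (le_trans (le_max_left _ _) (le_max_left _ _)) hl
  have hll1 : l1 ≤ l := le_trans (le_trans (le_max_right _ _) (le_max_left _ _)) hl
  have hl2 : 2 ≤ l := le_trans (le_max_right _ _) hl
  have hΛ1 : 16 * G1 * Λ ≤ Nat.log 2 l :=
    le_trans (Nat.mul_le_mul_right _ (Nat.mul_le_mul_left _ (by omega))) hΛl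
  have hΛ2 : 4 * (B * Λ) ≤ Nat.log 2 l := by
    refine le_trans ?_ hΛl
    rw [← mul_assoc]
    exact Nat.mul_le_mul_right _ (by omega)
  have h3 := hcore l hll1 Λ hΛ hΛ1 H g y z b A hg hz hA hcard hT
  have hbig := hl0 l hll0
  have hX := vd_X B Λ l (by omega) hΛ2
  have hg0 : 0 < g := by rcases hg with h | h <;> omega
  -- size of the set of shifts
  have hlog1 : 1 ≤ Nat.log 2 l := Nat.le_log_of_pow_le (by norm_num) (by omega)
  have hΛL : Λ ≤ l := by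
    have h5 : 1 * Λ ≤ 16 * (G1 + B) * Λ := Nat.mul_le_mul_right _ (by omega)
    have h6 := Nat.log_le_self 2 l
    omega
  obtain ⟨V, hV⟩ : ∃ V : Finset ℕ, V = Vs g A (pmod z) b ∪ prs z := ⟨_, rfl⟩
  have hVc : (V.card : ℝ) ≤ (l : ℝ) ^ 2 := by
    have h5 : (V.card : ℝ) ≤ (((Vs g A (pmod z) b).card + (prs z).card : ℕ) : ℝ) := by
      rw [hV]
      exact_mod_cast card_union_le _ _
    have h6 : (1 : ℝ) ≤ (Nat.log 2 l : ℝ) := by exact_mod_cast hlog1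
    have h7 : (Λ : ℝ) ≤ l := by exact_mod_cast hΛL
    have h8 : (V.card : ℝ) * 1 ≤ (((Vs g A (pmod z) b).card + (prs z).card : ℕ) : ℝ) *
        (Nat.log 2 l : ℝ) := mul_le_mul h5 h6 zero_le_one (Nat.cast_nonneg _)
    have h9 : (Λ : ℝ) * l ≤ l * l := mul_le_mul_of_nonneg_right h7 (Nat.cast_nonneg _)
    rw [mul_one] at h8
    calc (V.card : ℝ) ≤ _ := h8
      _ ≤ _ := hcard
      _ ≤ _ := h9
      _ = _ := (sq _).symm
  rw [← hV] at h3 ⊢
  obtain ⟨I, hI⟩ : ∃ I : Finset ℕ, I = Iv y H (pmod z) b := ⟨_, rfl⟩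
  rw [← hI] at h3 hT ⊢
  obtain ⟨D, hD⟩ : ∃ D : ℕ, D = 2 ^ (l / 8 + 1) := ⟨_, rfl⟩
  set S1 := (I.filter (fun n : ℕ => ∀ s ∈ V,
        ∃ q : ℕ, q.Prime ∧ q ^ (4 * N + 8) ≤ 2 ^ l ∧ (q : ℤ) ∣ (g : ℤ) * (n : ℤ) - (s : ℤ))) with hS1
  set S2 := (I.filter (fun n : ℕ => 3 ≤ n ∧ ∀ s ∈ V,
        ∃ q : ℕ, q.Prime ∧ q ^ N ≤ H ∧ (q : ℤ) ∣ (g : ℤ) * (n : ℤ) - (s : ℤ) ∧
          (q : ℤ) < |(g : ℤ) * (n : ℤ) - (s : ℤ)|)) with hS2
  set R := (I.filter fun n : ℕ => ∃ s ∈ V, |(g : ℤ) * (n : ℤ) - (s : ℤ)| ≤ (D : ℤ)) with hR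
  have hsub : S1 ⊆ S2 ∪ (R ∪ range 3) := by
    intro n hn
    rw [hS1, mem_filter] at hn
    obtain ⟨hn1, hn3⟩ := hn
    by_cases hn3' : 3 ≤ n
    · by_cases hnR : ∃ s ∈ V, |(g : ℤ) * (n : ℤ) - (s : ℤ)| ≤ (D : ℤ)
      · exact mem_union_right _ (mem_union_left _ (mem_filter.2 ⟨hn1, hnR⟩))
      · refine mem_union_left _ (mem_filter.2 ⟨hn1, hn3', fun s hs => ?_⟩)
        push Not at hnR
        obtain ⟨q, hq, hq9, hq2⟩ := hn3 s hs
        have hq3 : 2 ≤ q := hq.two_le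
        have hqD : q ≤ D := by
          by_contra hcon
          push Not at hcon
          have h5 : D ^ 8 ≤ q ^ 8 := Nat.pow_le_pow_left hcon.le 8
          have h6 : q ^ 8 ≤ q ^ (4 * N + 8) := Nat.pow_le_pow_right hq.pos (by omega)
          have h7 : 2 ^ l < D ^ 8 := by
            rw [hD, ← pow_mul]
            exact Nat.pow_lt_pow_right (by norm_num) (by omega)
          omega
        have hqH : q ^ N ≤ H := by
          have h5 : q ^ (N + 1) ≤ q ^ (4 * N + 8) := Nat.pow_le_pow_right hq.pos (by omega)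
          have h6 : q ^ N * 2 ≤ q ^ (N + 1) := by
            rw [pow_succ]
            exact Nat.mul_le_mul_left _ hq3
          omega
        refine ⟨q, hq, hqH, hq2, ?_⟩
        have h7 := hnR s hs
        have h8 : (q : ℤ) ≤ D := by exact_mod_cast hqD
        omega
    · exact mem_union_right _ (mem_union_right _ (mem_range.2 (by omega)))
  have hcardS : S1.card ≤ S2.card + (R.card + 3) := by
    refine (card_le_card hsub).trans ((card_union_le _ _).trans (Nat.add_le_add_left ?_ _))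
    refine (card_union_le _ _).trans (le_of_eq ?_)
    rw [card_range]
  have hRc : R.card ≤ V.card * (2 * D + 1) := vd_rem I hg0 V D
  have hRr : ((R.card + 3 : ℕ) : ℝ) ≤ (l : ℝ) ^ 2 * (2 * (2 : ℝ) ^ (l / 8 + 1) + 1) + 3 := by
    have h5 : (R.card : ℝ) ≤ V.card * (2 * D + 1) := by exact_mod_cast hRc
    have h6 : (D : ℝ) = (2 : ℝ) ^ (l / 8 + 1) := by
      rw [hD]
      push_cast
      rfl
    rw [h6] at h5
    have h7 : (V.card : ℝ) * (2 * (2 : ℝ) ^ (l / 8 + 1) + 1) ≤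
        (l : ℝ) ^ 2 * (2 * (2 : ℝ) ^ (l / 8 + 1) + 1) :=
      mul_le_mul_of_nonneg_right hVc (by positivity)
    push_cast
    linarith
  have hTr : (2 : ℝ) ^ (l / 2) ≤ (I.card : ℝ) := by exact_mod_cast hT
  have hER : 2 * (Real.exp (Real.exp ((B : ℝ) * Λ)) * ((R.card + 3 : ℕ) : ℝ)) ≤ I.card := by
    refine le_trans ?_ (hbig.trans hTr)
    rw [← mul_assoc]
    refine mul_le_mul ?_ hRr (Nat.cast_nonneg _) (by positivity)
    exact mul_le_mul_of_nonneg_left (Real.exp_le_exp.2 hX) (by norm_num)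
  have hcr : (S1.card : ℝ) ≤ S2.card + ((R.card + 3 : ℕ) : ℝ) := by exact_mod_cast hcardS
  have h4 : (I.card : ℝ) ≤ Real.exp (Real.exp ((B : ℝ) * Λ)) * (S2.card + ((R.card + 3 : ℕ) : ℝ)) :=
    h3.trans (mul_le_mul_of_nonneg_left hcr (Real.exp_pos _).le)
  rw [mul_add] at h4
  rw [mul_assoc]
  linarith

private theorem vd_log2 {m : ℕ} (hm : 0 < m) : Real.log m ≤ (Nat.log 2 m : ℝ) + 1 := by
  have h1 : m < 2 ^ (Nat.log 2 m + 1) := Nat.lt_pow_succ_log_self (by norm_num) m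
  have h2 : (m : ℝ) ≤ 2 ^ (Nat.log 2 m + 1) := by exact_mod_cast h1.le
  have h3 : Real.log m ≤ Real.log (2 ^ (Nat.log 2 m + 1)) :=
    Real.log_le_log (Nat.cast_pos.2 hm) h2
  rw [Real.log_pow] at h3
  have h4 : Real.log 2 ≤ 1 := by
    have := Real.log_two_lt_d9
    linarith
  have h5 : (0 : ℝ) ≤ ((Nat.log 2 m + 1 : ℕ) : ℝ) := Nat.cast_nonneg _
  have h6 := mul_le_mul_of_nonneg_left h4 h5
  push_cast at h3 h6
  linarith

/-- `Nat.log 2 m ≤ 2 log m` -/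
private theorem vd_log2' {m : ℕ} (hm : 0 < m) : (Nat.log 2 m : ℝ) ≤ 2 * Real.log m := by
  have h1 : (2 : ℝ) ^ Nat.log 2 m ≤ m := by exact_mod_cast Nat.pow_log_le_self 2 hm.ne'
  have h2 := Real.log_le_log (by positivity) h1
  rw [Real.log_pow] at h2
  have h3 := Real.log_two_gt_d9
  have h4 : (0 : ℝ) ≤ (Nat.log 2 m : ℝ) := Nat.cast_nonneg _
  nlinarith

/-- the facts about `l = Nat.log 2 H + 1` -/
private theorem vd_l {H : ℕ} (hH : 1 ≤ H) (hL : 1 ≤ Real.log H)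
    (hLL : Real.log 3 ≤ Real.log (Real.log H)) :
    Real.log H ≤ ((Nat.log 2 H + 1 : ℕ) : ℝ) ∧ 2 ^ (Nat.log 2 H + 1) ≤ 2 * H ∧
    Real.log (Real.log H) - 1 ≤ (Nat.log 2 (Nat.log 2 H + 1) : ℝ) ∧
    (Nat.log 2 (Nat.log 2 H + 1) : ℝ) ≤ 4 * Real.log (Real.log H) := by
  have h1 : Real.log H ≤ ((Nat.log 2 H + 1 : ℕ) : ℝ) := by
    have := vd_log2 (m := H) (by omega)
    push_cast
    exact this
  have h2 : 2 ^ (Nat.log 2 H + 1) ≤ 2 * H := by
    have := Nat.pow_log_le_self 2 (x := H) (by omega)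
    rw [pow_succ]
    omega
  have h3 : Real.log (Real.log H) ≤ Real.log ((Nat.log 2 H + 1 : ℕ) : ℝ) :=
    Real.log_le_log (by linarith) h1
  refine ⟨h1, h2, ?_, ?_⟩
  · have := vd_log2 (m := Nat.log 2 H + 1) (Nat.succ_pos _)
    linarith
  · have h4 := vd_log2' (m := Nat.log 2 H + 1) (Nat.succ_pos _)
    have h5 : ((Nat.log 2 H + 1 : ℕ) : ℝ) ≤ 3 * Real.log H := by
      have := vd_log2' (m := H) (by omega)
      push_cast
      linarith
    have h6 : Real.log ((Nat.log 2 H + 1 : ℕ) : ℝ) ≤ Real.log 3 + Real.log (Real.log H) := by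
      rw [← Real.log_mul (by norm_num) (by linarith)]
      exact Real.log_le_log (by positivity) h5
    linarith

/-- the lower bound for the length of the progression -/
private theorem vd_T {H z : ℕ} (y b : ℕ) (hH : 2 ^ 16 ≤ H) (hz : pmod z ^ 200 ≤ H) :
    2 ^ ((Nat.log 2 H + 1) / 2) ≤ (Iv y H (pmod z) b).card := by
  have hP0 := pmod_pos z
  have h1 := Iv_ge y H b hP0
  have hP4 : pmod z ^ 4 ≤ H := le_trans (Nat.pow_le_pow_right hP0 (by norm_num)) hz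
  obtain ⟨P, hP⟩ : ∃ P : ℝ, P = (pmod z : ℝ) := ⟨_, rfl⟩
  have hP1 : 1 ≤ P := by
    rw [hP]
    exact_mod_cast hP0
  have hP4' : P ^ 4 ≤ (H : ℝ) := by
    rw [hP]
    exact_mod_cast hP4
  obtain ⟨s, hs⟩ : ∃ s : ℝ, s = Real.sqrt H := ⟨_, rfl⟩
  have hss : s * s = H := by
    rw [hs]
    exact Real.mul_self_sqrt (Nat.cast_nonneg H)
  have hs0 : 0 ≤ s := by
    rw [hs]
    exact Real.sqrt_nonneg _
  have hs256 : (256 : ℝ) ≤ s := by
    rw [hs]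
    refine Real.le_sqrt_of_sq_le ?_
    have : ((2 ^ 16 : ℕ) : ℝ) ≤ H := by exact_mod_cast hH
    norm_num at this ⊢
    exact this
  have hPs : P ^ 2 ≤ s := by
    rw [hs]
    refine Real.le_sqrt_of_sq_le ?_
    rw [← pow_mul]
    exact hP4'
  have hPs' : P * 16 ≤ s := by
    rcases le_or_gt P 16 with h | h
    · linarith
    · nlinarith
  have h2 : 16 * s ≤ (H : ℝ) / (pmod z : ℝ) := by
    rw [← hP, le_div_iff₀ (by linarith), ← hss]
    nlinarith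
  have h3 : ((2 ^ ((Nat.log 2 H + 1) / 2) : ℕ) : ℝ) ≤ 2 * s := by
    have h4 : ((2 ^ ((Nat.log 2 H + 1) / 2) : ℕ)) ^ 2 ≤ 2 * H := by
      rw [← pow_mul]
      refine le_trans (Nat.pow_le_pow_right (by norm_num) (Nat.div_mul_le_self _ 2)) ?_
      have := Nat.pow_log_le_self 2 (x := H) (by omega)
      rw [pow_succ]
      omega
    have h5 : (((2 ^ ((Nat.log 2 H + 1) / 2) : ℕ)) : ℝ) ^ 2 ≤ 2 * (s * s) := by
      rw [hss]
      exact_mod_cast h4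
    refine le_of_sq_le_sq ?_ (by positivity)
    nlinarith
  have h4 : ((2 ^ ((Nat.log 2 H + 1) / 2) : ℕ) : ℝ) ≤ ((Iv y H (pmod z) b).card : ℝ) := by
    linarith
  exact_mod_cast h4

open Classical in
theorem void (ε : ℝ) (hε : 0 < ε) (N : ℕ) : ∃ c C : ℝ, 0 < c ∧ 0 < C ∧ ∃ H0 : ℕ, ∀ H : ℕ, H0 ≤ H →
    ∀ (g y z b : ℕ) (A : Finset ℕ), (g = 1 ∨ g = 2) → Real.log y ^ ε ≤ Real.log H →
    Real.log H ^ ε ≤ z → (z : ℝ) ≤ c * Real.log H → (∀ a ∈ A, a ≤ 2 * (y + H)) →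
    lm H (Vs g A (pmod z) b).card ≤ c * Real.log (Real.log H) →
    ((Iv y H (pmod z) b).card : ℝ) *
        Real.exp (-Real.exp (C * (1 + lm H (Vs g A (pmod z) b).card))) ≤
      (((Iv y H (pmod z) b).filter (fun n : ℕ => 3 ≤ n ∧ ∀ s ∈ Vs g A (pmod z) b ∪ prs z,
        ∃ q : ℕ, q.Prime ∧ q ^ N ≤ H ∧ (q : ℤ) ∣ (g : ℤ) * (n : ℤ) - (s : ℤ) ∧
          (q : ℤ) < |(g : ℤ) * (n : ℤ) - (s : ℤ)|)).card : ℝ) := by
  obtain ⟨A0, hA0, hsize⟩ := Pool.Agent.ES39.size ε hε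
  obtain ⟨G, B, l1, hG, hcore⟩ := vd_core A0 N hA0
  obtain ⟨Cp, hCp, hprs⟩ := prs_card
  obtain ⟨C1, hC1⟩ : ∃ C1 : ℝ, C1 = 4 + 4 * Cp / ε := ⟨_, rfl⟩
  have hC1p : 4 ≤ C1 := by
    rw [hC1]
    have : 0 ≤ 4 * Cp / ε := by positivity
    linarith
  have hG1 : (1 : ℝ) ≤ G := by exact_mod_cast hG
  have hB0 : (0 : ℝ) ≤ B := Nat.cast_nonneg B
  obtain ⟨c, hc⟩ : ∃ c : ℝ, c = min (1 / 400) (1 / (32 * G * C1)) := ⟨_, rfl⟩
  have hc0 : 0 < c := by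
    rw [hc]
    exact lt_min (by norm_num) (by positivity)
  have hc400 : c ≤ 1 / 400 := by
    rw [hc]
    exact min_le_left _ _
  have hcG : 16 * G * C1 * c ≤ 1 / 2 := by
    have h1 : c ≤ 1 / (32 * G * C1) := by
      rw [hc]
      exact min_le_right _ _
    calc 16 * G * C1 * c ≤ 16 * G * C1 * (1 / (32 * G * C1)) :=
          mul_le_mul_of_nonneg_left h1 (by positivity)
      _ = 1 / 2 := by
          field_simp
          norm_num
  refine ⟨c, B * (C1 + 1) + 1, hc0, by positivity, ?_⟩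
  have t1 : Filter.Tendsto (fun H : ℕ => Real.log (H : ℝ)) Filter.atTop Filter.atTop :=
    Real.tendsto_log_atTop.comp tendsto_natCast_atTop_atTop
  have t2 : Filter.Tendsto (fun H : ℕ => Real.log (Real.log (H : ℝ))) Filter.atTop Filter.atTop :=
    Real.tendsto_log_atTop.comp t1
  have t3 : Filter.Tendsto (fun H : ℕ => Real.log (H : ℝ) ^ ε) Filter.atTop Filter.atTop :=
    (tendsto_rpow_atTop hε).comp t1
  have hev := ((hsize.and (t1.eventually_ge_atTop 1)).and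
    ((t2.eventually_ge_atTop (max (Real.log 3) (2 * (16 * G * (C1 + 1) + 1)))).and
      (t3.eventually_ge_atTop 2))).and (Filter.eventually_ge_atTop (max (2 ^ 16) (2 ^ l1)))
  obtain ⟨H0, hH0⟩ := Filter.eventually_atTop.1 hev
  refine ⟨H0, fun H hH g y z b A hg hy hz1 hz2 hA hlm => ?_⟩
  obtain ⟨⟨⟨hsz, hL1⟩, ⟨hLLm, hLe⟩⟩, hHm⟩ := hH0 H hH
  have hLL3 : Real.log 3 ≤ Real.log (Real.log H) := le_trans (le_max_left _ _) hLLm
  have hLLK : 2 * (16 * G * (C1 + 1) + 1) ≤ Real.log (Real.log H) := le_trans (le_max_right _ _) hLLm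
  have hH16 : 2 ^ 16 ≤ H := le_trans (le_max_left _ _) hHm
  have hHl1 : 2 ^ l1 ≤ H := le_trans (le_max_right _ _) hHm
  have hHp : 1 ≤ H := le_trans (by norm_num) hH16
  obtain ⟨hl1, hl2, hl3, hl4⟩ := vd_l hHp hL1 hLL3
  obtain ⟨L, hLd⟩ : ∃ L : ℝ, L = Real.log H := ⟨_, rfl⟩
  obtain ⟨LL, hLLd⟩ : ∃ LL : ℝ, LL = Real.log L := ⟨_, rfl⟩
  obtain ⟨k, hk⟩ : ∃ k : ℕ, k = (Vs g A (pmod z) b).card := ⟨_, rfl⟩
  have hlmd : lm H k = k * LL / L := by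
    rw [hLLd, hLd]
    rfl
  rw [← hk] at hlm ⊢
  have hlog3 : 1 ≤ Real.log 3 := by
    rw [Real.le_log_iff_exp_le (by norm_num)]
    have := Real.exp_one_lt_d9
    linarith
  rw [← hLd] at hL1 hLLK hLL3 hl1 hl3 hl4 hy hz1 hz2 hLe hlm
  rw [← hLLd] at hLLK hLL3 hl3 hl4 hlm
  have hLp : 0 < L := by linarith
  have hLLp : 1 ≤ LL := by linarith
  obtain ⟨l, hl⟩ : ∃ l : ℕ, l = Nat.log 2 H + 1 := ⟨_, rfl⟩
  rw [← hl] at hl1 hl2 hl3 hl4 hsz
  have hlm0 : 0 ≤ lm H k := by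
    rw [hlmd]
    positivity
  obtain ⟨Λ, hΛ⟩ : ∃ Λ : ℕ, Λ = ⌈C1 * (lm H k + 1)⌉₊ := ⟨_, rfl⟩
  have hΛ1 : 1 ≤ Λ := by
    rw [hΛ]
    exact Nat.ceil_pos.2 (by positivity)
  have hΛge : C1 * (lm H k + 1) ≤ (Λ : ℝ) := by
    rw [hΛ]
    exact Nat.le_ceil _
  have hΛle : (Λ : ℝ) ≤ C1 * (lm H k + 1) + 1 := by
    rw [hΛ]
    exact (Nat.ceil_lt_add_one (by positivity)).le
  -- the conditions of `vd_core`
  have hlL : l1 ≤ l := by
    rw [hl]
    exact le_trans (Nat.le_log_of_pow_le (by norm_num) hHl1) (Nat.le_succ _)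
  have hz2' : (2 : ℝ) ≤ z := hLe.trans hz1
  have hz2n : 2 ≤ z := by exact_mod_cast hz2'
  have hzL : (z : ℝ) ≤ L := by
    refine hz2.trans ?_
    nlinarith
  have hzl : z ≤ l := by
    have : (z : ℝ) ≤ l := hzL.trans hl1
    exact_mod_cast this
  have hAb : ∀ a ∈ A, a ≤ 2 ^ (l ^ A0) := by
    intro a ha
    have hy' : Real.log y ^ ε ≤ Real.log H := by
      rw [← hLd]
      exact hy
    exact (hA a ha).trans (hsz y hy')
  have hΛl : 16 * G * Λ ≤ Nat.log 2 l := by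
    have h5 : (16 : ℝ) * G * Λ ≤ 16 * G * (C1 * (lm H k + 1) + 1) :=
      mul_le_mul_of_nonneg_left hΛle (by positivity)
    have h6 : (16 : ℝ) * G * (C1 * (lm H k + 1) + 1) ≤
        16 * G * C1 * c * LL + 16 * G * (C1 + 1) := by
      have h7 : 16 * G * C1 * (lm H k) ≤ 16 * G * C1 * (c * LL) :=
        mul_le_mul_of_nonneg_left hlm (by positivity)
      nlinarith
    have h8 : 16 * G * C1 * c * LL ≤ 1 / 2 * LL := mul_le_mul_of_nonneg_right hcG (by linarith)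
    have h9 : ((16 * G * Λ : ℕ) : ℝ) ≤ ((Nat.log 2 l : ℕ) : ℝ) := by
      push_cast
      linarith
    exact_mod_cast h9
  have hcard : (((Vs g A (pmod z) b).card + (prs z).card : ℕ) : ℝ) * (Nat.log 2 l : ℝ) ≤
      (Λ : ℝ) * l := by
    rw [← hk]
    have h5 : (k : ℝ) * LL = lm H k * L := by
      rw [hlmd]
      field_simp
    have h6 : (k : ℝ) * (Nat.log 2 l : ℝ) ≤ 4 * (lm H k) * L := by
      calc (k : ℝ) * (Nat.log 2 l : ℝ) ≤ k * (4 * LL) :=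
            mul_le_mul_of_nonneg_left hl4 (Nat.cast_nonneg _)
        _ = 4 * (k * LL) := by ring
        _ = 4 * (lm H k) * L := by rw [h5]; ring
    have hlz : ε * LL ≤ Real.log z := by
      have h7 := Real.log_le_log (Real.rpow_pos_of_pos hLp ε) hz1
      rw [Real.log_rpow hLp, ← hLLd] at h7
      exact h7
    have hlz0 : 0 < ε * LL := by positivity
    have h7 : ((prs z).card : ℝ) ≤ Cp * L / (ε * LL) := by
      refine (hprs z hz2n).trans ?_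
      exact div_le_div₀ (by positivity) (mul_le_mul_of_nonneg_left hzL hCp.le) hlz0 hlz
    have h8 : ((prs z).card : ℝ) * (Nat.log 2 l : ℝ) ≤ 4 * Cp / ε * L := by
      calc ((prs z).card : ℝ) * (Nat.log 2 l : ℝ) ≤ Cp * L / (ε * LL) * (4 * LL) :=
            mul_le_mul h7 hl4 (Nat.cast_nonneg _) (by positivity)
        _ = 4 * Cp / ε * L := by
            field_simp
    have h9 : (Λ : ℝ) * L ≤ Λ * l := mul_le_mul_of_nonneg_left hl1 (Nat.cast_nonneg _)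
    have h10 : C1 * (lm H k + 1) * L ≤ Λ * L := mul_le_mul_of_nonneg_right hΛge hLp.le
    have h11 : 4 * (lm H k) * L + 4 * Cp / ε * L ≤ C1 * (lm H k + 1) * L := by
      have h12 : 0 ≤ 4 * Cp / ε * (lm H k) * L := by positivity
      have h13 : C1 * (lm H k + 1) * L = 4 * (lm H k) * L + 4 * Cp / ε * L +
          (4 * L + 4 * Cp / ε * (lm H k) * L) := by
        rw [hC1]
        ring
      rw [h13]
      linarith
    push_cast
    rw [add_mul]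
    linarith
  have hT : 2 ^ (l / 2) ≤ (Iv y H (pmod z) b).card := by
    rw [hl]
    refine vd_T y b hH16 (pmod_small hHp ?_)
    rw [← hLd]
    exact hz2.trans (mul_le_mul_of_nonneg_right hc400 hLp.le)
  have hmain := hcore l hlL Λ hΛ1 hΛl H g y z b A hg hzl hAb hcard hT hl2
  obtain ⟨S, hS⟩ : ∃ S : ℝ, S = (((Iv y H (pmod z) b).filter (fun n : ℕ => 3 ≤ n ∧
      ∀ s ∈ Vs g A (pmod z) b ∪ prs z,
        ∃ q : ℕ, q.Prime ∧ q ^ N ≤ H ∧ (q : ℤ) ∣ (g : ℤ) * (n : ℤ) - (s : ℤ) ∧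
          (q : ℤ) < |(g : ℤ) * (n : ℤ) - (s : ℤ)|)).card : ℝ) := ⟨_, rfl⟩
  rw [← hS] at hmain ⊢
  have hS0 : 0 ≤ S := by
    rw [hS]
    exact Nat.cast_nonneg _
  -- the constant
  have hfin : 2 * Real.exp (Real.exp ((B : ℝ) * Λ)) ≤
      Real.exp (Real.exp ((B * (C1 + 1) + 1) * (1 + lm H k))) := by
    have e1 : (2 : ℝ) ≤ Real.exp 1 := by
      have := Real.add_one_le_exp (1 : ℝ)
      linarith
    have h0 : 0 ≤ (B : ℝ) * Λ := by positivity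
    have h1 : 1 ≤ Real.exp ((B : ℝ) * Λ) := Real.one_le_exp h0
    have h2 : (B : ℝ) * Λ + 1 ≤ (B * (C1 + 1) + 1) * (1 + lm H k) := by
      have h5 : (B : ℝ) * Λ ≤ B * ((C1 + 1) * (1 + lm H k)) := by
        refine mul_le_mul_of_nonneg_left ?_ hB0
        nlinarith
      nlinarith
    have h3 : Real.exp ((B : ℝ) * Λ) + 1 ≤ Real.exp ((B * (C1 + 1) + 1) * (1 + lm H k)) := by
      refine le_trans ?_ (Real.exp_le_exp.2 h2)
      rw [Real.exp_add]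
      nlinarith
    refine le_trans ?_ (Real.exp_le_exp.2 h3)
    rw [Real.exp_add, mul_comm]
    exact mul_le_mul_of_nonneg_left e1 (Real.exp_pos _).le
  have h5 : ((Iv y H (pmod z) b).card : ℝ) ≤
      Real.exp (Real.exp ((B * (C1 + 1) + 1) * (1 + lm H k))) * S :=
    hmain.trans (mul_le_mul_of_nonneg_right hfin hS0)
  rw [Real.exp_neg, ← div_eq_mul_inv, div_le_iff₀ (Real.exp_pos _), mul_comm]
  exact h5

end Pool.Agent.LLW
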